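import Pool.Agent.Lib.MP_d48993_lc.BAE.Rem.Defs
import Pool.Agent.Lib.MP_d48993_lc.AE.Node.ProcBase

/-!
# Part R: chains and passed states
-/

set_option autoImplicit false

namespace Pool.Agent.Lib.MP_d48993_lc.Ba.Rem

open Node
open Node.Proc (endd_append endd_snoc ch_end ch_append ch_pfx)

variable {V : ℕ → Prop} {u blk : ℕ → ℕ} {TB : ℕ → List ℕ → Prop}

theorem ow_inj {x : St} {i j : ℕ} (h : ow x i = ow x j) : i = j := by
  have h1 := congrArg Prod.snd h
  simp only [ow] at h1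
  simpa using List.append_cancel_left h1

theorem ow_inj' {x y : St} {i j : ℕ} (h : ow x i = ow y j) : x = y ∧ i = j := by
  have h1 := congrArg Prod.snd h
  have h0 : x.1 = y.1 := by
    have := congrArg Prod.fst h
    exact this
  simp only [ow] at h1
  obtain ⟨h2, h3⟩ := List.append_inj' h1 rfl
  exact ⟨Prod.ext h0 h2, by simpa using h3⟩

theorem ow_root (x : St) (i : ℕ) : (ow x i).1 = x.1 := rfl

theorem ow_len (x : St) (i : ℕ) : (ow x i).2.length = x.2.length + 1 := by
  simp [ow]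

/-- Roots along a valid chain. -/
theorem ch_root (hE : ∀ g, V g → (src g).1 < (tgt g).1) {σ : List ℕ} {x z : St}
    (h : Ch x σ z) (hv : ∀ s ∈ σ, V s) :
    x.1 ≤ z.1 ∧ (σ ≠ [] → x.1 < z.1) ∧ ∀ s ∈ σ, (tgt s).1 ≤ z.1 ∧ x.1 ≤ (src s).1 := by
  induction σ generalizing x with
  | nil =>
    have h1 : x = z := h
    subst h1
    exact ⟨le_refl _, fun h => (h rfl).elim, fun s hs => absurd hs List.not_mem_nil⟩
  | cons s σ ih =>
    have h1 := ih h.2 fun s' hs' => hv s' (List.mem_cons_of_mem _ hs')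
    have h2 : (src s).1 < (tgt s).1 := hE s (hv s List.mem_cons_self)
    have h3 : src s = x := h.1
    rw [h3] at h2
    refine ⟨by omega, fun _ => by omega, fun s' hs' => ?_⟩
    rcases List.mem_cons.1 hs' with rfl | h4
    · exact ⟨h1.1, by rw [h3]⟩
    · exact ⟨(h1.2.2 s' h4).1, by have := (h1.2.2 s' h4).2; omega⟩

/-- The target of a symbol is the end if its root is the root of the end. -/
theorem ch_last (hE : ∀ g, V g → (src g).1 < (tgt g).1) {σ : List ℕ} {x z : St}
    (h : Ch x σ z) (hv : ∀ s ∈ σ, V s) {s : ℕ} (hs : s ∈ σ) (hr : z.1 ≤ (tgt s).1) :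
    tgt s = z := by
  induction σ generalizing x with
  | nil => exact absurd hs List.not_mem_nil
  | cons a σ ih =>
    have hv' : ∀ s' ∈ σ, V s' := fun s' hs' => hv s' (List.mem_cons_of_mem _ hs')
    rcases List.mem_cons.1 hs with rfl | h4
    · have h1 := ch_root hE h.2 hv'
      cases σ with
      | nil => exact h.2
      | cons b σ =>
        have := h1.2.1 (by simp)
        omega
    · exact ih h.2 hv' h4

/-- Two symbols of a chain. -/
theorem ch_two (hE : ∀ g, V g → (src g).1 < (tgt g).1) {σ : List ℕ} {x z : St}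
    (h : Ch x σ z) (hv : ∀ s ∈ σ, V s) {s s' : ℕ} (hs : s ∈ σ) (hs' : s' ∈ σ)
    (hr : (src s).1 < (tgt s').1) : (tgt s).1 ≤ (tgt s').1 := by
  induction σ generalizing x with
  | nil => exact absurd hs List.not_mem_nil
  | cons a σ ih =>
    have hv' : ∀ s' ∈ σ, V s' := fun s' hs' => hv s' (List.mem_cons_of_mem _ hs')
    have h1 := ch_root hE h.2 hv'
    have ha := hE a (hv a List.mem_cons_self)
    rcases List.mem_cons.1 hs with h4 | h4
    · rcases List.mem_cons.1 hs' with h5 | h5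
      · rw [h4, h5]
      · rw [h4]
        have h2 := (h1.2.2 s' h5).2
        have h3 := hE s' (hv' s' h5)
        omega
    · rcases List.mem_cons.1 hs' with h5 | h5
      · rw [h5] at hr ⊢
        have h2 := (h1.2.2 s h4).2
        omega
      · exact ih h.2 hv' h4 h5

/-- Two targets with the same root are equal. -/
theorem ch_uniq (hE : ∀ g, V g → (src g).1 < (tgt g).1) {σ : List ℕ} {x z : St}
    (h : Ch x σ z) (hv : ∀ s ∈ σ, V s) {s s' : ℕ} (hs : s ∈ σ) (hs' : s' ∈ σ)
    (hr : (tgt s).1 = (tgt s').1) : tgt s = tgt s' := by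
  induction σ generalizing x with
  | nil => exact absurd hs List.not_mem_nil
  | cons a σ ih =>
    have hv' : ∀ s' ∈ σ, V s' := fun s' hs' => hv s' (List.mem_cons_of_mem _ hs')
    have h1 := ch_root hE h.2 hv'
    rcases List.mem_cons.1 hs with h4 | h4
    · rcases List.mem_cons.1 hs' with h5 | h5
      · rw [h4, h5]
      · have h2 := (h1.2.2 s' h5).2
        have h3 := hE s' (hv' s' h5)
        rw [h4] at hr
        omega
    · rcases List.mem_cons.1 hs' with h5 | h5
      · have h2 := (h1.2.2 s h4).2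
        have h3 := hE s (hv' s h4)
        rw [h5] at hr
        omega
      · exact ih h.2 hv' h4 h5

/-- A chain crosses every root between its ends. -/
theorem ch_cross {σ : List ℕ} {x z : St} (h : Ch x σ z) {r : ℕ} (h1 : x.1 < r) (h2 : r ≤ z.1) :
    ∃ s ∈ σ, (src s).1 < r ∧ r ≤ (tgt s).1 := by
  induction σ generalizing x with
  | nil =>
    have h3 : x = z := h
    subst h3
    omega
  | cons a σ ih =>
    have h3 : src a = x := h.1
    by_cases h4 : r ≤ (tgt a).1
    · exact ⟨a, List.mem_cons_self, by rw [h3]; exact h1, h4⟩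
    · obtain ⟨s, h5, h6⟩ := ih h.2 (by omega)
      exact ⟨s, List.mem_cons_of_mem _ h5, h6⟩

/-- A chain can be cut at the target of a symbol. -/
theorem ch_cut {σ : List ℕ} {x z : St} (h : Ch x σ z) {s : ℕ} (hs : s ∈ σ) :
    ∃ α β, σ = α ++ β ∧ α ≠ [] ∧ Ch x α (tgt s) ∧ Ch (tgt s) β z := by
  obtain ⟨α, β, rfl⟩ := List.append_of_mem hs
  refine ⟨α ++ [s], β, by simp, by simp, ?_, ?_⟩
  · rw [show α ++ s :: β = (α ++ [s]) ++ β by simp] at h
    have h1 := (ch_append.1 h).1
    rwa [endd_snoc] at h1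
  · rw [show α ++ s :: β = (α ++ [s]) ++ β by simp] at h
    have h1 := (ch_append.1 h).2
    rwa [endd_snoc] at h1

theorem endd_mem {x : St} {σ : List ℕ} (h : σ ≠ []) : ∃ s ∈ σ, tgt s = endd x σ := by
  obtain ⟨α, s, rfl⟩ : ∃ α s, σ = α ++ [s] := ⟨σ.dropLast, σ.getLast h, by
    rw [List.dropLast_append_getLast]⟩
  exact ⟨s, by simp, by rw [endd_snoc]⟩

theorem ps_mono {σ σ' : List ℕ} (h : σ <+: σ') {x : St} (hp : Ps σ x) : Ps σ' x := by
  obtain ⟨s, h1, h2⟩ := hp
  exact ⟨s, h.subset h1, h2⟩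

theorem ps_append {σ τ : List ℕ} {x : St} : Ps (σ ++ τ) x ↔ Ps σ x ∨ Ps τ x := by
  constructor
  · rintro ⟨s, h1, h2⟩
    rcases List.mem_append.1 h1 with h3 | h3
    · exact Or.inl ⟨s, h3, h2⟩
    · exact Or.inr ⟨s, h3, h2⟩
  · rintro (⟨s, h1, h2⟩ | ⟨s, h1, h2⟩)
    · exact ⟨s, List.mem_append.2 (Or.inl h1), h2⟩
    · exact ⟨s, List.mem_append.2 (Or.inr h1), h2⟩

theorem ps_endd {σ : List ℕ} (h : 0 < (endd o σ).1) : Ps σ (endd o σ) := by
  have : σ ≠ [] := by
    rintro rfl
    exact absurd h (lt_irrefl 0)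
  exact endd_mem this

/-! ## The level preorder -/

theorem Lv.refl (x : St) : Lv x x := Or.inr ⟨rfl, rfl⟩

theorem Lv.trans {x y z : St} (h : Lv x y) (h' : Lv y z) : Lv x z := by
  rcases h with h | ⟨h1, h2⟩
  · unfold Rise at h
    rcases h' with h' | ⟨h3, h4⟩
    · unfold Rise at h'
      exact Or.inl (by unfold Rise; omega)
    · exact Or.inl (by unfold Rise; omega)
  · rcases h' with h' | ⟨h3, h4⟩
    · unfold Rise at h'
      exact Or.inl (by unfold Rise; omega)
    · exact Or.inr ⟨by omega, h4.trans h2⟩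

theorem Lv.own {x v : St} (h : Lv x v) (hx : 1 ≤ x.2.length) (i j : ℕ) :
    Lv (ow x i) (ow v j) := by
  rcases h with h | ⟨h1, h2⟩
  · unfold Rise at h
    refine Or.inl ?_
    unfold Rise
    rw [ow_len, ow_len, ow_root, ow_root]
    omega
  · refine Or.inr ⟨?_, ?_⟩
    · rw [ow_len, ow_len, ow_root, ow_root]
      omega
    · show (v.2 ++ [j]).head? = (x.2 ++ [i]).head?
      cases hx' : x.2 with
      | nil => rw [hx'] at hx; simp at hx
      | cons a l =>
        cases hv : v.2 with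
        | nil => rw [hx', hv] at h2; simp at h2
        | cons b m =>
          rw [hx', hv] at h2
          simpa using h2

section Gr

variable (hG : Gr V u blk)

include hG

theorem Gr.inc : ∀ g, V g → (src g).1 < (tgt g).1 := fun g hg => (hG.edge g hg).1

theorem Gr.ulm {s t : ℕ} (h : s < t) : u s < u t := by
  induction t with
  | zero => omega
  | succ t ih =>
    rcases Nat.lt_succ_iff_lt_or_eq.1 h with h1 | h1
    · exact (ih h1).trans (hG.umono t)
    · rw [h1]; exact hG.umono t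

theorem Gr.ule {s t : ℕ} (h : s ≤ t) : u s ≤ u t := by
  rcases Nat.lt_or_eq_of_le h with h1 | h1
  · exact (hG.ulm h1).le
  · rw [h1]

theorem Gr.ult {s t : ℕ} (h : u s < u t) : s < t := by
  by_contra h1
  have := hG.ule (Nat.le_of_not_lt h1)
  omega

theorem Gr.uinj {s t : ℕ} (h : u s = u t) : s = t := by
  rcases Nat.lt_trichotomy s t with h1 | h1 | h1
  · have := hG.ulm h1; omega
  · exact h1
  · have := hG.ulm h1; omega

theorem Gr.bmono (t : ℕ) : blk t ≤ blk (t + 1) := by
  rcases hG.bstep t with h | h <;> omega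

theorem Gr.ble {s t : ℕ} (h : s ≤ t) : blk s ≤ blk t := by
  induction t with
  | zero => rw [Nat.le_zero.1 h]
  | succ t ih =>
    rcases Nat.lt_or_eq_of_le h with h1 | h1
    · exact (ih (by omega)).trans (hG.bmono t)
    · rw [h1]

theorem Gr.ugt (r : ℕ) : ∃ t, r < u t := by
  have h : ∀ t, t < u t := by
    intro t
    induction t with
    | zero => exact hG.upos 0
    | succ t ih => have := hG.umono t; omega
  exact ⟨r, h r⟩

/-- The last public root below `r`. -/
theorem Gr.last {t r : ℕ} (h : u t ≤ r) : ∃ t', t ≤ t' ∧ u t' ≤ r ∧ r < u (t' + 1) := by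
  obtain ⟨m, hm⟩ := hG.ugt r
  have h1 : t < m := hG.ult (by omega)
  induction m with
  | zero => omega
  | succ m ih =>
    by_cases h2 : r < u m
    · exact ih h2 (hG.ult (by omega))
    · exact ⟨m, by omega, by omega, hm⟩

/-- A last index of a block, beyond `t`. -/
theorem Gr.lb (t n : ℕ) : ∃ t', t ≤ t' ∧ n ≤ blk t' ∧ Lb blk t' := by
  obtain ⟨m, hm⟩ := hG.bunb (blk t + n + 1)
  have h1 : ∀ m, blk t + n < blk m → ∃ t', t ≤ t' ∧ blk t' ≤ blk t + n ∧
      blk t + n < blk (t' + 1) := by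
    intro m
    induction m with
    | zero =>
      intro h
      have := hG.ble (Nat.zero_le t)
      omega
    | succ m ih =>
      intro h
      by_cases h2 : blk t + n < blk m
      · exact ih h2
      · by_cases h3 : t ≤ m
        · exact ⟨m, h3, by omega, h⟩
        · have := hG.ble (show m + 1 ≤ t by omega)
          omega
  obtain ⟨t', h2, h3, h4⟩ := h1 m (by omega)
  by_cases h5 : n ≤ blk t'
  · exact ⟨t', h2, h5, by unfold Lb; omega⟩
  · -- go to the next jump
    have h6 : ∀ m, blk (t' + 1) < blk m → ∃ t'', t' + 1 ≤ t'' ∧ blk t'' ≤ blk (t' + 1) ∧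
        blk (t' + 1) < blk (t'' + 1) := by
      intro m
      induction m with
      | zero =>
        intro h
        have := hG.ble (Nat.zero_le (t' + 1))
        omega
      | succ m ih =>
        intro h
        by_cases h2 : blk (t' + 1) < blk m
        · exact ih h2
        · by_cases h3 : t' + 1 ≤ m
          · exact ⟨m, h3, by omega, h⟩
          · have := hG.ble (show m + 1 ≤ t' + 1 by omega)
            omega
    obtain ⟨m', hm'⟩ := hG.bunb (blk (t' + 1) + 1)
    obtain ⟨t'', h7, h8, h9⟩ := h6 m' (by omega)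
    have h10 := hG.ble h7
    exact ⟨t'', by omega, by omega, by unfold Lb; omega⟩

theorem Gr.ps_uniq {σ : List ℕ} (h : LV V σ) {x y : St} (hx : Ps σ x) (hy : Ps σ y)
    (hr : x.1 = y.1) : x = y := by
  obtain ⟨s, h1, rfl⟩ := hx
  obtain ⟨s', h2, rfl⟩ := hy
  exact ch_uniq hG.inc h.1 h.2 h1 h2 hr

theorem Gr.ps_le {σ : List ℕ} (h : LV V σ) {x : St} (hx : Ps σ x) : x.1 ≤ (endd o σ).1 := by
  obtain ⟨s, h1, rfl⟩ := hx
  exact ((ch_root hG.inc h.1 h.2).2.2 s h1).1

theorem Gr.lv_pfx {σ σ' : List ℕ} (h : LV V σ') (hp : σ <+: σ') : LV V σ :=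
  ⟨ch_pfx h.1 hp, fun s hs => h.2 s (hp.subset hs)⟩

theorem Gr.root_pfx {σ σ' : List ℕ} (h : LV V σ') (hp : σ <+: σ') :
    (endd o σ).1 ≤ (endd o σ').1 := by
  obtain ⟨τ, rfl⟩ := hp
  have h1 := ch_append.1 h.1
  have h2 := ch_root hG.inc h1.2 fun s hs => h.2 s (List.mem_append.2 (Or.inr hs))
  exact h2.1

/-- A passed state of small root is passed by the initial segment. -/
theorem Gr.ps_back {σ τ : List ℕ} (h : LV V (σ ++ τ)) {x : St} (hx : Ps (σ ++ τ) x)
    (hr : x.1 ≤ (endd o σ).1) : Ps σ x := by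
  rcases ps_append.1 hx with h1 | h1
  · exact h1
  · obtain ⟨s, h2, rfl⟩ := h1
    have h3 := ch_append.1 h.1
    have hv : ∀ s ∈ τ, V s := fun s hs => h.2 s (List.mem_append.2 (Or.inr hs))
    have h4 := ((ch_root hG.inc h3.2 hv).2.2 s h2).2
    have h5 := hG.inc s (hv s h2)
    omega

theorem Gr.adm_ps {σ : List ℕ} (h : LV V σ) {x : St} (hx : Ps σ x) : Adm x := by
  obtain ⟨s, h1, rfl⟩ := hx
  exact (hG.edge s (h.2 s h1)).2.2

theorem Gr.reg_pfx {N : ℕ} {σ σ' : List ℕ} (h : Reg V u blk TB N σ') (hp : σ <+: σ') :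
    Reg V u blk TB N σ := by
  have hl := hG.lv_pfx h.lv hp
  have hr := hG.root_pfx h.lv hp
  obtain ⟨τ, rfl⟩ := hp
  refine ⟨hl, fun t h1 h2 => ?_, fun t x h1 h2 h3 => h.dep t x h1 h2 (ps_append.2 (Or.inl h3)),
    fun t x y h1 h2 h3 h4 h5 => h.link t x y h1 h2 h3 (ps_append.2 (Or.inl h4))
      (ps_append.2 (Or.inl h5)), fun t x v h1 h2 h3 h4 => h.cln t x v h1 h2
      (ps_append.2 (Or.inl h3)) (ps_append.2 (Or.inl h4))⟩
  obtain ⟨x, h3, h4⟩ := h.pass t h1 (by omega)
  exact ⟨x, h3, hG.ps_back h.lv h4 (by omega)⟩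

end Gr

theorem headD_append {l : List ℕ} (h : 1 ≤ l.length) (i : ℕ) :
    (l ++ [i]).headD 0 = l.headD 0 := by
  cases l with
  | nil => simp at h
  | cons a l => rfl

theorem Lk.r {t : ℕ} {x y : St} (h : Lk blk TB t x y) :
    y.2.length + blk t ≤ x.2.length + blk (t + 1) := by
  by_cases h1 : blk (t + 1) = blk t
  · have := (h.same h1).1
    omega
  · rcases h.next h1 with h2 | ⟨h2, -⟩ <;> omega

/-- Links of own states. -/
theorem Lk.own {t : ℕ} {x y : St} (h : Lk blk TB t x y) (hd : x.2.length + 1 ≤ blk t)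
    (i j : ℕ) : Lk blk TB t (ow x i) (ow y j) ∧ y.2.length + 1 ≤ blk (t + 1) := by
  have h1 := h.r
  have h2 : y.2.length + 1 ≤ blk (t + 1) := by omega
  have e1 : (ow x i).2.headD 0 = x.2.headD 0 := headD_append h.lx0 i
  have e2 : (ow y j).2.headD 0 = y.2.headD 0 := headD_append h.ly0 j
  have e3 : pyd (ow x i) = pyd x := by unfold pyd; rw [e1]
  have e4 : pyd (ow y j) = pyd y := by unfold pyd; rw [e2]
  refine ⟨⟨?_, ?_, ?_, ?_, fun hb => ?_, fun hb => ?_⟩, h2⟩
  · rw [ow_len]; omega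
  · rw [ow_len]; exact hd
  · rw [ow_len]; omega
  · rw [ow_len]; exact h2
  · rw [ow_len, ow_len, e1, e2, (h.same hb).1, (h.same hb).2]
    exact ⟨rfl, rfl⟩
  · rw [ow_len, ow_len, e3, e4]
    rcases h.next hb with h3 | ⟨h3, h4⟩
    · left; omega
    · right; exact ⟨by omega, h4⟩

/-- Keep the string. -/
theorem Lk.keep {t : ℕ} {x : St} (hb : blk (t + 1) = blk t ∨ blk (t + 1) = blk t + 1)
    (h1 : 1 ≤ x.2.length) (h2 : x.2.length ≤ blk t) (r : ℕ) : Lk blk TB t x (r, x.2) := by
  refine ⟨h1, h2, h1, by show x.2.length ≤ _; rcases hb with h | h <;> omega,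
    fun _ => ⟨rfl, rfl⟩, fun hb' => Or.inl ?_⟩
  show x.2.length + blk t < x.2.length + blk (t + 1)
  rcases hb with h | h
  · exact (hb' h).elim
  · omega

/-- Depths along a regular string. -/
theorem Gr.dep_up (hG : Gr V u blk) {N : ℕ} {σ : List ℕ} (h : Reg V u blk TB N σ) {t : ℕ} {y : St}
    (hN : N ≤ t) (hy : y.1 = u t) (hp : Ps σ y) (hd : y.2.length + 1 ≤ blk t) {t' : ℕ} {y' : St}
    (ht : t ≤ t') (hy' : y'.1 = u t') (hp' : Ps σ y') : y'.2.length + 1 ≤ blk t' := by
  induction t' generalizing y' with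
  | zero =>
    have h1 : t = 0 := by omega
    subst h1
    have := hG.ps_uniq h.lv hp hp' (hy.trans hy'.symm)
    rw [← this]; exact hd
  | succ t' ih =>
    rcases Nat.lt_or_eq_of_le ht with h1 | h1
    · have h2 := hG.ps_le h.lv hp'
      have h3 := hG.umono t'
      obtain ⟨x, h4, h5⟩ := h.pass t' (by omega) (by omega)
      have h6 := ih (by omega) h4 h5
      exact ((h.link t' x y' (by omega) h4 hy' h5 hp').own h6 0 0).2
    · subst h1
      have := hG.ps_uniq h.lv hp hp' (hy.trans hy'.symm)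
      rw [← this]; exact hd

end Pool.Agent.Lib.MP_d48993_lc.Ba.Rem
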