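import Pool.Agent.Lib.MP_d48993_lc.BAE.Rem.Basic

/-!
# Part R: BETWEEN (finding 4183, (R1.2))

A string between own states of the ends of a regular driver, which is certified by the symbols of
the driver, passes the public roots in own states of the states of the driver.
-/

set_option autoImplicit false

namespace Pool.Agent.Lib.MP_d48993_lc.Ba.Rem

open Node
open Node.Proc (endd_append endd_snoc ch_end ch_append ch_pfx)

variable {V : ℕ → Prop} {u blk : ℕ → ℕ} {TB : ℕ → List ℕ → Prop}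

theorem ch_head {α : List ℕ} {x y : St} (h : Ch x α y) {s : ℕ} (hs : s ∈ α) :
    src (α.headD 0) = x := by
  cases α with
  | nil => exact absurd hs List.not_mem_nil
  | cons a l => exact h.1

/-- The strings of a symbol. -/
theorem Gr.in_str (hG : Gr V u blk) {g s : ℕ} (hg : V g)
    (h : (∃ α ∈ Ap g, s ∈ α) ∨ ∃ q ∈ Ex g, s ∈ q.2 ∧ Clc g q.2) : V s ∧
      (src g).1 ≤ (src s).1 ∧ (tgt s).1 ≤ (tgt g).1 ∧
      ((tgt g).1 ≤ (tgt s).1 → ∃ j, tgt s = ow (tgt g) j) ∧
      ((tgt s).1 < (tgt g).1 → ∃ a, Lv (ow (src g) a) (tgt s)) := by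
  have key : ∀ α i j, (∀ s ∈ α, V s) → Ch (ow (src g) i) α (ow (tgt g) j) → s ∈ α →
      Clc g α → V s ∧ (src g).1 ≤ (src s).1 ∧ (tgt s).1 ≤ (tgt g).1 ∧
      ((tgt g).1 ≤ (tgt s).1 → ∃ j, tgt s = ow (tgt g) j) ∧
      ((tgt s).1 < (tgt g).1 → ∃ a, Lv (ow (src g) a) (tgt s)) := by
    intro α i j h1 h2 h3 h6
    have h4 := (ch_root hG.inc h2 h1).2.2 s h3
    refine ⟨h1 s h3, h4.2, h4.1, fun h5 => ⟨j, ch_last hG.inc h2 h1 h3 h5⟩, fun h5 => ⟨i, ?_⟩⟩
    have h7 := h6 s h3 h5
    rwa [ch_head h2 h3] at h7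
  rcases h with ⟨α, h1, h2⟩ | ⟨q, h1, h2, h5⟩
  · obtain ⟨h3, i, j, h4⟩ := hG.ap g hg α h1
    exact key α i j h3 h4 h2 (fun s hs => hG.apc g hg α h1 s hs)
  · obtain ⟨h3, j, h4⟩ := hG.ex g hg q h1
    exact key q.2 q.1 j h3 h4 h2 h5

/-- A symbol of a chain starts in a passed state. -/
theorem ch_src {x z : St} {τ : List ℕ} (h : Ch x τ z) {g : ℕ} (hg : g ∈ τ) :
    src g = x ∨ ∃ s ∈ τ, tgt s = src g := by
  induction τ generalizing x with
  | nil => exact absurd hg List.not_mem_nil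
  | cons a τ ih =>
    rcases List.mem_cons.1 hg with rfl | h1
    · exact Or.inl h.1
    · rcases ih h.2 h1 with h2 | ⟨s, h2, h3⟩
      · exact Or.inr ⟨a, List.mem_cons_self, h2.symm⟩
      · exact Or.inr ⟨s, List.mem_cons_of_mem _ h2, h3⟩

/-- The symbols of a certified string are valid. -/
theorem Gr.cert_v (hG : Gr V u blk) {τ ν : List ℕ} (hτ : ∀ g ∈ τ, V g) (hc : Cert τ ν) :
    ∀ s ∈ ν, V s := by
  intro s hs
  obtain ⟨⟨g, h1, h2⟩, -⟩ := hc s hs
  exact (hG.in_str (hτ g h1) h2).1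

/-- BETWEEN, for one state of the driver. -/
theorem Gr.between (hG : Gr V u blk) {x x' a b : St} {τ ν : List ℕ} (hτ : Ch x τ x')
    (hv : ∀ g ∈ τ, V g) (hν : Ch a ν b) (ha : a.1 = x.1) (hb : b.1 = x'.1) (hc : Cert τ ν)
    {y : St} (hy : Ps τ y) : ∃ j, 1 ≤ j ∧ Ps ν (ow y j) := by
  obtain ⟨g', hg', rfl⟩ := hy
  have hr := ch_root hG.inc hτ hv
  have h1 := hr.2.2 g' hg'
  have h2 := hG.inc g' (hv g' hg')
  obtain ⟨s, h3, h4, h5⟩ := ch_cross hν (r := (tgt g').1) (by omega) (by omega)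
  obtain ⟨⟨g, h6, h7⟩, h14⟩ := hc s h3
  obtain ⟨-, h8, h9, h10, -⟩ := hG.in_str (hv g h6) h7
  have h11 := ch_two hG.inc hτ hv h6 hg' (by omega)
  have h12 : (tgt g).1 = (tgt g').1 := by omega
  obtain ⟨j, h13⟩ := h10 (by omega)
  have h15 : tgt s = ow (tgt g') j := by rw [h13, ch_uniq hG.inc hτ hv h6 hg' h12]
  refine ⟨j, ?_, s, h3, h15⟩
  by_contra h16
  have h17 : j = 0 := by omega
  rw [h17] at h15
  exact h14 g' hg' h15

/-- The end of a driver, its own states. -/
theorem Gr.cert_reg (hG : Gr V u blk) {N : ℕ} {σ τ p ν : List ℕ} {b : St}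
    (hr : Reg V u blk TB N (σ ++ τ)) (hp : Reg V u blk TB N p) (hpe : (endd o p).1 = (endd o σ).1)
    (hν : Ch (endd o p) ν b) (hb : b.1 = (endd o (σ ++ τ)).1) (hc : Cert τ ν)
    (hfar : ∃ t, N ≤ t ∧ u t ≤ (endd o σ).1)
    (hown : ∀ t y, N ≤ t → y.1 = u t → Ps σ y → (endd o σ).1 < u (t + 1) →
      y.2.length + 1 ≤ blk t ∧ ∃ i, Ps p (ow y i)) :
    Reg V u blk TB N (p ++ ν) ∧ (∀ t y, N ≤ t → y.1 = u t → Ps (σ ++ τ) y →
      (endd o (σ ++ τ)).1 < u (t + 1) → y.2.length + 1 ≤ blk t ∧ ∃ i, Ps (p ++ ν) (ow y i)) ∧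
    ∀ t y, N ≤ t → (endd o σ).1 < u t → y.1 = u t → Ps (σ ++ τ) y →
      ∃ i, 1 ≤ i ∧ Ps (p ++ ν) (ow y i) := by
  have hσ : Ch o σ (endd o σ) := ch_pfx hr.lv.1 (List.prefix_append _ _)
  have hτ := (ch_append.1 hr.lv.1).2
  have hvτ : ∀ g ∈ τ, V g := fun g hg => hr.lv.2 g (List.mem_append.2 (Or.inr hg))
  have hvν : ∀ s ∈ ν, V s := hG.cert_v hvτ hc
  have hν' : Ch (endd o p) ν (endd (endd o p) ν) := by rwa [← ch_end hν]
  have hbe : b = endd o (p ++ ν) := by rw [endd_append]; exact ch_end hν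
  have hlv : LV V (p ++ ν) := by
    refine ⟨?_, fun s hs => ?_⟩
    · rw [← hbe]
      exact ch_append.2 ⟨hp.lv.1, hν⟩
    · rcases List.mem_append.1 hs with h | h
      · exact hp.lv.2 s h
      · exact hvν s h
  have hrσ := hG.reg_pfx hr (List.prefix_append σ τ)
  have hle := hG.root_pfx hr.lv (List.prefix_append σ τ)
  -- the last public root of `σ`
  obtain ⟨tf, htf, htf'⟩ := hfar
  obtain ⟨tl, h1, h2, h3⟩ := hG.last htf'
  obtain ⟨yl, h4, h5⟩ := hrσ.pass tl (by omega) h2
  obtain ⟨h6, il, h7⟩ := hown tl yl (by omega) h4 h5 h3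
  -- every driver state at a later public root
  have key : ∀ t, tl ≤ t → u t ≤ (endd o (σ ++ τ)).1 → ∃ y i, y.1 = u t ∧ Ps (σ ++ τ) y ∧
      y.2.length + 1 ≤ blk t ∧ Ps (p ++ ν) (ow y i) := by
    intro t ht ht'
    rcases Nat.lt_or_eq_of_le ht with h8 | h8
    · obtain ⟨y, h9, h10⟩ := hr.pass t (by omega) ht'
      have h11 : Ps τ y := by
        rcases ps_append.1 h10 with h | h
        · have h12 := hG.ps_le hrσ.lv h
          have h13 := hG.ule (show tl + 1 ≤ t by omega)
          omega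
        · exact h
      obtain ⟨j, -, h12⟩ := hG.between hτ hvτ hν hpe hb hc h11
      exact ⟨y, j, h9, h10, hG.dep_up hr (by omega) h4 (ps_append.2 (Or.inl h5)) h6 ht h9 h10,
        ps_append.2 (Or.inr h12)⟩
    · subst h8
      exact ⟨yl, il, h4, ps_append.2 (Or.inl h5), h6, ps_append.2 (Or.inl h7)⟩
  -- a state of the new string at a late public root
  have key2 : ∀ t x, tl ≤ t → x.1 = u t → Ps (p ++ ν) x → ∃ y i, y.1 = u t ∧ Ps (σ ++ τ) y ∧
      y.2.length + 1 ≤ blk t ∧ x = ow y i := by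
    intro t x ht hx hpx
    have h8 := hG.ps_le hlv hpx
    rw [← hbe, hb] at h8
    obtain ⟨y, i, h9, h10, h11, h12⟩ := key t ht (by omega)
    exact ⟨y, i, h9, h10, h11, hG.ps_uniq hlv hpx h12 (hx.trans h9.symm)⟩
  refine ⟨⟨hlv, fun t h8 h9 => ?_, fun t x h8 h9 h10 => ?_, fun t x y h8 h9 h10 h11 h12 => ?_,
    fun t x v h8 h9 h10 h11 h12 h13 => ?_⟩, fun t y h8 h9 h10 h11 => ?_,
    fun t y _ h9 h10 h11 => ?_⟩
  · rw [← hbe, hb] at h9
    by_cases h10 : tl ≤ t
    · obtain ⟨y, i, h11, -, -, h12⟩ := key t h10 h9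
      exact ⟨ow y i, h11, h12⟩
    · have h11 := hG.ule (show t ≤ tl by omega)
      obtain ⟨x, h12, h13⟩ := hp.pass t h8 (by omega)
      exact ⟨x, h12, ps_append.2 (Or.inl h13)⟩
  · by_cases h11 : tl ≤ t
    · obtain ⟨y, i, -, -, h12, rfl⟩ := key2 t x h11 h9 h10
      rw [ow_len]; exact ⟨by omega, h12⟩
    · have h12 := hG.ule (show t ≤ tl by omega)
      exact hp.dep t x h8 h9 (hG.ps_back hlv h10 (by omega))
  · by_cases h13 : tl ≤ t
    · obtain ⟨x', i, h14, h15, h16, rfl⟩ := key2 t x h13 h9 h11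
      obtain ⟨y', j, h17, h18, h19, rfl⟩ := key2 (t + 1) y (by omega) h10 h12
      exact ((hr.link t x' y' (by omega) h14 h17 h15 h18).own h16 i j).1
    · have h14 := hG.ule (show t ≤ tl by omega)
      have h15 := hG.ule (show t + 1 ≤ tl by omega)
      exact hp.link t x y h8 h9 h10 (hG.ps_back hlv h11 (by omega))
        (hG.ps_back hlv h12 (by omega))
  · rcases Nat.lt_or_eq_of_le h12 with h14 | h14
    · by_cases h15 : v.1 ≤ (endd o p).1
      · exact hp.cln t x v h8 h9 (hG.ps_back hlv h10 (by omega)) (hG.ps_back hlv h11 h15) h12 h13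
      · have h16 : Ps ν v := by
          rcases ps_append.1 h11 with h | h
          · exact (h15 (hG.ps_le hp.lv h)).elim
          · exact h
        obtain ⟨s, h17, rfl⟩ := h16
        have h18 : tl ≤ t := by
          by_contra h19
          have := hG.ule (show t + 1 ≤ tl by omega)
          omega
        obtain ⟨y, i, h19, h20, h21, rfl⟩ := key2 t x h18 h9 h10
        obtain ⟨⟨g, h22, h23⟩, -⟩ := hc s h17
        obtain ⟨-, h24, h25, h26, h27⟩ := hG.in_str (hvτ g h22) h23
        have h28 := (hr.dep t y (by omega) h19 h20).1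
        have h29 := hG.inc s (hvν s h17)
        have h30 := (ch_root hG.inc hτ hvτ).2.2 g h22
        have e9 : (ow y i).1 = y.1 := rfl
        rcases Nat.lt_or_eq_of_le h25 with h31 | h31
        · -- the source of `g`
          have h32 : Ps (σ ++ τ) (src g) := by
            rcases ch_src hτ h22 with h | ⟨s', h, h'⟩
            · rw [h]
              exact ps_mono (List.prefix_append _ _) (ps_endd (by
                have := hG.upos tl
                omega))
            · exact ⟨s', List.mem_append.2 (Or.inr h), h'⟩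
          have h33 : u t ≤ (src g).1 := by
            by_contra h34
            rcases Nat.lt_or_eq_of_le h18 with h35 | h35
            · have h36 : Ps τ y := by
                rcases ps_append.1 h20 with h | h
                · have h37 := hG.ps_le hrσ.lv h
                  have h38 := hG.ule (show tl + 1 ≤ t by omega)
                  omega
                · exact h
              obtain ⟨g', h39, rfl⟩ := h36
              have h40 := ch_two hG.inc hτ hvτ h22 h39 (by omega)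
              omega
            · subst h35
              omega
          obtain ⟨a, h34⟩ := h27 h31
          have h35 := hr.cln t y (src g) (by omega) h19 h20 h32 (by omega) (by omega)
          exact (h35.own h28 i a).trans h34
        · obtain ⟨j, h32⟩ := h26 (by omega)
          have h33 : Ps (σ ++ τ) (tgt g) := ⟨g, List.mem_append.2 (Or.inr h22), rfl⟩
          have h34 := hr.cln t y (tgt g) (by omega) h19 h20 h33 (by omega) (by omega)
          rw [h32]
          exact h34.own h28 i j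
    · rw [hG.ps_uniq hlv h11 h10 h14.symm]
      exact Lv.refl x
  · have h12 : tl ≤ t := by
      by_contra h13
      have := hG.ule (show t + 1 ≤ tl by omega)
      omega
    obtain ⟨y', i, h13, h14, h15, h16⟩ := key t h12 (by
      have := hG.ps_le hr.lv h10
      omega)
    have h17 := hG.ps_uniq hr.lv h10 h14 (h9.trans h13.symm)
    subst h17
    exact ⟨h15, i, h16⟩
  · have h12 : Ps τ y := by
      rcases ps_append.1 h11 with h | h
      · have := hG.ps_le hrσ.lv h
        omega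
      · exact h
    obtain ⟨j, h13, h14⟩ := hG.between hτ hvτ hν hpe hb hc h12
    exact ⟨j, h13, ps_append.2 (Or.inr h14)⟩

end Pool.Agent.Lib.MP_d48993_lc.Ba.Rem
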