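import Pool.Agent.Lib.MP_d48993_lc.AE.Ind2.Jmp
import Pool.Agent.Lib.MP_d48993_lc.Search
import Pool.Agent.Lib.MP_d48993_lc.Red

/-!
# The engine of the removal processes (finding 4183)

A sequence of configurations is found by a search in `Z`; the relation between a configuration and
the next one and the graph of the output are `Σ⁰₁` in `Z`; the outputs grow. Then `Z` computes a
path.
-/

set_option autoImplicit false

namespace Pool.Agent.Lib.MP_d48993_lc.Ba.Rem

open MP_8c048d_lc (pre join RecF Cop length_pre pre_take pre_getElem?)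
open Ind2
open Encodable (encode)
open Denumerable (ofNat)

/-! ## Relations which are `Σ⁰₁` in a fixed real, functions with such a graph -/

section calculus

variable {α β γ : Type} [Primcodable α] [Primcodable β] [Primcodable γ] {Z : ℕ → ℕ}

theorem sgCongr {P Q : α → Prop} (h : Sg Z P) (e : ∀ a, P a ↔ Q a) : Sg Z Q := by
  have : P = Q := by funext a; exact propext (e a)
  rw [← this]; exact h

theorem sgCp {P : α → Prop} (h : ComputablePred P) : Sg Z P :=
  Sg.ofS1 (S1.ofCop (Cop.of_computable h)) Z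

theorem sgComp {P : β → Prop} (h : Sg Z P) {f : α → β} (hf : Computable f) :
    Sg Z (fun a => P (f a)) := by
  obtain ⟨Q, hQ, e⟩ := h
  exact ⟨fun a F => Q (f a) F, hQ.comp hf, fun a => e _⟩

theorem sgAnd {P Q : α → Prop} (h : Sg Z P) (h' : Sg Z Q) : Sg Z (fun a => P a ∧ Q a) := by
  obtain ⟨R, hR, e⟩ := h
  obtain ⟨R', hR', e'⟩ := h'
  exact ⟨fun a F => R a F ∧ R' a F, hR.and hR', fun a => and_congr (e a) (e' a)⟩

theorem sgOr {P Q : α → Prop} (h : Sg Z P) (h' : Sg Z Q) : Sg Z (fun a => P a ∨ Q a) := by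
  obtain ⟨R, hR, e⟩ := h
  obtain ⟨R', hR', e'⟩ := h'
  exact ⟨fun a F => R a F ∨ R' a F, hR.or hR', fun a => or_congr (e a) (e' a)⟩

theorem sgEx {P : α → β → Prop} (h : Sg Z (fun p : α × β => P p.1 p.2)) :
    Sg Z (fun a => ∃ b, P a b) := by
  obtain ⟨R, hR, e⟩ := h
  refine ⟨fun a F => ∃ b, R (a, b) F, S1.ex (P := fun a b F => R (a, b) F) hR, fun a => ?_⟩
  exact exists_congr fun b => e (a, b)

theorem sgConst (p : Prop) : Sg Z (fun _ : α => p) := by
  by_cases hp : p
  · exact sgCongr (sgCp (P := fun _ : α => True) (MP_8c048d_lc.e3_cp_iff.2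
      ⟨fun _ => true, Computable.const true, fun _ => by simp⟩)) fun _ => by simp [hp]
  · exact sgCongr (sgCp (P := fun _ : α => False) (MP_8c048d_lc.e3_cp_iff.2
      ⟨fun _ => false, Computable.const false, fun _ => by simp⟩)) fun _ => by simp [hp]

/-- Finitely many conditions. -/
theorem sgAllLt {P : ℕ → α → Prop} (n : ℕ) (h : ∀ l < n, Sg Z (P l)) :
    Sg Z (fun a => ∀ l < n, P l a) := by
  induction n with
  | zero => exact sgCongr (sgConst True) fun a => by simp
  | succ n ih =>
    refine sgCongr (sgAnd (ih fun l hl => h l (Nat.lt_succ_of_lt hl)) (h n (Nat.lt_succ_self n)))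
      fun a => ?_
    constructor
    · rintro ⟨h1, h2⟩ l hl
      rcases Nat.lt_succ_iff_lt_or_eq.1 hl with h3 | rfl
      · exact h1 l h3
      · exact h2
    · exact fun h1 => ⟨fun l hl => h1 l (Nat.lt_succ_of_lt hl), h1 n (Nat.lt_succ_self n)⟩

/-- Functions with a `Σ⁰₁` graph. -/
def SgF (Z : ℕ → ℕ) (f : α → β) : Prop := Sg Z (fun p : α × β => f p.1 = p.2)

theorem SgF.ofC {f : α → β} (hf : Computable f) : SgF Z f := by
  classical
  exact sgCp (MP_8c048d_lc.e3_cp_eq (hf.comp Computable.fst) Computable.snd)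

theorem SgF.congr {f g : α → β} (h : SgF Z f) (e : ∀ a, f a = g a) : SgF Z g := by
  have : f = g := funext e
  rw [← this]; exact h

theorem SgF.comp₁ {f : β → γ} (h : SgF Z f) {g : α → β} (hg : Computable g) :
    SgF Z (fun a => f (g a)) :=
  sgComp h (f := fun p : α × γ => (g p.1, p.2)) ((hg.comp Computable.fst).pair Computable.snd)

/-- Substitution. -/
theorem sgSubst {P : β → Prop} (h : Sg Z P) {f : α → β} (hf : SgF Z f) :
    Sg Z (fun a => P (f a)) := by
  refine sgCongr (sgEx (P := fun (a : α) (b : β) => f a = b ∧ P b) (sgAnd ?_ ?_)) fun a => ?_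
  · exact hf
  · exact sgComp h Computable.snd
  · constructor
    · rintro ⟨b, rfl, h1⟩; exact h1
    · exact fun h1 => ⟨_, rfl, h1⟩

theorem SgF.pair {f : α → β} {g : α → γ} (hf : SgF Z f) (hg : SgF Z g) :
    SgF Z (fun a => (f a, g a)) := by
  refine sgCongr (sgAnd (sgComp hf (f := fun p : α × β × γ => (p.1, p.2.1)) ?_)
    (sgComp hg (f := fun p : α × β × γ => (p.1, p.2.2)) ?_)) fun p => ?_
  · exact Computable.fst.pair (Computable.fst.comp Computable.snd)
  · exact Computable.fst.pair (Computable.snd.comp Computable.snd)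
  · exact Prod.mk_inj.symm

theorem SgF.bind {f : β → γ} (h : SgF Z f) {g : α → β} (hg : SgF Z g) :
    SgF Z (fun a => f (g a)) := by
  have h1 : SgF Z (fun p : α × γ => (g p.1, p.2)) :=
    (hg.comp₁ Computable.fst).pair (SgF.ofC Computable.snd)
  exact sgSubst (P := fun p : β × γ => f p.1 = p.2) h h1

theorem SgF.comp {f : α → β} (h : SgF Z f) {g : β → γ} (hg : Computable g) :
    SgF Z (fun a => g (f a)) := (SgF.ofC hg).bind h

theorem SgF.eq {f g : α → β} (hf : SgF Z f) (hg : SgF Z g) : Sg Z (fun a => f a = g a) := by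
  have h1 : SgF Z (fun a => (a, g a)) := (SgF.ofC Computable.id).pair hg
  exact sgSubst (P := fun p : α × β => f p.1 = p.2) hf h1

theorem sgIte {c : α → Prop} [DecidablePred c] (hc : ComputablePred c) {f g : α → β} (hf : SgF Z f)
    (hg : SgF Z g) : SgF Z (fun a => if c a then f a else g a) := by
  have hc' : ComputablePred (fun a => ¬ c a) := hc.not
  refine sgCongr (sgOr (sgAnd (sgComp (sgCp (Z := Z) hc) (f := fun p : α × β => p.1)
    Computable.fst) hf) (sgAnd (sgComp (sgCp (Z := Z) hc') (f := fun p : α × β => p.1)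
    Computable.fst) hg)) fun p => ?_
  by_cases h : c p.1 <;> simp [h]

/-- A real below `Z`. -/
theorem SgF.real {V : ℕ → ℕ} (h : Red V Z) : SgF Z V := by
  refine Sg.red h (Sg.ofS1 (P := fun (p : ℕ × ℕ) F => F p.1 = p.2) ?_ V)
  exact S1.ofCop (Cop.app_eq Computable.fst Computable.snd)

theorem SgF.pre {V : ℕ → ℕ} (h : Red V Z) : SgF Z (fun k => pre V k) := by
  refine Sg.red h (Sg.ofS1 (P := fun (p : ℕ × List ℕ) F => MP_8c048d_lc.pre F p.1 = p.2) ?_ V)
  exact S1.ofCop (Cop.of_recF (φ := fun (p : ℕ × List ℕ) F => (MP_8c048d_lc.pre F p.1, p.2))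
    ((RecF.pre.comp₁ Computable.fst).pair (RecF.of_computable Computable.snd))
    (p := fun x : List ℕ × List ℕ => x.1 = x.2) (MP_8c048d_lc.e3_cp_eq Computable.fst
      Computable.snd))

/-- Finite lists of functions. -/
theorem SgF.range {f : ℕ → α → β} (n : ℕ) (h : ∀ l < n, SgF Z (f l)) :
    SgF Z (fun a => (List.range n).map fun l => f l a) := by
  induction n with
  | zero => exact (SgF.ofC (Computable.const [])).congr fun a => by simp
  | succ n ih =>
    have h1 := ((ih fun l hl => h l (Nat.lt_succ_of_lt hl)).pair (h n (Nat.lt_succ_self n))).comp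
      (g := fun p : List β × β => p.1 ++ [p.2]) (Computable.list_concat.comp Computable.fst
        Computable.snd)
    refine h1.congr fun a => ?_
    rw [List.range_succ, List.map_append]
    rfl

end calculus

/-- A search with growing outputs gives a path. -/
theorem path_of_search {α : Type} [Primcodable α] {Z : ℕ → ℕ} {Nx : α → α → Prop}
    (hN : Sg Z (fun p : α × α => Nx p.1 p.2)) {out : α → List ℕ}
    (hout : Sg Z (fun p : α × List ℕ => out p.1 = p.2)) {U : List ℕ → Prop}
    (hU : ∀ σ τ : List ℕ, σ <+: τ → U τ → U σ) (I : α → Prop) {a0 : α} (h0 : I a0)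
    (hI : ∀ a, I a → U (out a)) (hex : ∀ a, I a → ∃ a', Nx a a')
    (hst : ∀ a a', I a → Nx a a' → I a' ∧ out a <+: out a' ∧ (out a).length < (out a').length) :
    ∃ f : ℕ → ℕ, Red f Z ∧ ∀ k, U (pre f k) := by
  obtain ⟨Q1, ⟨d1, hd1, e1⟩, f1⟩ := hN
  obtain ⟨Q2, ⟨d2, hd2, e2⟩, f2⟩ := hout
  have g1 : ∀ a a', Nx a a' ↔ ∃ m, d1 ((a, a'), m) Z = true := fun a a' => (f1 (a, a')).trans (e1 _ _)
  have g2 : ∀ a τ, out a = τ ↔ ∃ m, d2 ((a, τ), m) Z = true := fun a τ => (f2 (a, τ)).trans (e2 _ _)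
  let R : α × List ℕ × ℕ → α × List ℕ × ℕ → (ℕ → ℕ) → Prop := fun b b' F =>
    d1 ((b.1, b'.1), b'.2.2.unpair.1) F = true ∧ d2 ((b'.1, b'.2.1), b'.2.2.unpair.2) F = true
  have hR : Cop (fun (p : (α × List ℕ × ℕ) × (α × List ℕ × ℕ)) F => R p.1 p.2 F) := by
    refine Cop.and ?_ ?_
    · refine ⟨fun p F => d1 ((p.1.1, p.2.1), p.2.2.2.unpair.1) F, ?_, fun _ _ => Iff.rfl⟩
      refine hd1.comp₁ (f := fun p : (α × List ℕ × ℕ) × (α × List ℕ × ℕ) =>
        ((p.1.1, p.2.1), p.2.2.2.unpair.1)) ?_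
      exact ((Computable.fst.comp Computable.fst).pair (Computable.fst.comp Computable.snd)).pair
        ((Computable.fst.comp Primrec.unpair.to_comp).comp
          (Computable.snd.comp (Computable.snd.comp Computable.snd)))
    · refine ⟨fun p F => d2 ((p.2.1, p.2.2.1), p.2.2.2.unpair.2) F, ?_, fun _ _ => Iff.rfl⟩
      refine hd2.comp₁ (f := fun p : (α × List ℕ × ℕ) × (α × List ℕ × ℕ) =>
        ((p.2.1, p.2.2.1), p.2.2.2.unpair.2)) ?_
      exact ((Computable.fst.comp Computable.snd).pair (Computable.fst.comp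
        (Computable.snd.comp Computable.snd))).pair
        ((Computable.snd.comp Primrec.unpair.to_comp).comp
          (Computable.snd.comp (Computable.snd.comp Computable.snd)))
  obtain ⟨A, hA0, hA, hred⟩ := search red1 redMu (α × List ℕ × ℕ) R hR Z (fun b => I b.1)
    (a0, [], 0) h0
    (fun b hb => by
      obtain ⟨a', ha'⟩ := hex b.1 hb
      obtain ⟨m, hm⟩ := (g1 _ _).1 ha'
      obtain ⟨n, hn⟩ := (g2 a' (out a')).1 rfl
      refine ⟨(a', out a', Nat.pair m n), ?_, ?_⟩
      · show d1 ((b.1, a'), (Nat.pair m n).unpair.1) Z = true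
        rw [Nat.unpair_pair]; exact hm
      · show d2 ((a', out a'), (Nat.pair m n).unpair.2) Z = true
        rw [Nat.unpair_pair]; exact hn)
    (fun b b' hb h => (hst b.1 b'.1 hb ((g1 _ _).2 ⟨_, h.1⟩)).1)
  have hNx : ∀ n, Nx (A n).1 (A (n + 1)).1 := fun n => (g1 _ _).2 ⟨_, (hA n).1⟩
  have hIA : ∀ n, I (A n).1 := by
    intro n
    induction n with
    | zero => rw [hA0]; exact h0
    | succ n ih => exact (hst _ _ ih (hNx n)).1
  have hmono : ∀ n m, n ≤ m → out (A n).1 <+: out (A m).1 := by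
    intro n m hnm
    induction m, hnm using Nat.le_induction with
    | base => exact List.prefix_rfl
    | succ m _ ih => exact ih.trans (hst _ _ (hIA m) (hNx m)).2.1
  have hlen : ∀ n, n ≤ (out (A n).1).length := by
    intro n
    induction n with
    | zero => exact Nat.zero_le _
    | succ n ih => exact lt_of_le_of_lt ih (hst _ _ (hIA n) (hNx n)).2.2
  have hval : ∀ n, (A (n + 1)).2.1 = out (A (n + 1)).1 := fun n =>
    ((g2 _ _).2 ⟨_, (hA n).2⟩).symm
  have hrec : RecF (fun (q : ℕ × (α × List ℕ × ℕ)) (_ : ℕ → ℕ) => (q.2.2.1[q.1]?).getD 0) := by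
    refine RecF.of_computable ?_
    exact Computable.option_getD (Computable.list_getElem?.comp (Computable.fst.comp
      (Computable.snd.comp Computable.snd)) Computable.fst) (Computable.const 0)
  refine ⟨fun j => (((A (j + 1)).2.1)[j]?).getD 0, hred _ hrec, fun k => ?_⟩
  have heq : pre (fun j => (((A (j + 1)).2.1)[j]?).getD 0) k = (out (A k).1).take k := by
    refine List.ext_getElem? fun i => ?_
    rw [pre_getElem?]
    split_ifs with hi
    · rw [List.getElem?_take, if_pos hi, hval]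
      have h1 : i < (out (A (i + 1)).1).length := lt_of_lt_of_le (Nat.lt_succ_self i) (hlen (i + 1))
      obtain ⟨l, hl⟩ := hmono (i + 1) k hi
      rw [← hl, List.getElem?_append_left h1, List.getElem?_eq_getElem h1]
      rfl
    · rw [List.getElem?_take, if_neg hi]
  rw [heq]
  exact hU _ _ (List.take_prefix _ _) (hI _ (hIA k))

end Pool.Agent.Lib.MP_d48993_lc.Ba.Rem
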