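import Pool.Agent.Lib.MP_d48993_lc.BAE.Rem.Bet

/-!
# Part R: FANC (finding 4183, (R1.3))

A driver which is at `Z t0` can accompany every coned extension.
-/

set_option autoImplicit false

namespace Pool.Agent.Lib.MP_d48993_lc.Ba.Rem

open Node
open Node.Proc (endd_append endd_snoc ch_end ch_append ch_pfx)

variable {V : ℕ → Prop} {u blk : ℕ → ℕ} {TB : ℕ → List ℕ → Prop}

/-- The piece of a string between two passed states. -/
theorem Gr.piece (hG : Gr V u blk) {σ : List ℕ} (h : LV V σ) {x y : St} (hx : Ps σ x)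
    (hy : Ps σ y) (hr : x.1 < y.1) : ∃ β, Ch x β y ∧ (∀ s ∈ β, V s) ∧
      (∀ s ∈ σ, x.1 ≤ (src s).1 → (tgt s).1 ≤ y.1 → s ∈ β) ∧ ∀ s ∈ β, s ∈ σ := by
  obtain ⟨sx, h1, h2⟩ := hx
  obtain ⟨α, γ, rfl, hne, h3, h4⟩ := ch_cut h.1 h1
  rw [h2] at h3 h4
  have hvα : ∀ s ∈ α, V s := fun s hs => h.2 s (List.mem_append.2 (Or.inl hs))
  have hvγ : ∀ s ∈ γ, V s := fun s hs => h.2 s (List.mem_append.2 (Or.inr hs))
  have h5 := ch_root hG.inc h3 hvα
  obtain ⟨sy, h6, h7⟩ := hy
  have h8 : sy ∈ γ := by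
    rcases List.mem_append.1 h6 with h | h
    · have := (h5.2.2 sy h).1
      rw [h7] at this
      omega
    · exact h
  obtain ⟨β, δ, rfl, hne', h9, h10⟩ := ch_cut h4 h8
  rw [h7] at h9 h10
  have hvβ : ∀ s ∈ β, V s := fun s hs => hvγ s (List.mem_append.2 (Or.inl hs))
  have hvδ : ∀ s ∈ δ, V s := fun s hs => hvγ s (List.mem_append.2 (Or.inr hs))
  refine ⟨β, h9, hvβ, fun s hs h11 h12 => ?_, fun s hs => List.mem_append.2 (Or.inr
    (List.mem_append.2 (Or.inl hs)))⟩
  have h13 := hG.inc s (h.2 s hs)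
  rcases List.mem_append.1 hs with h14 | h14
  · have := (h5.2.2 s h14).1
    omega
  · rcases List.mem_append.1 h14 with h15 | h15
    · exact h15
    · have := ((ch_root hG.inc h10 hvδ).2.2 s h15).2
      omega

/-- The list of the pieces. -/
theorem exists_pieces {α : Type} (L : List α) (P : α → ℕ → List ℕ → Prop)
    (h : ∀ a ∈ L, ∃ i β, P a i β) : ∃ E : List (ℕ × List ℕ), E.Nodup ∧
      (∀ a ∈ L, ∃ i β, P a i β ∧ (i, β) ∈ E) ∧ ∀ p ∈ E, ∃ a ∈ L, P a p.1 p.2 := by
  classical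
  have key : ∃ E : List (ℕ × List ℕ), (∀ a ∈ L, ∃ i β, P a i β ∧ (i, β) ∈ E) ∧
      ∀ p ∈ E, ∃ a ∈ L, P a p.1 p.2 := by
    induction L with
    | nil => exact ⟨[], fun a ha => absurd ha List.not_mem_nil,
        fun p hp => absurd hp List.not_mem_nil⟩
    | cons a L ih =>
      obtain ⟨E, h1, h2⟩ := ih fun b hb => h b (List.mem_cons_of_mem _ hb)
      obtain ⟨i, β, h3⟩ := h a List.mem_cons_self
      refine ⟨(i, β) :: E, fun b hb => ?_, fun p hp => ?_⟩
      · rcases List.mem_cons.1 hb with rfl | hb'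
        · exact ⟨i, β, h3, List.mem_cons_self⟩
        · obtain ⟨j, γ, h4, h5⟩ := h1 b hb'
          exact ⟨j, γ, h4, List.mem_cons_of_mem _ h5⟩
      · rcases List.mem_cons.1 hp with rfl | hp'
        · exact ⟨a, List.mem_cons_self, h3⟩
        · obtain ⟨b, h4, h5⟩ := h2 p hp'
          exact ⟨b, List.mem_cons_of_mem _ h4, h5⟩
  obtain ⟨E, h1, h2⟩ := key
  exact ⟨E.dedup, E.nodup_dedup, fun a ha => by
    obtain ⟨i, β, h3, h4⟩ := h1 a ha
    exact ⟨i, β, h3, List.mem_dedup.2 h4⟩, fun p hp => h2 p (List.mem_dedup.1 hp)⟩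

theorem parts_sym (x t : St) (A : List (List ℕ)) (E : List (ℕ × List ℕ)) :
    parts (sym x t A E) = (x, t, A, E) := by
  unfold parts sym
  rw [Encodable.encodek]
  rfl

theorem src_sym (x t : St) (A : List (List ℕ)) (E : List (ℕ × List ℕ)) :
    src (sym x t A E) = x := by
  unfold src
  rw [parts_sym]

theorem tgt_sym (x t : St) (A : List (List ℕ)) (E : List (ℕ × List ℕ)) :
    tgt (sym x t A E) = t := by
  unfold tgt
  rw [parts_sym]

theorem ex_sym (x t : St) (A : List (List ℕ)) (E : List (ℕ × List ℕ)) :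
    Ex (sym x t A E) = E := by
  unfold Ex
  rw [parts_sym]

theorem adm_of_own {x : St} {i : ℕ} (h : Adm (ow x i)) : Adm x ∧ i < sz x.1 := by
  refine ⟨⟨?_, fun b hb => ?_⟩, ?_⟩
  · have h1 := h.1
    rw [ow_len] at h1
    have : (ow x i).1 = x.1 := rfl
    rw [this] at h1
    omega
  · exact h.2 b (by simp [ow, hb])
  · exact h.2 i (by simp [ow])

/-- FANC. -/
theorem Gr.fanc (hG : Gr V u blk) {N : ℕ} {σ : List ℕ} {T : List ℕ → Prop} {Z : ℕ → St}
    {t0 t1 : ℕ} {c1 c2 : Cnd3} (hr : Reg V u blk TB N σ) (hN : N ≤ t0) (h0 : endd o σ = Z t0)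
    (hc : Con u blk TB T Z t0 t1 c1 c2) (hv' : ∀ e ∈ c2.2, Reg V u blk TB N e.2.2)
    (hne : ∃ e, e ∈ c2.2) :
    ∃ τ, Reg V u blk TB N (σ ++ τ) ∧ endd o (σ ++ τ) = Z t1 ∧ ∀ e' ∈ c2.2, ∃ e ∈ c1.2,
      e.2.2 <+: e'.2.2 ∧ Cert τ (e'.2.2.drop e.2.2.length) := by
  have hv : ∀ e ∈ c2.2, LV V e.2.2 := fun e he => (hv' e he).lv
  have hZ0 := hc.rt t0 le_rfl hc.le
  have hu0 := hG.upos t0
  have hps : Ps σ (Z t0) := by
    rw [← h0]; exact ps_endd (by rw [h0, hZ0]; exact hu0)
  -- all stems pass own states of all `Z t`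
  have hway : ∀ e' ∈ c2.2, ∀ t, t0 ≤ t → t ≤ t1 → ∃ i, Ps e'.2.2 (ow (Z t) i) := by
    intro e' he' t h1 h2
    rcases Nat.lt_or_eq_of_le h1 with h3 | h3
    · obtain ⟨i, -, h4⟩ := hc.way e' he' t h3 h2
      exact ⟨i, h4⟩
    · subst h3
      obtain ⟨e, he, h4⟩ := hc.up e' he'
      obtain ⟨i, -, h5⟩ := hc.atz.en e he
      refine ⟨i, ps_mono h4 ?_⟩
      rw [← h5]
      refine ps_endd ?_
      rw [h5, ow_root, hZ0]
      exact hu0
  have key : ∀ t, t0 ≤ t → t ≤ t1 → ∃ τ, Ch (Z t0) τ (Z t) ∧ (∀ g ∈ τ, V g) ∧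
      (∀ g ∈ τ, ∃ t', t0 < t' ∧ t' ≤ t ∧ tgt g = Z t') ∧
      (∀ t', t0 < t' → t' ≤ t → Ps τ (Z t')) ∧
      ∀ e' ∈ c2.2, ∀ s ∈ e'.2.2, u t0 ≤ (src s).1 → (tgt s).1 ≤ u t →
        ∃ g ∈ τ, ∃ q ∈ Ex g, s ∈ q.2 ∧ Clc g q.2 := by
    intro t
    induction t with
    | zero =>
      intro h1 h2
      have h3 : t0 = 0 := by omega
      subst h3
      refine ⟨[], rfl, fun g hg => absurd hg List.not_mem_nil,
        fun g hg => absurd hg List.not_mem_nil, fun t' h3 h4 => by omega,
        fun e' he' s hs h3 h4 => ?_⟩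
      have := hG.inc s ((hv e' he').2 s hs)
      omega
    | succ t ih =>
      intro h1 h2
      rcases Nat.lt_or_eq_of_le h1 with h3 | h3
      · obtain ⟨τ, a1, a2, a3, a4, a5⟩ := ih (by omega) (by omega)
        have hlk := hc.lk t (by omega) (by omega)
        have hrt := hc.rt t (by omega) (by omega)
        have hrt' := hc.rt (t + 1) (by omega) (by omega)
        have hlt := hG.umono t
        -- `Z t`, `Z (t + 1)` are admissible
        obtain ⟨e0, he0⟩ := hne
        obtain ⟨i, hi⟩ := hway e0 he0 t (by omega) (by omega)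
        obtain ⟨j, hj⟩ := hway e0 he0 (t + 1) (by omega) (by omega)
        have hA := (adm_of_own (hG.adm_ps (hv e0 he0) hi)).1
        have hA' := (adm_of_own (hG.adm_ps (hv e0 he0) hj)).1
        obtain ⟨g, b1, b2, b3, b4⟩ := hG.can (Z t) (Z (t + 1)) (t + 1) hA (Or.inl ⟨t, hrt⟩)
          (by omega) hA' hrt' (by have := hlk.ly; omega)
        -- the pieces
        obtain ⟨E, e1, e2, e3⟩ := exists_pieces c2.2 (fun e' i β => i < sz (Z t).1 ∧
          (∀ s ∈ β, V s) ∧ (∃ j < sz (Z (t + 1)).1, Ch (ow (Z t) i) β (ow (Z (t + 1)) j)) ∧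
          (∀ s ∈ e'.2.2, (Z t).1 ≤ (src s).1 → (tgt s).1 ≤ (Z (t + 1)).1 → s ∈ β) ∧
          ∀ s ∈ β, (tgt s).1 < (Z (t + 1)).1 → Lv (src (β.headD 0)) (tgt s)) (by
            intro e' he'
            obtain ⟨i, hi⟩ := hway e' he' t (by omega) (by omega)
            obtain ⟨j, hj⟩ := hway e' he' (t + 1) (by omega) (by omega)
            obtain ⟨β, c1, c2, c3, c4⟩ := hG.piece (hv e' he') hi hj (by
              rw [ow_root, ow_root]; omega)
            refine ⟨i, β, (adm_of_own (hG.adm_ps (hv e' he') hi)).2, c2,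
              ⟨j, (adm_of_own (hG.adm_ps (hv e' he') hj)).2, c1⟩, c3, fun s hs h4 => ?_⟩
            rw [ch_head c1 hs]
            have h5 := ((ch_root hG.inc c1 c2).2.2 s hs).2
            have h6 := hG.inc s (c2 s hs)
            exact (hv' e' he').cln t _ (tgt s) (by omega) (by rw [ow_root]; exact hrt) hi
              ⟨s, c4 s hs, rfl⟩ (by omega) (by omega))
        have hrk : 0 < rk (src g) := by
          rw [b2]
          have h4 := hG.big t
          have h5 := hlk.lx
          have h6 : rk (Z t) = sz (Z t).1 - (Z t).2.length := rfl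
          rw [h6, hrt]
          omega
        have hgv := hG.ext g b1 hrk E e1 (by
          intro p hp
          obtain ⟨e', -, f1, f2, f3, -, -⟩ := e3 p hp
          rw [b2, b3]
          exact ⟨f1, f2, f3⟩)
        rw [b2, b3] at hgv
        set g' := sym (Z t) (Z (t + 1)) (Ap g) E with hg'
        have hs' : src g' = Z t := src_sym _ _ _ _
        have ht' : tgt g' = Z (t + 1) := tgt_sym _ _ _ _
        have hE' : Ex g' = E := ex_sym _ _ _ _
        refine ⟨τ ++ [g'], ?_, ?_, ?_, ?_, ?_⟩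
        · refine ch_append.2 ⟨?_, ?_⟩
          · rw [← ch_end a1]; exact a1
          · rw [← ch_end a1]; exact ⟨hs', ht'⟩
        · intro s hs
          rcases List.mem_append.1 hs with h | h
          · exact a2 s h
          · rw [List.mem_singleton.1 h]; exact hgv
        · intro s hs
          rcases List.mem_append.1 hs with h | h
          · obtain ⟨t', h5, h6, h7⟩ := a3 s h
            exact ⟨t', h5, by omega, h7⟩
          · rw [List.mem_singleton.1 h]
            exact ⟨t + 1, by omega, le_rfl, ht'⟩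
        · intro t' h5 h6
          rcases Nat.lt_or_eq_of_le h6 with h7 | h7
          · exact ps_append.2 (Or.inl (a4 t' h5 (by omega)))
          · subst h7
            exact ps_append.2 (Or.inr ⟨g', List.mem_singleton_self _, ht'⟩)
        · intro e' he' s hs h5 h6
          by_cases h7 : (tgt s).1 ≤ u t
          · obtain ⟨g1, h8, h9⟩ := a5 e' he' s hs h5 h7
            exact ⟨g1, List.mem_append.2 (Or.inl h8), h9⟩
          · refine ⟨g', List.mem_append.2 (Or.inr (List.mem_singleton_self _)), ?_⟩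
            rw [hE']
            obtain ⟨i, β, ⟨-, -, -, f4, f6⟩, f5⟩ := e2 e' he'
            refine ⟨(i, β), f5, f4 s hs ?_ (by rw [hrt']; exact h6), fun s' hs' h9 => ?_⟩
            swap
            · rw [ht'] at h9
              exact f6 s' hs' h9
            -- the state at the root `u t` is passed, so the source is not below it
            rw [hrt]
            by_contra h8
            obtain ⟨i', hi'⟩ := hway e' he' t (by omega) (by omega)
            obtain ⟨s1, h9, h10⟩ := hi'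
            have h11 := ch_two hG.inc (hv e' he').1 (hv e' he').2 hs h9 (by
              rw [h10, ow_root, hrt]; omega)
            rw [h10, ow_root, hrt] at h11
            omega
      · subst h3
        refine ⟨[], rfl, fun g hg => absurd hg List.not_mem_nil,
          fun g hg => absurd hg List.not_mem_nil, fun t' h3 h4 => by omega,
          fun e' he' s hs h3 h4 => ?_⟩
        have := hG.inc s ((hv e' he').2 s hs)
        omega
  obtain ⟨τ, a1, a2, a3, a4, a5⟩ := key t1 hc.le le_rfl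
  have hend : endd o (σ ++ τ) = Z t1 := by
    rw [endd_append, h0]; exact (ch_end a1).symm
  have hlv : LV V (σ ++ τ) := by
    refine ⟨?_, fun s hs => ?_⟩
    · rw [hend]
      exact ch_append.2 ⟨hr.lv.1, by rw [h0]; exact a1⟩
    · rcases List.mem_append.1 hs with h | h
      · exact hr.lv.2 s h
      · exact a2 s h
  have hZ1 := hc.rt t1 hc.le le_rfl
  -- states at late public roots
  have hst : ∀ t x, t0 ≤ t → x.1 = u t → Ps (σ ++ τ) x → t ≤ t1 ∧ x = Z t := by
    intro t x h1 h2 h3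
    have h4 := hG.ps_le hlv h3
    rw [hend, hZ1, h2] at h4
    have h5 : t ≤ t1 := by
      by_contra h6
      have := hG.ulm (show t1 < t by omega)
      omega
    refine ⟨h5, ?_⟩
    rcases Nat.lt_or_eq_of_le h1 with h6 | h6
    · exact hG.ps_uniq hlv h3 (ps_append.2 (Or.inr (a4 t h6 h5)))
        (h2.trans (hc.rt t h1 h5).symm)
    · subst h6
      exact hG.ps_uniq hlv h3 (ps_append.2 (Or.inl hps)) (h2.trans hZ0.symm)
  refine ⟨τ, ⟨hlv, fun t h1 h2 => ?_, fun t x h1 h2 h3 => ?_, fun t x y h1 h2 h3 h4 h5 => ?_,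
    fun t x v h1 h2 h3 h4 h5 h6 => ?_⟩, hend, fun e' he' => ?_⟩
  · by_cases h3 : t ≤ t0
    · obtain ⟨x, h4, h5⟩ := hr.pass t h1 (by rw [h0, hZ0]; exact hG.ule h3)
      exact ⟨x, h4, ps_append.2 (Or.inl h5)⟩
    · rw [hend, hZ1] at h2
      have h4 : t ≤ t1 := by
        by_contra h6
        have := hG.ulm (show t1 < t by omega)
        omega
      exact ⟨Z t, hc.rt t (by omega) h4, ps_append.2 (Or.inr (a4 t (by omega) h4))⟩
  · by_cases h4 : t ≤ t0
    · exact hr.dep t x h1 h2 (hG.ps_back hlv h3 (by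
        rw [h0, hZ0, h2]; exact hG.ule h4))
    · obtain ⟨h5, rfl⟩ := hst t x (by omega) h2 h3
      have h6 := hc.lk (t - 1) (by omega) (by omega)
      have h7 := h6.ly
      have h8 := h6.ly0
      rw [Nat.sub_add_cancel (by omega)] at h7 h8
      exact ⟨h8, h7⟩
  · by_cases h6 : t + 1 ≤ t0
    · exact hr.link t x y h1 h2 h3 (hG.ps_back hlv h4 (by
        rw [h0, hZ0, h2]; exact hG.ule (by omega))) (hG.ps_back hlv h5 (by
        rw [h0, hZ0, h3]; exact hG.ule h6))
    · obtain ⟨h7, rfl⟩ := hst t x (by omega) h2 h4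
      obtain ⟨h8, rfl⟩ := hst (t + 1) y (by omega) h3 h5
      exact hc.lk t (by omega) (by omega)
  · by_cases h7 : t + 1 ≤ t0
    · have h8 := hG.ule h7
      exact hr.cln t x v h1 h2 (hG.ps_back hlv h3 (by rw [h0, hZ0]; omega))
        (hG.ps_back hlv h4 (by rw [h0, hZ0]; omega)) h5 h6
    · have h8 : v.1 = u t := by
        rcases ps_append.1 h4 with h9 | ⟨g, h9, rfl⟩
        · have h10 := hG.ps_le hr.lv h9
          rw [h0, hZ0] at h10
          have h11 := hG.ule (show t0 ≤ t by omega)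
          omega
        · obtain ⟨t', h10, h11, h12⟩ := a3 g h9
          rw [h12, hc.rt t' (by omega) h11] at h5 h6 ⊢
          rw [h2] at h5
          have h13 := hG.ult h6
          by_contra h14
          have := hG.ulm (show t' < t by
            rcases Nat.lt_trichotomy t' t with h | h | h
            · exact h
            · rw [h] at h14; exact (h14 rfl).elim
            · omega)
          omega
      rw [hG.ps_uniq hlv h4 h3 (h8.trans h2.symm)]
      exact Lv.refl x
  · obtain ⟨e, he, h1⟩ := hc.up e' he'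
    refine ⟨e, he, h1, fun s hs => ?_⟩
    obtain ⟨ρ, hρ⟩ := h1
    have h2 : e'.2.2.drop e.2.2.length = ρ := by
      rw [← hρ, List.drop_left]
    rw [h2] at hs
    have h3 := (hv e' he').1
    rw [← hρ, endd_append] at h3
    have h4 := (ch_append.1 h3).2
    obtain ⟨i, -, h5⟩ := hc.atz.en e he
    obtain ⟨j, -, h6⟩ := hc.atz'.en e' he'
    have hvρ : ∀ s ∈ ρ, V s := fun s hs => (hv e' he').2 s (by
      rw [← hρ]; exact List.mem_append.2 (Or.inr hs))
    have h7 := (ch_root hG.inc h4 hvρ).2.2 s hs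
    rw [h5, ← h5, ← endd_append, hρ, h6, h5, ow_root, ow_root, hZ0, hZ1] at h7
    have hmem : s ∈ e'.2.2 := by rw [← hρ]; exact List.mem_append.2 (Or.inr hs)
    obtain ⟨g, h8, q, h9, h10, h11⟩ := a5 e' he' s hmem h7.2 h7.1
    refine ⟨⟨g, h8, Or.inr ⟨q, h9, h10, h11⟩⟩, fun g' h12 h13 => ?_⟩
    obtain ⟨t', h14, h15, h16⟩ := a3 g' h12
    obtain ⟨i', h17, h18⟩ := hc.way e' he' t' h14 h15
    rw [h16] at h13
    have h19 := hG.ps_uniq (hv e' he') (x := ow (Z t') i') (y := ow (Z t') 0) h18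
      ⟨s, hmem, h13⟩ rfl
    have := ow_inj h19
    omega

end Pool.Agent.Lib.MP_d48993_lc.Ba.Rem
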