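import Pool.Agent.Lib.MP_d48993_lc.BAE.Rem.FinI
import Pool.Agent.Lib.MP_d48993_lc.Tec

/-!
# Part R, final form (finding 4183, R4): removal of a known point and of a known share
-/

set_option autoImplicit false

open Pool.Agent.Lib.MP_d48993_lc.Ba.Gr (Par Gph Prs fj jn VL us)

namespace Pool.Agent.Lib.MP_d48993_lc.Ba.Rem

open Node
open MP_8c048d_lc (pre join RecF Cop length_pre)
open Ind2 Tup
open Txt (mR ht opn Leg kd EndsR okR_none okR_some reopen)

variable {P : Par} {G : Gph} {V O : ℕ → ℕ → ℕ} {J : ℕ → Bool} {H : ℕ}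

/-! ## The real of a pattern -/

/-- A present column is below the join. -/
theorem red_jn {F : ℕ → ℕ → ℕ} {c : ℕ} (hc : Prs P H c = true) : Red (F c) (jn P H F) := by
  have hc' : c < P.p + P.q := by
    unfold Prs at hc
    simp only [Bool.or_eq_true, decide_eq_true_eq, Bool.and_eq_true] at hc
    omega
  have h : RecF (fun (n : ℕ) (X : ℕ → ℕ) => X (c + (P.p + P.q) * n)) :=
    RecF.at (Primrec.nat_add.comp (Primrec.const c)
      (Primrec.nat_mul.comp (Primrec.const (P.p + P.q)) Primrec.id)).to_comp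
  have h1 := red1 _ h (jn P H F)
  have h2 : (fun n => jn P H F (c + (P.p + P.q) * n)) = F c := by
    funext n
    unfold jn
    have e1 : (c + (P.p + P.q) * n) % (P.p + P.q) = c := by
      rw [Nat.add_mul_mod_self_left, Nat.mod_eq_of_lt hc']
    have e2 : (c + (P.p + P.q) * n) / (P.p + P.q) = n := by
      rw [Nat.add_mul_div_left _ _ (by omega), Nat.div_eq_of_lt hc', Nat.zero_add]
    rw [e1, e2, if_pos hc]
  rw [h2] at h1
  exact h1

/-- The join is below a real which computes all present columns. -/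
theorem jn_red (hp : 0 < P.p) {F : ℕ → ℕ → ℕ} {Z : ℕ → ℕ}
    (h : ∀ c < P.p + P.q, Prs P H c = true → Red (F c) Z) : Red (jn P H F) Z := by
  have h1 : Red (Tup.tup (P.p + P.q) (fun c => if Prs P H c then F c else fun _ => 0)) Z := by
    refine tup_red fun c hc => ?_
    cases h2 : Prs P H c with
    | true => simpa using h c hc h2
    | false =>
      simp only [Bool.false_eq_true, if_false]
      exact red1 _ (RecF.of_computable (Computable.const 0)) Z
  refine Red.trans ?_ h1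
  have h3 : RecF (fun (n : ℕ) (X : ℕ → ℕ) =>
      (Denumerable.ofNat (List ℕ) (X (n / (P.p + P.q)))).getD (n % (P.p + P.q)) 0) := by
    have h4 : RecF (fun (n : ℕ) (X : ℕ → ℕ) => (X (n / (P.p + P.q)), n % (P.p + P.q))) :=
      (RecF.at (Primrec.nat_div.comp Primrec.id (Primrec.const _)).to_comp).pair
        (RecF.of_computable (Primrec.nat_mod.comp Primrec.id (Primrec.const _)).to_comp)
    refine RecF.comp (g := fun x : ℕ × ℕ => (Denumerable.ofNat (List ℕ) x.1).getD x.2 0) ?_ h4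
    exact (Primrec.list_getD 0).to_comp.comp ((Computable.ofNat (List ℕ)).comp Computable.fst)
      Computable.snd
  have h5 := red1 _ h3 (Tup.tup (P.p + P.q) (fun c => if Prs P H c then F c else fun _ => 0))
  have h6 : (fun n => (Denumerable.ofNat (List ℕ) (Tup.tup (P.p + P.q)
      (fun c => if Prs P H c then F c else fun _ => 0) (n / (P.p + P.q)))).getD
        (n % (P.p + P.q)) 0) = jn P H F := by
    funext n
    unfold Tup.tup jn
    rw [Denumerable.ofNat_encode]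
    have h7 : n % (P.p + P.q) < P.p + P.q := Nat.mod_lt _ (by omega)
    rw [getD_range_map _ _ h7]
    cases h8 : Prs P H (n % (P.p + P.q)) <;> simp [h8]
  rw [h6] at h5
  exact h5

theorem tx_lt {c : ℕ} (h : Gr.Tx P J H c = true) : c < P.p + P.q := by
  unfold Gr.Tx Prs at h
  simp only [Bool.or_eq_true, decide_eq_true_eq, Bool.and_eq_true] at h
  omega

/-- A known column is below the real of the pattern. -/
theorem red_V {c : ℕ} (h : Gr.Tx P J H c = true) : Red (V c) (XH P J H V O) := by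
  have h1 : Prs P H c = true := by
    unfold Gr.Tx at h
    rw [Bool.and_eq_true] at h
    exact h.1
  have h2 := red_jn (P := P) (H := H) (F := fun c => if Gr.Tx P J H c then V c else O c) h1
  simp only [h, if_true] at h2
  exact h2

/-- A generic colour is below the real of the pattern. -/
theorem red_O {c : ℕ} (hc : c < P.p) (h : c ∉ kn P J) : Red (O c) (XH P J H V O) := by
  have h1 : Prs P H c = true := by simp [Prs, hc]
  have h0 : Gr.Tx P J H c = false := by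
    unfold Gr.Tx
    have h3 : J c = false := by
      by_contra h4
      exact h (mem_kn.2 ⟨hc, by simpa using h4⟩)
    simp [h3, not_le.2 hc]
  have h2 := red_jn (P := P) (H := H) (F := fun c => if Gr.Tx P J H c then V c else O c) h1
  simp only [h0, Bool.false_eq_true, if_false] at h2
  exact h2

/-- The real of the pattern is below a real which computes its columns. -/
theorem xh_red (hp : 0 < P.p) {Z : ℕ → ℕ} (h : ∀ c, Gr.Tx P J H c = true → Red (V c) Z)
    (h' : ∀ c < P.p, c ∉ kn P J → Red (O c) Z) : Red (XH P J H V O) Z := by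
  refine jn_red hp fun c hc h1 => ?_
  rcases prs_cases (J := J) h1 with h2 | ⟨h2, h3, h4⟩
  · rw [if_pos h2]; exact h c h2
  · rw [h2]
    exact h' c h3 h4

theorem tx_congr {J' : ℕ → Bool} (h : ∀ c < P.p, J c = J' c) (c : ℕ) :
    Gr.Tx P J H c = Gr.Tx P J' H c := by
  unfold Gr.Tx
  by_cases hc : c < P.p
  · rw [h c hc]
  · simp [not_lt.1 hc]

theorem xh_congr {J' : ℕ → Bool} (h : ∀ c < P.p, J c = J' c) :
    XH P J H V O = XH P J' H V O := by
  unfold XH
  congr 1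
  funext c
  rw [tx_congr h c]

/-! ## Texts -/

theorem tx_txt {hd lam : ℕ} {E : List ℕ} (hE : 0 ∉ E) :
    Tx (TE P.Tr E) (Thd P hd) (Txt.Le (P.Hd hd)) mR lam where
  px _ _ _ h := h.px
  tr _ _ _ _ h h' := h.trans h'
  re w w' p q h h1 h2 h3 := by
    refine (EndsR.pay (T := P.Hd hd) (w := w ++ [mR lam p]) (w' := w') (p := p) (q := q)
      ⟨w, rfl⟩ h h1 ?_ h3).1
    exact lt_of_le_of_ne h1.length_le fun h4 => h2 (h1.eq_of_length h4)
  nf q s ρ h hT := by
    cases s with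
    | nil =>
      have h1 := Txt.kd_mR lam q
      rw [h, Txt.kd_fact (by simp)] at h1
      cases h1
    | cons e s =>
      have h0 : e ≠ 0 := fun h1 => hE (h1 ▸ hT.1)
      have h1 := Txt.kd_mR lam q
      rw [h, Txt.kd_fact (by simpa using h0)] at h1
      cases h1

theorem comp_mR (lam : ℕ) : Computable (mR lam) := by
  unfold Txt.mR Txt.mm
  refine Computable.encode.comp (Computable.pair (Computable.const _) Computable.id)

theorem cp_hd (hP : P.Ok) (hd : ℕ) : Computable (P.Hd hd) :=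
  hP.hdc.comp (g := fun q : List ℕ => (hd, q)) ((Computable.const hd).pair Computable.id)

theorem fr_step {T : List ℕ → Bool} {w k k' p q : List ℕ} (h : Txt.FR T w k)
    (h1 : EndsR k (ht T w) p) (h2 : Txt.Le T (ht T w + 1) k k') (h3 : p <+: q)
    (h4 : p.length < q.length) (h5 : T q = true) : Txt.FR T w (k' ++ [mR (ht T w) q]) :=
  ⟨h.1.trans (h1.pay h2 h3 h4 h5).1, ⟨q, (h1.pay h2 h3 h4 h5).2⟩⟩

theorem fr_start {T : List ℕ → Bool} {w : List ℕ} (hw : Leg T w) (ho : opn T w = none) :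
    Txt.FR T w (w ++ [mR (ht T w) []]) ∧ EndsR (w ++ [mR (ht T w) []]) (ht T w) [] :=
  ⟨⟨(FF.start hw ho).1.1, ⟨[], ⟨w, rfl⟩⟩⟩, ⟨w, rfl⟩⟩

/-! ## Removal of a point -/

/-- The class given by a tree. -/
def Pth (P : Par) (e : ℕ) : Set (ℕ → ℕ) := {f | ∀ k, UU P e (pre f k)}

/-- REMOVAL OF A POINT. -/
theorem remP (hP : P.Ok) {a s hd : ℕ} (hs : s < P.p) (hJ : bt a s = true)
    (hG : Gr (VL G s) (us G s) (Gr.blk P.p)) (hA : AccV (VL G s) (us G s)) (hC : CarryV (VL G s))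
    (hps : ∀ σ, Gr.Ps P G s σ ↔ Pc (VL G s) (us G s) (Gr.blk P.p) TW 0 σ)
    (hO : ∀ l < P.p, ∀ n, ∃ k ≥ n, Gr.Ps P G l (pre (O l) k)) (hD : DecR P G V O)
    (hN : NEP P G (bt a) H V s hd) {g : ℕ → ℕ} (hg : ∀ k, P.Hd hd (pre g k) = true) {Z : ℕ → ℕ}
    (hgZ : Red g Z) (hOZ : ∀ l < P.p, l ∉ kn P (rmv (bt a) s) → Red (O l) Z)
    (hVZ : ∀ c, Gr.Tx P (bt a) H c = true → c ≠ s → Red (V c) Z) {e : ℕ}
    (hX : XH P (bt a) H V O ∈ Up (Pth P e)) : Z ∈ Up (Pth P e) := by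
  obtain ⟨f, h1, h2⟩ := hX
  obtain ⟨i, hi⟩ := (hP.enum.spec f _).1 h2
  obtain ⟨m0, m1, m2⟩ := tru_of_path hP.pos hO (hP.enum.mono i) (hD.r1 a H i e) (hD.r2 a H i) hi h1
  obtain ⟨lam, E, cu, zu, tu, n1, n2, n3, n4⟩ := hN i e m0 m2
  have hφc : Computable (P.Φ i) :=
    hP.enum.comp.comp (Computable.const i) Computable.id
  have hle : ComputablePred fun p : List ℕ × List ℕ => Txt.Le (P.Hd hd) (lam + 1) p.1 p.2 := by
    obtain ⟨D, hD'⟩ := Txt.cp_le (cp_hd hP hd)
    refine ⟨fun p => D (lam + 1, p.1, p.2), ?_⟩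
    exact hD'.comp (g := fun p : List ℕ × List ℕ => (lam + 1, p.1, p.2))
      ((Computable.const (lam + 1)).pair Computable.id)
  obtain ⟨f', h3, h4⟩ := procP (P := P) hP.pos hs hJ hG hA hC hps hO (hP.enum.mono i) hφc
    (uu_pc hP e) n4 (tx_txt n1) n2 n3 (te_comp hP.trc E) hle (comp_mR lam) m2.1 m1
    (hD.t a s hd lam E cu tu m0) (fun b => hD.a a H s i hd lam E b) hOZ
    (fun c _ hc h => hVZ c hc h) (g := g) hg hgZ
  exact ⟨f', h4, h3⟩

/-- REMOVAL OF A SHARE. -/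
theorem remS (hP : P.Ok) {a o hd : ℕ}
    (hO : ∀ l < P.p, ∀ n, ∃ k ≥ n, Gr.Ps P G l (pre (O l) k)) (hD : DecR P G V O)
    (hN : NES P G (bt a) H V o hd) {g : ℕ → ℕ} (hg : ∀ k, P.Hd hd (pre g k) = true) {Z : ℕ → ℕ}
    (hgZ : Red g Z) (hOZ : ∀ l < P.p, l ∉ kn P (bt a) → Red (O l) Z)
    (hVZ : ∀ c, Gr.Tx P (bt a) H c = true → c ≠ o → Red (V c) Z) {e : ℕ}
    (hX : XH P (bt a) H V O ∈ Up (Pth P e)) : Z ∈ Up (Pth P e) := by
  obtain ⟨f, h1, h2⟩ := hX
  obtain ⟨i, hi⟩ := (hP.enum.spec f _).1 h2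
  obtain ⟨m0, m1, m2⟩ := tru_of_path hP.pos hO (hP.enum.mono i) (hD.r1 a H i e) (hD.r2 a H i) hi h1
  obtain ⟨w, n1, n2, n3⟩ := hN i e m0 m2
  have hφc : Computable (P.Φ i) :=
    hP.enum.comp.comp (Computable.const i) Computable.id
  obtain ⟨k1, k2⟩ := fr_start n1 n2
  obtain ⟨f', h3, h4⟩ := procs hP.pos hO (hP.enum.mono i) hφc
    (fun σ τ h h' => uu_pc hP e σ τ h' h) (cp_hd hP hd)
    (fun k m => hD.s a H o i hd (ht (P.Hd hd) w) k m) n3 m2.1 m1
    (fun k k' p q f1 f2 f3 f4 f5 f6 => fr_step f1 f2 f3 f4 f5 f6) k1 k2 hOZ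
    (fun c _ hc h => hVZ c hc h) hg hgZ
  exact ⟨f', h4, h3⟩

/-- REMOVAL OF A SHARE WITHOUT PAYMENTS (K5.2). -/
theorem remK (hP : P.Ok) {a o hd : ℕ}
    (hO : ∀ l < P.p, ∀ n, ∃ k ≥ n, Gr.Ps P G l (pre (O l) k)) (hD : DecR P G V O)
    (hN : NES P G (bt a) H V o hd) {Z : ℕ → ℕ}
    (hOZ : ∀ l < P.p, l ∉ kn P (bt a) → Red (O l) Z)
    (hVZ : ∀ c, Gr.Tx P (bt a) H c = true → c ≠ o → Red (V c) Z) {e : ℕ}
    (hTU : ∀ y, UU P e y → P.Hd hd (0 :: y) = true)
    (hX : XH P (bt a) H V O ∈ Up (Pth P e)) : Z ∈ Up (Pth P e) := by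
  obtain ⟨f, h1, h2⟩ := hX
  obtain ⟨i, hi⟩ := (hP.enum.spec f _).1 h2
  obtain ⟨m0, m1, m2⟩ := tru_of_path hP.pos hO (hP.enum.mono i) (hD.r1 a H i e) (hD.r2 a H i) hi h1
  obtain ⟨w, n1, n2, n3⟩ := hN i e m0 m2
  have hφc : Computable (P.Φ i) :=
    hP.enum.comp.comp (Computable.const i) Computable.id
  obtain ⟨k1, k2⟩ := fr_start n1 n2
  obtain ⟨f', h3, h4⟩ := kself hP.pos hO (hP.enum.mono i) hφc
    (fun σ τ h h' => uu_pc hP e σ τ h' h) (cp_hd hP hd)
    (fun k m => hD.s a H o i hd (ht (P.Hd hd) w) k m) n3 m2.1 m1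
    (fun k k' p q f1 f2 f3 f4 f5 f6 => fr_step f1 f2 f3 f4 f5 f6) k1 k2 hOZ
    (fun c _ hc h => hVZ c hc h) hTU
  exact ⟨f', h4, h3⟩

/-! ## For the reals of the patterns -/

/-- The pattern without `s` computes what the removal of `s` needs. -/
theorem rmv_red {s : ℕ} : (∀ l < P.p, l ∉ kn P (rmv J s) → Red (O l) (XH P (rmv J s) H V O)) ∧
    ∀ c, Gr.Tx P J H c = true → c ≠ s → Red (V c) (XH P (rmv J s) H V O) := by
  refine ⟨fun l hl h => red_O hl h, fun c hc h => red_V ?_⟩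
  unfold Gr.Tx at hc ⊢
  simpa [rmv, h] using hc

/-- The pattern with the shares `H'` (`H` without `o`) computes what the removal of `o` needs. -/
theorem rms_red {H' o : ℕ} (h : ∀ c, Prs P H c = true → c ≠ o → Prs P H' c = true) :
    (∀ l < P.p, l ∉ kn P J → Red (O l) (XH P J H' V O)) ∧
    ∀ c, Gr.Tx P J H c = true → c ≠ o → Red (V c) (XH P J H' V O) := by
  refine ⟨fun l hl h => red_O hl h, fun c hc h1 => red_V ?_⟩
  unfold Gr.Tx at hc ⊢
  rw [Bool.and_eq_true] at hc ⊢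
  exact ⟨h c hc.1 h1, hc.2⟩

end Pool.Agent.Lib.MP_d48993_lc.Ba.Rem
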