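import Pool.Agent.Lib.MP_d48993_lc.BAE.Rem.Eng
import Pool.Agent.Lib.MP_d48993_lc.BAE.Rig.Tru
import Pool.Agent.Lib.MP_d48993_lc.BAE.Rig.TxtC

/-!
# Module RSH (finding 4183, R3, and finding 4190, K5.2): removal of a share

The known object `o` of the pattern `I` is replaced by a text, which is built step by step: each
step looks for a growing value of the functional and pays for the open level. The payment is a
parameter: a path of the header tree (R3) or the previous output (K5.2).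
-/

set_option autoImplicit false

namespace Pool.Agent.Lib.MP_d48993_lc.Ba.Rem

open MP_8c048d_lc (pre join RecF Cop length_pre pre_take pre_getElem?)
open Ind2 Tup Txt
open Gr (Par Prs Tx tlen fj jn)
open Encodable (encode)
open Denumerable (ofNat)

/-! ## The trees -/

/-- All trees. -/
def UU (P : Par) : ℕ → List ℕ → Prop := P.Tu

theorem uu_pc {P : Par} (hP : P.Ok) (e : ℕ) : ∀ σ τ : List ℕ, UU P e τ → σ <+: τ → UU P e σ :=
  fun σ τ h h1 => hP.tut e σ τ h1 h

theorem uu_comp {P : Par} (hP : P.Ok) :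
    ComputablePred (fun x : ℕ × List ℕ => UU P x.1 x.2) := hP.tuc

/-! ## The string of a condition with the string `w` at the place `o` -/

/-- The columns of a condition; the column `o` is `w`. -/
def colo (P : Par) (J : ℕ → Bool) (H : ℕ) (V : ℕ → ℕ → ℕ) (k : ℕ) (μ : List (List ℕ)) (o : ℕ)
    (w : List ℕ) : List (List ℕ) :=
  (List.range (P.p + P.q)).map fun c =>
    if c = o then w else if Tx P J H c then pre (V c) k else μ.getD c []

/-- The string of a condition; the column `o` is `w`. -/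
def mo (P : Par) (J : ℕ → Bool) (H : ℕ) (V : ℕ → ℕ → ℕ) (k : ℕ) (μ : List (List ℕ)) (o : ℕ)
    (w : List ℕ) : List ℕ := fj P H (colo P J H V k μ o w)

variable {P : Par} {RG : ℕ → List ℕ → Prop} {J : ℕ → Bool} {H : ℕ} {V O : ℕ → ℕ → ℕ}

theorem getD_colo (k : ℕ) (μ : List (List ℕ)) (o : ℕ) (w : List ℕ) {c : ℕ}
    (hc : c < P.p + P.q) : (colo P J H V k μ o w).getD c [] =
      if c = o then w else if Tx P J H c then pre (V c) k else μ.getD c [] :=
  getD_range_map _ _ hc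

theorem mo_mono (hp : 0 < P.p) {j j' : ℕ} (hj : j ≤ j') {μ μ' : List (List ℕ)}
    (h : Lep P.p μ μ') (o : ℕ) {w w' : List ℕ} (hw : w <+: w') :
    mo P J H V j μ o w <+: mo P J H V j' μ' o w' := by
  refine fj_mono hp fun c hc h1 => ?_
  rw [getD_colo _ _ _ _ hc, getD_colo _ _ _ _ hc]
  by_cases h0 : c = o
  · rw [if_pos h0, if_pos h0]; exact hw
  · rw [if_neg h0, if_neg h0]
    rcases prs_cases (J := J) h1 with h2 | ⟨h2, h3, -⟩
    · rw [if_pos h2, if_pos h2]; exact pre_mono _ hj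
    · rw [h2]; exact h c h3

/-- With an initial segment of the real `V o` at the place `o`. -/
theorem mo_le_mk (hp : 0 < P.p) {o : ℕ} (ho : Tx P J H o = true) (k i : ℕ)
    (μ : List (List ℕ)) : mo P J H V k μ o (pre (V o) i) <+: mk P J H V (max k i) μ := by
  refine fj_mono hp fun c hc h1 => ?_
  rw [getD_colo _ _ _ _ hc, getD_cols _ _ hc]
  by_cases h0 : c = o
  · subst h0
    rw [if_pos rfl, if_pos ho]; exact pre_mono _ (le_max_right _ _)
  · rw [if_neg h0]
    rcases prs_cases (J := J) h1 with h2 | ⟨h2, h3, -⟩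
    · rw [if_pos h2, if_pos h2]; exact pre_mono _ (le_max_left _ _)
    · rw [h2]; exact List.prefix_rfl

theorem mk_le_mo (hp : 0 < P.p) {o : ℕ} (ho : Tx P J H o = true) (k : ℕ)
    (μ : List (List ℕ)) : mk P J H V k μ = mo P J H V k μ o (pre (V o) k) := by
  refine fj_congr hp fun c hc h1 => ?_
  rw [getD_colo _ _ _ _ hc, getD_cols _ _ hc]
  by_cases h0 : c = o
  · subst h0
    rw [if_pos rfl, if_pos ho]
  · rw [if_neg h0]

/-- The graph of the string of a condition. -/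
theorem sgF_mo {Z : ℕ → ℕ} {o : ℕ}
    (hV : ∀ c < P.p + P.q, Tx P J H c = true → c ≠ o → Red (V c) Z) :
    SgF Z (fun a : List ℕ × List (List ℕ) × ℕ => mo P J H V a.2.2 a.2.1 o a.1) := by
  have h1 : SgF Z (fun a : List ℕ × List (List ℕ) × ℕ => colo P J H V a.2.2 a.2.1 o a.1) := by
    refine SgF.range (f := fun c (a : List ℕ × List (List ℕ) × ℕ) =>
      if c = o then a.1 else if Tx P J H c then pre (V c) a.2.2 else a.2.1.getD c [])
      (P.p + P.q) fun c hc => ?_
    by_cases h1 : c = o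
    · refine (SgF.ofC (Z := Z) (f := fun a : List ℕ × List (List ℕ) × ℕ => a.1)
        Computable.fst).congr fun a => ?_
      rw [if_pos h1]
    · by_cases h2 : Tx P J H c = true
      · refine ((SgF.pre (hV c hc h2 h1)).comp₁ (g := fun a : List ℕ × List (List ℕ) × ℕ => a.2.2)
          (Computable.snd.comp Computable.snd)).congr fun a => ?_
        rw [if_neg h1, if_pos h2]
      · refine (SgF.ofC (Z := Z) (f := fun a : List ℕ × List (List ℕ) × ℕ => a.2.1.getD c [])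
          ?_).congr fun a => ?_
        · exact (Primrec.list_getD []).to_comp.comp (Computable.fst.comp Computable.snd)
            (Computable.const c)
        · rw [if_neg h1, if_neg h2]
  exact h1.comp (comp_fj P H)

/-! ## Conditions below `O` -/

section below

variable {c : ℕ} {I : List ℕ}

/-- `μ` consists of initial segments of the generic reals; the known components are empty. -/
def Blc (c : ℕ) (I : List ℕ) (O : ℕ → ℕ → ℕ) (μ : List (List ℕ)) : Prop :=
  μ.length = c ∧ (∀ l < c, l ∈ I → μ.getD l [] = []) ∧ Blw c O μ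

theorem Blc.of {μ : List (List ℕ)} (h : Cn c RG I μ) (h' : Blw c O μ) : Blc c I O μ :=
  ⟨h.1, fun l hl hI => (h.2 l hl).1 hI, h'⟩

/-- A condition above two conditions below `O`. -/
theorem Blc.long (hO : ∀ l < c, ∀ n, ∃ k ≥ n, RG l (pre (O l) k)) {μ μ₁ : List (List ℕ)}
    (h : Blc c I O μ) (h1 : Cn c RG I μ₁) (h2 : Blw c O μ₁) :
    ∃ μ₂, Cn c RG I μ₂ ∧ Blw c O μ₂ ∧ Lep c μ μ₂ ∧ Lep c μ₁ μ₂ := by
  obtain ⟨μ₂, a1, a2, a3, a4⟩ := exists_long (I := I) hO h1 h2
    ((Finset.range c).sup fun l => (μ.getD l []).length)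
  refine ⟨μ₂, a1, a2, fun l hl => ?_, a3⟩
  by_cases hI : l ∈ I
  · rw [h.2.1 l hl hI]; exact List.nil_prefix
  · obtain ⟨i, hi⟩ := h.2.2 l hl
    obtain ⟨i', hi'⟩ := a2 l hl
    have h3 : (μ.getD l []).length ≤ (μ₂.getD l []).length :=
      le_trans (Finset.le_sup (f := fun l => (μ.getD l []).length) (Finset.mem_range.2 hl))
        (a4 l hl hI)
    rw [hi, hi', length_pre, length_pre] at h3
    rw [hi, hi']
    exact pre_mono _ h3

theorem sg_blc {Z : ℕ → ℕ} (hO : ∀ l < c, l ∉ I → Red (O l) Z) :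
    Sg Z (fun μ : List (List ℕ) => Blc c I O μ) := by
  have h1 : Sg Z (fun μ : List (List ℕ) => μ.length = c) :=
    sgCp (MP_8c048d_lc.e3_cp_eq Computable.list_length (Computable.const c))
  have h2 : ∀ l, ComputablePred (fun μ : List (List ℕ) => μ.getD l [] = []) := fun l =>
    MP_8c048d_lc.e3_cp_eq ((Primrec.list_getD []).to_comp.comp Computable.id
      (Computable.const l)) (Computable.const [])
  have h3 : ∀ l < c, Sg Z (fun μ : List (List ℕ) => (l ∈ I → μ.getD l [] = []) ∧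
      ∃ k, μ.getD l [] = pre (O l) k) := by
    intro l hl
    by_cases hI : l ∈ I
    · refine sgCongr (sgCp (h2 l)) fun μ => ?_
      constructor
      · intro h; exact ⟨fun _ => h, 0, h⟩
      · rintro ⟨h, -⟩; exact h hI
    · refine sgCongr (sgEx (P := fun (μ : List (List ℕ)) k => μ.getD l [] = pre (O l) k)
        (SgF.eq (SgF.ofC ?_) ((SgF.pre (hO l hl hI)).comp₁ Computable.snd))) fun μ => ?_
      · exact (Primrec.list_getD []).to_comp.comp Computable.fst (Computable.const l)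
      · exact ⟨fun h => ⟨fun h' => (hI h').elim, h⟩, fun h => h.2⟩
  refine sgCongr (sgAnd h1 (sgAllLt c h3)) fun μ => ?_
  constructor
  · rintro ⟨a, b⟩
    exact ⟨a, fun l hl => (b l hl).1, fun l hl => (b l hl).2⟩
  · rintro ⟨a, b, d⟩
    exact ⟨a, fun l hl => ⟨b l hl, d l hl⟩⟩

end below

/-! ## The lemma NE for shares -/

/-- The conclusion of the lemma NE for the object `o`: the texts in `F` neither leave the tree nor
stop the growth of the value. -/
structure NeS (P : Par) (RG : ℕ → List ℕ → Prop) (J : ℕ → Bool) (H : ℕ) (V : ℕ → ℕ → ℕ) (o : ℕ)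
    (φ : List ℕ → List ℕ) (U : List ℕ → Prop) (T : List ℕ → Bool) (lam : ℕ)
    (F : List ℕ → Prop) (μ₀ : List (List ℕ)) : Prop where
  E : ∀ k, F k → ∀ μ, Cn P.p RG (kn P J) μ → Lep P.p μ₀ μ → ∀ j, U (φ (mo P J H V j μ o k))
  D : ∀ k, F k → ∀ μ, Cn P.p RG (kn P J) μ → Lep P.p μ₀ μ → ∀ m, ∃ k' μ' j,
    Txt.Le T (lam + 1) k k' ∧ Cn P.p RG (kn P J) μ' ∧ Lep P.p μ μ' ∧
    m ≤ (φ (mo P J H V j μ' o k')).length

/-- The sets which the generic tuple has to decide. -/
def DS (P : Par) (J : ℕ → Bool) (H : ℕ) (V : ℕ → ℕ → ℕ) (o : ℕ) (φ : List ℕ → List ℕ) (T : List ℕ → Bool)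
    (lam : ℕ) (k : List ℕ) (m : ℕ) (μ : List (List ℕ)) : Prop :=
  ∃ k' j, Txt.Le T (lam + 1) k k' ∧ m ≤ (φ (mo P J H V j μ o k')).length

variable {o : ℕ} {φ : List ℕ → List ℕ} {U : List ℕ → Prop} {T : List ℕ → Bool} {lam : ℕ}
  {F : List ℕ → Prop} {μ₀ : List (List ℕ)}

/-- No exit below `O`. -/
theorem NeS.exit (hp : 0 < P.p) (hO : ∀ l < P.p, ∀ n, ∃ k ≥ n, RG l (pre (O l) k))
    (hφ : ∀ σ τ, σ <+: τ → φ σ <+: φ τ) (hU : ∀ σ τ : List ℕ, σ <+: τ → U τ → U σ)
    (h : NeS P RG J H V o φ U T lam F μ₀) (h1 : Cn P.p RG (kn P J) μ₀) (h2 : Blw P.p O μ₀) {k : List ℕ}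
    (hk : F k) {μ : List (List ℕ)} (hμ : Blc P.p (kn P J) O μ) (j : ℕ) :
    U (φ (mo P J H V j μ o k)) := by
  obtain ⟨μ₂, a1, -, a3, a4⟩ := Blc.long hO hμ h1 h2
  exact hU _ _ (hφ _ _ (mo_mono hp le_rfl a3 o List.prefix_rfl)) (h.E k hk μ₂ a1 a4 j)

/-- Growth below `O`. -/
theorem NeS.grow (hp : 0 < P.p) (hO : ∀ l < P.p, ∀ n, ∃ k ≥ n, RG l (pre (O l) k))
    (hφ : ∀ σ τ, σ <+: τ → φ σ <+: φ τ)
    (hD : ∀ k m, Dcd P.p RG (kn P J) O (DS P J H V o φ T lam k m))
    (h : NeS P RG J H V o φ U T lam F μ₀) (h1 : Cn P.p RG (kn P J) μ₀) (h2 : Blw P.p O μ₀) {k : List ℕ}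
    (hk : F k) {μ : List (List ℕ)} (hμ : Blc P.p (kn P J) O μ) (j0 m : ℕ) :
    ∃ k' μ' j, Txt.Le T (lam + 1) k k' ∧ Blc P.p (kn P J) O μ' ∧ Lep P.p μ μ' ∧ j0 ≤ j ∧
      m ≤ (φ (mo P J H V j μ' o k')).length := by
  obtain ⟨μ₁, a1, a2, a3⟩ := hD k m
  rcases a3 with ⟨k', j, b1, b2⟩ | a3
  · obtain ⟨μ₂, c1, c2, c3, c4⟩ := Blc.long hO hμ a1 a2
    refine ⟨k', μ₂, max j0 j, b1, Blc.of c1 c2, c3, le_max_left _ _, b2.trans ?_⟩
    exact (hφ _ _ (mo_mono hp (le_max_right _ _) c4 o List.prefix_rfl)).length_le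
  · exfalso
    obtain ⟨ξ, d1, -, d3, d4⟩ := Blw.sup h1 a1 h2 a2
    obtain ⟨k', μ', j, e1, e2, e3, e4⟩ := h.D k hk ξ d1 d3 m
    exact a3 μ' e2 (d4.trans e3) ⟨k', j, e1, e4⟩

/-! ## The process -/

/-- Configurations: text, condition, cut, number of the step. -/
abbrev CfS : Type := List ℕ × List (List ℕ) × ℕ × ℕ

/-- The value of a configuration. -/
def outp (P : Par) (J : ℕ → Bool) (H : ℕ) (V : ℕ → ℕ → ℕ) (o : ℕ) (φ : List ℕ → List ℕ) (a : CfS) :
    List ℕ := φ (mo P J H V a.2.2.1 a.2.1 o a.1)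

theorem cp_Lep : ComputablePred (fun p : List (List ℕ) × List (List ℕ) => Lep P.p p.1 p.2) := by
  have h : ComputablePred (fun p : List (List ℕ) × List (List ℕ) =>
      ∀ l < P.p, p.1.getD l [] <+: p.2.getD l []) := by
    refine MP_8c048d_lc.e3_cp_forall_lt (p := fun x : (List (List ℕ) × List (List ℕ)) × ℕ =>
      x.1.1.getD x.2 [] <+: x.1.2.getD x.2 []) ?_ (Computable.const P.p)
    have h1 : Computable (fun x : (List (List ℕ) × List (List ℕ)) × ℕ =>
        (x.1.1.getD x.2 [], x.1.2.getD x.2 [])) :=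
      ((Primrec.list_getD []).to_comp.comp (Computable.fst.comp Computable.fst)
        Computable.snd).pair ((Primrec.list_getD []).to_comp.comp
          (Computable.snd.comp Computable.fst) Computable.snd)
    obtain ⟨f, hf, hf'⟩ := MP_8c048d_lc.e3_cp_iff.1 cp_prefix
    exact MP_8c048d_lc.e3_cp_iff.2 ⟨fun x => f (x.1.1.getD x.2 [], x.1.2.getD x.2 []),
      hf.comp h1, fun x => hf' (x.1.1.getD x.2 [], x.1.2.getD x.2 [])⟩
  exact h

/-- THEOREM PROCS with the payment rule `pay`. -/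
theorem procs_gen (hp : 0 < P.p) (hO : ∀ l < P.p, ∀ n, ∃ k ≥ n, RG l (pre (O l) k))
    (hφ : ∀ σ τ, σ <+: τ → φ σ <+: φ τ) (hφc : Computable φ)
    (hU : ∀ σ τ : List ℕ, σ <+: τ → U τ → U σ) (hT : Computable T)
    (hD : ∀ k m, Dcd P.p RG (kn P J) O (DS P J H V o φ T lam k m))
    (h : NeS P RG J H V o φ U T lam F μ₀) (h1 : Cn P.p RG (kn P J) μ₀) (h2 : Blw P.p O μ₀)
    (hF : ∀ k k' p q, F k → EndsR k lam p → Txt.Le T (lam + 1) k k' → p <+: q →
      p.length < q.length → T q = true → F (k' ++ [mR lam q]))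
    {k0 : List ℕ} (hk0 : F k0) (hk0' : EndsR k0 lam [])
    {Z : ℕ → ℕ} (hOZ : ∀ l < P.p, l ∉ kn P J → Red (O l) Z)
    (hVZ : ∀ c < P.p + P.q, Tx P J H c = true → c ≠ o → Red (V c) Z)
    (pay : CfS → List ℕ) (hpay : SgF Z pay) (hp0 : 0 < (pay (k0, μ₀, 0, 0)).length)
    (hp1 : ∀ a, U (outp P J H V o φ a) → T (pay a) = true)
    (hp2 : ∀ a a' : CfS, a'.2.2.2 = a.2.2.2 + 1 → outp P J H V o φ a <+: outp P J H V o φ a' →
      (outp P J H V o φ a).length < (outp P J H V o φ a').length →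
      pay a <+: pay a' ∧ (pay a).length < (pay a').length) :
    ∃ f : ℕ → ℕ, Red f Z ∧ ∀ k, U (pre f k) := by
  -- the next configuration
  let Nx : CfS → CfS → Prop := fun a a' => a'.2.2.2 = a.2.2.2 + 1 ∧ Blc P.p (kn P J) O a'.2.1 ∧
    Lep P.p a.2.1 a'.2.1 ∧ a.2.2.1 ≤ a'.2.2.1 ∧ ∃ w, w ++ [mR lam (pay a)] = a'.1 ∧
      Txt.Le T (lam + 1) a.1 w ∧
      (outp P J H V o φ a).length < (φ (mo P J H V a'.2.2.1 a'.2.1 o w)).length
  have sgout : SgF Z (fun a : List ℕ × List (List ℕ) × ℕ => φ (mo P J H V a.2.2 a.2.1 o a.1)) :=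
    (sgF_mo hVZ).comp hφc
  have sgout' : SgF Z (outp P J H V o φ) :=
    sgout.comp₁ (g := fun a : CfS => (a.1, a.2.1, a.2.2.1)) (Computable.fst.pair
      ((Computable.fst.comp Computable.snd).pair (Computable.fst.comp
        (Computable.snd.comp Computable.snd))))
  have hlt : ComputablePred (fun p : ℕ × ℕ => p.1 < p.2) :=
    PrimrecPred.computablePred (PrimrecRel.comp Primrec.nat_lt Primrec.fst Primrec.snd)
  have hle : ComputablePred (fun p : ℕ × ℕ => p.1 ≤ p.2) :=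
    PrimrecPred.computablePred (PrimrecRel.comp Primrec.nat_le Primrec.fst Primrec.snd)
  have sgN : Sg Z (fun p : CfS × CfS => Nx p.1 p.2) := by
    have c1 : Computable (fun p : CfS × CfS => p.1.2.1) :=
      Computable.fst.comp (Computable.snd.comp Computable.fst)
    have c2 : Computable (fun p : CfS × CfS => p.2.2.1) :=
      Computable.fst.comp (Computable.snd.comp Computable.snd)
    have c3 : Computable (fun p : CfS × CfS => p.1.2.2.1) :=
      Computable.fst.comp (Computable.snd.comp (Computable.snd.comp Computable.fst))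
    have c4 : Computable (fun p : CfS × CfS => p.2.2.2.1) :=
      Computable.fst.comp (Computable.snd.comp (Computable.snd.comp Computable.snd))
    have c5 : Computable (fun p : CfS × CfS => p.1.2.2.2) :=
      Computable.snd.comp (Computable.snd.comp (Computable.snd.comp Computable.fst))
    have c6 : Computable (fun p : CfS × CfS => p.2.2.2.2) :=
      Computable.snd.comp (Computable.snd.comp (Computable.snd.comp Computable.snd))
    refine sgAnd ?_ (sgAnd ?_ (sgAnd ?_ (sgAnd ?_ ?_)))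
    · exact sgCp (MP_8c048d_lc.e3_cp_eq c6 (Computable.succ.comp c5))
    · exact sgComp (sg_blc hOZ) c2
    · exact sgComp (sgCp (Z := Z) cp_Lep) (f := fun p : CfS × CfS => (p.1.2.1, p.2.2.1)) (c1.pair c2)
    · exact sgComp (sgCp (Z := Z) hle) (f := fun p : CfS × CfS => (p.1.2.2.1, p.2.2.2.1))
        (c3.pair c4)
    · refine sgEx (P := fun (p : CfS × CfS) (w : List ℕ) => w ++ [mR lam (pay p.1)] = p.2.1 ∧
        Txt.Le T (lam + 1) p.1.1 w ∧
        (outp P J H V o φ p.1).length < (φ (mo P J H V p.2.2.2.1 p.2.2.1 o w)).length)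
        (sgAnd ?_ (sgAnd ?_ ?_))
      · refine SgF.eq ?_ (SgF.ofC (Computable.fst.comp (Computable.snd.comp Computable.fst)))
        have h3 : SgF Z (fun p : (CfS × CfS) × List ℕ => (p.2, pay p.1.1)) :=
          (SgF.ofC Computable.snd).pair (hpay.comp₁ (Computable.fst.comp Computable.fst))
        refine h3.comp (g := fun x : List ℕ × List ℕ => x.1 ++ [mR lam x.2]) ?_
        exact Computable.list_concat.comp Computable.fst (prim_mR.to_comp.comp
          (Computable.const lam) Computable.snd)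
      · exact sgComp (sgCp (Z := Z) (cp_le hT)) (f := fun p : (CfS × CfS) × List ℕ =>
          (lam + 1, p.1.1.1, p.2)) ((Computable.const (lam + 1)).pair
            ((Computable.fst.comp (Computable.fst.comp Computable.fst)).pair Computable.snd))
      · have h3 : SgF Z (fun p : (CfS × CfS) × List ℕ => ((outp P J H V o φ p.1.1).length,
            (φ (mo P J H V p.1.2.2.2.1 p.1.2.2.1 o p.2)).length)) := by
          refine SgF.pair ((sgout'.comp₁ (Computable.fst.comp Computable.fst)).comp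
            Computable.list_length) (SgF.comp ?_ Computable.list_length)
          exact sgout.comp₁ (g := fun p : (CfS × CfS) × List ℕ => (p.2, p.1.2.2.1, p.1.2.2.2.1))
            (Computable.snd.pair ((c2.comp Computable.fst).pair (c4.comp Computable.fst)))
        exact sgSubst (sgCp (Z := Z) hlt) h3
  refine path_of_search (α := CfS) (Z := Z) (Nx := Nx) sgN (out := outp P J H V o φ) sgout' hU
    (fun a => F a.1 ∧ (∃ q, EndsR a.1 lam q ∧ q <+: pay a ∧ q.length < (pay a).length) ∧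
      Blc P.p (kn P J) O a.2.1) (a0 := (k0, μ₀, 0, 0)) ⟨hk0, ⟨[], hk0', List.nil_prefix, hp0⟩,
        Blc.of h1 h2⟩ (fun a ha => ?_) (fun a ha => ?_) (fun a a' ha hn => ?_)
  · exact h.exit hp hO hφ hU h1 h2 ha.1 ha.2.2 _
  · obtain ⟨k', μ', j, b1, b2, b3, b4, b5⟩ := h.grow hp hO hφ hD h1 h2 ha.1 ha.2.2 a.2.2.1
      ((outp P J H V o φ a).length + 1)
    exact ⟨(k' ++ [mR lam (pay a)], μ', j, a.2.2.2 + 1), rfl, b2, b3, b4, k', rfl, b1, b5⟩
  · obtain ⟨b1, b2, b3, b4, w, b5, b6, b7⟩ := hn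
    obtain ⟨q, q1, q2, q3⟩ := ha.2.1
    have hout : U (outp P J H V o φ a) := h.exit hp hO hφ hU h1 h2 ha.1 ha.2.2 _
    have hFa' : F a'.1 := by
      rw [← b5]
      exact hF _ _ _ _ ha.1 q1 b6 q2 q3 (hp1 a hout)
    have hpx : a.1 <+: a'.1 := by
      rw [← b5]; exact b6.px.trans (List.prefix_append _ _)
    have g1 : outp P J H V o φ a <+: outp P J H V o φ a' :=
      hφ _ _ (mo_mono hp b4 b3 o hpx)
    have g2 : (outp P J H V o φ a).length < (outp P J H V o φ a').length := by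
      refine lt_of_lt_of_le b7 (hφ _ _ (mo_mono hp le_rfl (Lep.refl _) o ?_)).length_le
      rw [← b5]; exact List.prefix_append _ _
    obtain ⟨r1, r2⟩ := hp2 a a' b1 g1 g2
    exact ⟨⟨hFa', ⟨pay a, ⟨w, b5.symm⟩, r1, r2⟩, b2⟩, g1, g2⟩

theorem pre_lt (h : ℕ → ℕ) (i : ℕ) : pre h i <+: pre h (i + 1) ∧
    (pre h i).length < (pre h (i + 1)).length :=
  ⟨pre_mono _ (Nat.le_succ i), by rw [length_pre, length_pre]; exact Nat.lt_succ_self i⟩

/-- THEOREM PROCS (R3): the known share `o` is removed with a path `g` of the header tree. -/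
theorem procs (hp : 0 < P.p) (hO : ∀ l < P.p, ∀ n, ∃ k ≥ n, RG l (pre (O l) k))
    (hφ : ∀ σ τ, σ <+: τ → φ σ <+: φ τ) (hφc : Computable φ)
    (hU : ∀ σ τ : List ℕ, σ <+: τ → U τ → U σ) (hT : Computable T)
    (hD : ∀ k m, Dcd P.p RG (kn P J) O (DS P J H V o φ T lam k m))
    (h : NeS P RG J H V o φ U T lam F μ₀) (h1 : Cn P.p RG (kn P J) μ₀) (h2 : Blw P.p O μ₀)
    (hF : ∀ k k' p q, F k → EndsR k lam p → Txt.Le T (lam + 1) k k' → p <+: q →
      p.length < q.length → T q = true → F (k' ++ [mR lam q]))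
    {k0 : List ℕ} (hk0 : F k0) (hk0' : EndsR k0 lam [])
    {Z : ℕ → ℕ} (hOZ : ∀ l < P.p, l ∉ kn P J → Red (O l) Z)
    (hVZ : ∀ c < P.p + P.q, Tx P J H c = true → c ≠ o → Red (V c) Z)
    {g : ℕ → ℕ} (hg : ∀ k, T (pre g k) = true) (hgZ : Red g Z) :
    ∃ f : ℕ → ℕ, Red f Z ∧ ∀ k, U (pre f k) := by
  refine procs_gen hp hO hφ hφc hU hT hD h h1 h2 hF hk0 hk0' hOZ hVZ
    (fun a => pre g (a.2.2.2 + 1)) ?_ ?_ (fun a _ => hg _) fun a a' h3 _ _ => ?_
  · exact (SgF.pre hgZ).comp₁ (g := fun a : CfS => a.2.2.2 + 1) (Computable.succ.comp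
      (Computable.snd.comp (Computable.snd.comp Computable.snd)))
  · rw [length_pre]; exact Nat.succ_pos _
  · show pre g (a.2.2.2 + 1) <+: pre g (a'.2.2.2 + 1) ∧ _
    rw [h3]
    exact pre_lt g _

/-- SELF-PAYMENT (K5.2): the known share `o` is removed without payments if the header tree
contains `0 :: y` for all `y` in the tree of the values. -/
theorem kself (hp : 0 < P.p) (hO : ∀ l < P.p, ∀ n, ∃ k ≥ n, RG l (pre (O l) k))
    (hφ : ∀ σ τ, σ <+: τ → φ σ <+: φ τ) (hφc : Computable φ)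
    (hU : ∀ σ τ : List ℕ, σ <+: τ → U τ → U σ) (hT : Computable T)
    (hD : ∀ k m, Dcd P.p RG (kn P J) O (DS P J H V o φ T lam k m))
    (h : NeS P RG J H V o φ U T lam F μ₀) (h1 : Cn P.p RG (kn P J) μ₀) (h2 : Blw P.p O μ₀)
    (hF : ∀ k k' p q, F k → EndsR k lam p → Txt.Le T (lam + 1) k k' → p <+: q →
      p.length < q.length → T q = true → F (k' ++ [mR lam q]))
    {k0 : List ℕ} (hk0 : F k0) (hk0' : EndsR k0 lam [])
    {Z : ℕ → ℕ} (hOZ : ∀ l < P.p, l ∉ kn P J → Red (O l) Z)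
    (hVZ : ∀ c < P.p + P.q, Tx P J H c = true → c ≠ o → Red (V c) Z)
    (hTU : ∀ y, U y → T (0 :: y) = true) :
    ∃ f : ℕ → ℕ, Red f Z ∧ ∀ k, U (pre f k) := by
  refine procs_gen hp hO hφ hφc hU hT hD h h1 h2 hF hk0 hk0' hOZ hVZ
    (fun a => 0 :: outp P J H V o φ a) ?_ (Nat.succ_pos _) (fun a ha => hTU _ ha)
    fun a a' _ h4 h5 => ⟨?_, Nat.succ_lt_succ h5⟩
  · have h3 : SgF Z (fun a : List ℕ × List (List ℕ) × ℕ => φ (mo P J H V a.2.2 a.2.1 o a.1)) :=
      (sgF_mo hVZ).comp hφc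
    have h4 : SgF Z (outp P J H V o φ) :=
      h3.comp₁ (g := fun a : CfS => (a.1, a.2.1, a.2.2.1)) (Computable.fst.pair
        ((Computable.fst.comp Computable.snd).pair (Computable.fst.comp
          (Computable.snd.comp Computable.snd))))
    exact h4.comp (g := fun y : List ℕ => 0 :: y) (Computable.list_cons.comp
      (Computable.const 0) Computable.id)
  · obtain ⟨t, ht⟩ := h4
    exact ⟨t, by rw [← ht]; rfl⟩

/-- The texts of the machine of a share after the base text `w`. -/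
def FF (T : List ℕ → Bool) (w k : List ℕ) : Prop :=
  Txt.Le T (ht T w) w k ∧ (k = w ∨ ∃ p, EndsR k (ht T w) p)

theorem FF.step {w k k' p q : List ℕ} (h : FF T w k) (h1 : EndsR k (ht T w) p)
    (h2 : Txt.Le T (ht T w + 1) k k') (h3 : p <+: q) (h4 : p.length < q.length)
    (h5 : T q = true) : FF T w (k' ++ [mR (ht T w) q]) :=
  ⟨h.1.trans (h1.pay h2 h3 h4 h5).1, Or.inr ⟨q, (h1.pay h2 h3 h4 h5).2⟩⟩

/-- The first reopening of the base level. -/
theorem FF.start {w : List ℕ} (hw : Leg T w) (ho : opn T w = none) :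
    FF T w (w ++ [mR (ht T w) []]) ∧ EndsR (w ++ [mR (ht T w) []]) (ht T w) [] := by
  have h := (reopen (T := T) (w := w) (w' := w) (q := []) (Le.rfl' hw)
    (by rw [ho]; exact okR_none.2 rfl)).1
  exact ⟨⟨h, Or.inr ⟨[], ⟨w, rfl⟩⟩⟩, ⟨w, rfl⟩⟩

end Pool.Agent.Lib.MP_d48993_lc.Ba.Rem
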