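import Pool.Agent.Lib.MP_d48993_lc.BAE.Rem.Gmain
import Pool.Agent.Lib.MP_d48993_lc.BAE.Gr.Stm2
import Pool.Agent.Lib.MP_d48993_lc.BAE.Rig.Tne

/-!
# Part R, final form: definitions and the input from part T

`NEP`: the lemma NE for the known point `s`; `NES`: the lemma NE for the known share `o` (a column
`P.p ≤ o < P.p + P.q`). `DecR`: the generic tuple decides the sets of part R.
-/

set_option autoImplicit false

open Pool.Agent.Lib.MP_d48993_lc.Ba.Gr (Par Gph Prs fj jn VL us)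

namespace Pool.Agent.Lib.MP_d48993_lc.Ba.Rem

open Node
open MP_8c048d_lc (pre join RecF Cop length_pre)
open Ind2 Tup
open Txt (mR ht opn Leg)

/-- A payment at a root is an initial segment of the string which is coded in the root. -/
def TW (r : ℕ) (p : List ℕ) : Prop := p <+: Gr.wd r

/-- The pattern coded by a number. -/
def bt (a : ℕ) : ℕ → Bool := fun s => a.testBit s

/-- The header tree number `hd`. -/
def Thd (P : Par) (hd : ℕ) (q : List ℕ) : Prop := P.Hd hd q = true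

/-- Lemma NE for the known point `s` (header number `hd`). -/
def NEP (P : Par) (G : Gph) (J : ℕ → Bool) (H : ℕ) (V : ℕ → ℕ → ℕ) (s hd : ℕ) : Prop :=
  ∀ (i e : ℕ) (m0 : List (List ℕ)), Tru P (Gr.Ps P G) J H V (P.Φ i) (UU P e) m0 →
    ∃ (lam : ℕ) (E : List ℕ) (cu : Cnd3) (zu : St) (tu : ℕ), 0 ∉ E ∧
      Base (VL G s) (us G s) (Gr.blk P.p) TW 0 (TE P.Tr E) cu zu tu ∧
      Txt.Le (P.Hd hd) lam cu.1 (cu.1 ++ [mR lam []]) ∧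
      NE (VL G s) (us G s) (Gr.blk P.p) TW 0 (TE P.Tr E) (UU P e) (Txt.Le (P.Hd hd)) mR lam cu tu
        (Cn P.p (Gr.Ps P G) (kn P J)) (vo P J H V s (P.Φ i)) m0

/-- Lemma NE for the known share `o` (header number `hd`). -/
def NES (P : Par) (G : Gph) (J : ℕ → Bool) (H : ℕ) (V : ℕ → ℕ → ℕ) (o hd : ℕ) : Prop :=
  ∀ (i e : ℕ) (m0 : List (List ℕ)), Tru P (Gr.Ps P G) J H V (P.Φ i) (UU P e) m0 →
    ∃ w : List ℕ, Leg (P.Hd hd) w ∧ opn (P.Hd hd) w = none ∧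
      NeS P (Gr.Ps P G) J H V o (P.Φ i) (UU P e) (P.Hd hd) (ht (P.Hd hd) w)
        (Txt.FR (P.Hd hd) w) m0

/-- Module RINST: the graphs of the construction are graphs in the sense of part R. -/
def InstStatement : Prop :=
  ∀ P : Par, P.Ok → ∀ G : Gph, Gr.Lim4 P G → ∀ s < P.p,
    Gr (VL G s) (us G s) (Gr.blk P.p) ∧ AccV (VL G s) (us G s) ∧ CarryV (VL G s) ∧
    (∀ σ, Reg (VL G s) (us G s) (Gr.blk P.p) TW 0 σ ↔ Gr.RL P G s σ) ∧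
    (∀ σ, Gr.Ps P G s σ ↔ Pc (VL G s) (us G s) (Gr.blk P.p) TW 0 σ) ∧
    ∀ t (x y : St), x.1 = G.u t s → y.1 = G.u (t + 1) s →
      (Lk (Gr.blk P.p) TW t x y ↔ Gr.Link P t x y)

/-- Module NBR (from RINST, BLK, LIMF): the lemma NE of part T is the lemma NE of part R. -/
def NbrStatement : Prop :=
  ∀ P : Par, P.Ok → ∀ G : Gph, Gr.Lim4 P G → ∀ s < P.p, ∀ (hd : ℕ) (J : ℕ → Bool) (H : ℕ)
    (V : ℕ → ℕ → ℕ) (φ : List ℕ → List ℕ) (U : List ℕ → Prop) (z : Txt.St3)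
    (m0 : List (List ℕ)), (∀ σ τ, σ <+: τ → φ σ <+: φ τ) →
    (∀ σ τ : List ℕ, U τ → σ <+: τ → U σ) → m0.length = P.p → Txt.PInv P G s hd z →
    opn (P.Hd hd) z.txt = none → Txt.NeP P G s hd (Gr.Ps P G) J H V φ U z m0 →
    ∃ (zu : St) (tu : ℕ),
      Base (VL G s) (us G s) (Gr.blk P.p) TW 0 (TE P.Tr z.E) z.c zu tu ∧
      Txt.Le (P.Hd hd) (ht (P.Hd hd) z.txt) z.c.1 (z.c.1 ++ [mR (ht (P.Hd hd) z.txt) []]) ∧
      NE (VL G s) (us G s) (Gr.blk P.p) TW 0 (TE P.Tr z.E) U (Txt.Le (P.Hd hd)) mR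
        (ht (P.Hd hd) z.txt) z.c tu (Cn P.p (Gr.Ps P G) (kn P J)) (vo P J H V s φ) m0

/-- The generic tuple decides the sets of part R. -/
structure DecR (P : Par) (G : Gph) (V O : ℕ → ℕ → ℕ) : Prop where
  r1 : ∀ a H i e, Dcd P.p (Gr.Ps P G) (kn P (bt a)) O (DR1 P (bt a) H V (P.Φ i) (UU P e))
  r2 : ∀ a H i, Dcd P.p (Gr.Ps P G) (kn P (bt a)) O (DR2 P (Gr.Ps P G) (bt a) H V (P.Φ i))
  t : ∀ a s hd lam E cu tu m0, Dcd P.p (Gr.Ps P G) (kn P (rmv (bt a) s)) O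
    (DT (VL G s) (us G s) (Gr.blk P.p) TW 0 (TE P.Tr E) (Thd P hd) (Txt.Le (P.Hd hd)) mR lam cu
      tu (Cn P.p (Gr.Ps P G) (kn P (bt a))) m0 P (bt a) s)
  a : ∀ a H s i hd lam E b, Dcd P.p (Gr.Ps P G) (kn P (rmv (bt a) s)) O
    (DA (TE P.Tr E) (Txt.Le (P.Hd hd)) lam P (bt a) H V s (P.Φ i) b)
  s : ∀ a H o i hd lam k m, Dcd P.p (Gr.Ps P G) (kn P (bt a)) O
    (DS P (bt a) H V o (P.Φ i) (P.Hd hd) lam k m)

/-- The indices of the sets of part R. -/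
abbrev IxR : Type :=
  (ℕ × ℕ × ℕ × ℕ) ⊕ (ℕ × ℕ × ℕ) ⊕ (ℕ × ℕ × ℕ × ℕ × List ℕ × Cnd3 × ℕ × List (List ℕ)) ⊕
  (ℕ × ℕ × ℕ × ℕ × ℕ × ℕ × List ℕ × Cf) ⊕ (ℕ × ℕ × ℕ × ℕ × ℕ × ℕ × List ℕ × ℕ)

instance : Countable IxR := inferInstance

/-- The known colours of the sets of part R. -/
def KR (P : Par) : IxR → List ℕ
  | .inl x => kn P (bt x.1)
  | .inr (.inl x) => kn P (bt x.1)
  | .inr (.inr (.inl x)) => kn P (rmv (bt x.1) x.2.1)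
  | .inr (.inr (.inr (.inl x))) => kn P (rmv (bt x.1) x.2.2.1)
  | .inr (.inr (.inr (.inr x))) => kn P (bt x.1)

/-- The sets of part R. -/
def SR (P : Par) (G : Gph) (V : ℕ → ℕ → ℕ) : IxR → List (List ℕ) → Prop
  | .inl x => DR1 P (bt x.1) x.2.1 V (P.Φ x.2.2.1) (UU P x.2.2.2)
  | .inr (.inl x) => DR2 P (Gr.Ps P G) (bt x.1) x.2.1 V (P.Φ x.2.2)
  | .inr (.inr (.inl x)) => DT (VL G x.2.1) (us G x.2.1) (Gr.blk P.p) TW 0
      (TE P.Tr x.2.2.2.2.1) (Thd P x.2.2.1) (Txt.Le (P.Hd x.2.2.1)) mR x.2.2.2.1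
      x.2.2.2.2.2.1 x.2.2.2.2.2.2.1 (Cn P.p (Gr.Ps P G) (kn P (bt x.1))) x.2.2.2.2.2.2.2 P
      (bt x.1) x.2.1
  | .inr (.inr (.inr (.inl x))) => DA (TE P.Tr x.2.2.2.2.2.2.1) (Txt.Le (P.Hd x.2.2.2.2.1))
      x.2.2.2.2.2.1 P (bt x.1) x.2.1 V x.2.2.1 (P.Φ x.2.2.2.1) x.2.2.2.2.2.2.2
  | .inr (.inr (.inr (.inr x))) => DS P (bt x.1) x.2.1 V x.2.2.1 (P.Φ x.2.2.2.1)
      (P.Hd x.2.2.2.2.1) x.2.2.2.2.2.1 x.2.2.2.2.2.2.1 x.2.2.2.2.2.2.2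

theorem DecR.of {P : Par} {G : Gph} {V O : ℕ → ℕ → ℕ}
    (h : ∀ x : IxR, Dcd P.p (Gr.Ps P G) (KR P x) O (SR P G V x)) : DecR P G V O where
  r1 a H i e := h (.inl (a, H, i, e))
  r2 a H i := h (.inr (.inl (a, H, i)))
  t a s hd lam E cu tu m0 := h (.inr (.inr (.inl (a, s, hd, lam, E, cu, tu, m0))))
  a a H s i hd lam E b := h (.inr (.inr (.inr (.inl (a, H, s, i, hd, lam, E, b)))))
  s a H o i hd lam k m := h (.inr (.inr (.inr (.inr (a, H, o, i, hd, lam, k, m)))))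

end Pool.Agent.Lib.MP_d48993_lc.Ba.Rem
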