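import Pool.Agent.Lib.MP_d48993_lc.BAE.Rem.Ora
import Pool.Agent.Lib.MP_d48993_lc.BAE.Rem.Sh
import Pool.Agent.Lib.MP_d48993_lc.AE.Node.Decv
import Pool.Agent.Lib.MP_d48993_lc.AE.Node.Codes

/-!
# Part R: theorem PROC (finding 4183, (R2.5)) for the conditions of `Tup`

The real `VR s` is removed from the pattern `(J, H)`; the driver is the generic real `O s`, i.e.
the column `s` of the conditions of the pattern `(J - s, H)`.
-/

set_option autoImplicit false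

open Pool.Agent.Lib.MP_d48993_lc.Ba.Gr (Par Prs fj jn)

namespace Pool.Agent.Lib.MP_d48993_lc.Ba.Rem

open Node
open MP_8c048d_lc (pre join RecF Cop length_pre pre_take pre_getElem?)
open Ind2 Tup

variable {V : ℕ → Prop} {u blk : ℕ → ℕ} {TB : ℕ → List ℕ → Prop} {N : ℕ} {T Th U : List ℕ → Prop}
  {le : ℕ → List ℕ → List ℕ → Prop} {R : ℕ → List ℕ → ℕ} {lam : ℕ} {cu : Cnd3} {tu : ℕ}
  {Q : List (List ℕ) → Prop} {φ : List ℕ → List (List ℕ) → List ℕ} {m0 : List (List ℕ)}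

/-- THEOREM PROC, abstract form. `Bd` and `Bm`: the strings below the real of the driver and the
conditions below the other reals. -/
theorem proc_abs (hG : Gr V u blk) (hA : AccV V u)
    (hN : NE V u blk TB N T U le R lam cu tu Q φ m0) (hE : Ev U φ) (hT : Tx T Th le R lam)
    (hTc : ComputablePred T) (hle : ComputablePred fun p : List ℕ × List ℕ => le (lam + 1) p.1 p.2)
    (hR : Computable (R lam)) {Z : ℕ → ℕ}
    (hφ : SgF Z (fun a : List ℕ × List (List ℕ) => φ a.1 a.2))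
    {Bd : List ℕ → Prop} {Bm : List (List ℕ) → Prop} (hBd : Sg Z Bd) (hBm : Sg Z Bm)
    (hreg : ∀ σ, Bd σ → Reg V u blk TB N σ) (hQ : ∀ m, Bm m → ∃ m', Q m' ∧ Mle m m')
    {g : ℕ → ℕ} (hg : ∀ k, Th (pre g k)) (hgZ : Red g Z)
    (st : ∃ a, Gd V u blk TB N T Th le R lam cu tu Q m0 [] a ∧ Bd a.sg ∧ Bm a.m)
    (gr : ∀ i a, Gd V u blk TB N T Th le R lam cu tu Q m0 (pre g i) a → Bd a.sg → Bm a.m →
      ∃ b : Cf, Pre T le lam a b ∧ (φ a.c.1 a.m).length < (φ b.c.1 b.m).length ∧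
        Bd b.sg ∧ Bm b.m) :
    ∃ f : ℕ → ℕ, Red f Z ∧ ∀ k, U (pre f k) := by
  obtain ⟨a0, s1, s2, s3⟩ := st
  let Nx : Cf × ℕ → Cf × ℕ → Prop := fun a a' => a'.2 = a.2 + 1 ∧ ∃ b : Cf, Pre T le lam a.1 b ∧
    (φ a.1.c.1 a.1.m).length < (φ b.c.1 b.m).length ∧ Bd b.sg ∧ Bm b.m ∧
    pay R lam b (pre g (a.2 + 1)) = a'.1
  have c1 : Computable fun a : Cf => a.c.1 :=
    Computable.fst.comp (Computable.snd.comp Computable.snd)
  have c2 : Computable fun a : Cf => a.m := Computable.fst.comp Computable.snd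
  have sgo : SgF Z (fun a : Cf => φ a.c.1 a.m) :=
    hφ.comp₁ (g := fun a : Cf => (a.c.1, a.m)) (c1.pair c2)
  have hlt : ComputablePred (fun p : ℕ × ℕ => p.1 < p.2) :=
    PrimrecPred.computablePred (PrimrecRel.comp Primrec.nat_lt Primrec.fst Primrec.snd)
  have sgN : Sg Z (fun p : (Cf × ℕ) × (Cf × ℕ) => Nx p.1 p.2) := by
    refine sgAnd ?_ (sgEx (P := fun (p : (Cf × ℕ) × (Cf × ℕ)) (b : Cf) => Pre T le lam p.1.1 b ∧
      (φ p.1.1.c.1 p.1.1.m).length < (φ b.c.1 b.m).length ∧ Bd b.sg ∧ Bm b.m ∧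
      pay R lam b (pre g (p.1.2 + 1)) = p.2.1) ?_)
    · exact sgCp (MP_8c048d_lc.e3_cp_eq (Computable.snd.comp Computable.snd)
        (Computable.succ.comp (Computable.snd.comp Computable.fst)))
    · have d1 : Computable fun p : ((Cf × ℕ) × (Cf × ℕ)) × Cf => p.1.1.1 :=
        Computable.fst.comp (Computable.fst.comp Computable.fst)
      refine sgAnd ?_ (sgAnd ?_ (sgAnd ?_ (sgAnd ?_ ?_)))
      · exact sgComp (Sg.ofS1 (S1.ofCop (pre_cop codes (decv codes) hTc hle)) Z)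
          (f := fun p : ((Cf × ℕ) × (Cf × ℕ)) × Cf => (p.1.1.1, p.2)) (d1.pair Computable.snd)
      · have h3 : SgF Z (fun p : ((Cf × ℕ) × (Cf × ℕ)) × Cf =>
            ((φ p.1.1.1.c.1 p.1.1.1.m).length, (φ p.2.c.1 p.2.m).length)) :=
          ((sgo.comp₁ d1).comp Computable.list_length).pair
            ((sgo.comp₁ Computable.snd).comp Computable.list_length)
        exact sgSubst (sgCp (Z := Z) hlt) h3
      · exact sgComp hBd (Computable.fst.comp Computable.snd)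
      · exact sgComp hBm (c2.comp Computable.snd)
      · refine SgF.eq ?_ (SgF.ofC (Computable.fst.comp (Computable.snd.comp Computable.fst)))
        have h3 : SgF Z (fun p : ((Cf × ℕ) × (Cf × ℕ)) × Cf => (p.2, pre g (p.1.1.2 + 1))) :=
          (SgF.ofC Computable.snd).pair ((SgF.pre hgZ).comp₁ (g := fun p :
            ((Cf × ℕ) × (Cf × ℕ)) × Cf => p.1.1.2 + 1) (Computable.succ.comp
              (Computable.snd.comp (Computable.fst.comp Computable.fst))))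
        refine h3.comp (g := fun x : Cf × List ℕ => pay R lam x.1 x.2) ?_
        have e1 : Computable fun x : Cf × List ℕ => x.1.2.2.1 ++ [R lam x.2] :=
          Computable.list_concat.comp (Computable.fst.comp (Computable.snd.comp
            (Computable.snd.comp Computable.fst))) (hR.comp Computable.snd)
        exact (Computable.fst.comp Computable.fst).pair ((Computable.fst.comp
          (Computable.snd.comp Computable.fst)).pair (e1.pair (Computable.snd.comp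
            (Computable.snd.comp (Computable.snd.comp Computable.fst)))))
  refine path_of_search (α := Cf × ℕ) (Z := Z) (Nx := Nx) sgN
    (out := fun a => φ a.1.c.1 a.1.m) (sgo.comp₁ Computable.fst) (fun σ τ h1 h2 => hE.pc σ τ h2 h1)
    (fun a => Gd V u blk TB N T Th le R lam cu tu Q m0 (pre g a.2) a.1 ∧ Bd a.1.sg ∧ Bm a.1.m)
    (a0 := (a0, 0)) ⟨s1, s2, s3⟩ (fun a ha => ?_) (fun a ha => ?_) (fun a a' ha hn => ?_)
  · obtain ⟨k, z, t, hk, hk'⟩ := ha.1.complete hG hA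
    obtain ⟨m, hm1, hm2⟩ := ha.1.m1
    have h1 := hN.E k z t hk m hm1 (ha.1.m0.trans hm2)
    refine hE.pc _ _ h1 (hE.mono _ _ _ _ ?_ hm2)
    rw [hk']
  · obtain ⟨b, b1, b2, b3, b4⟩ := gr a.2 a.1 ha.1 ha.2.1 ha.2.2
    exact ⟨(pay R lam b (pre g (a.2 + 1)), a.2 + 1), rfl, b, b1, b2, b3, b4, rfl⟩
  · obtain ⟨e1, b, b1, b2, b3, b4, b5⟩ := hn
    have hp : pre g a.2 ≠ pre g (a.2 + 1) := fun h => by
      have := congrArg List.length h
      rw [length_pre, length_pre] at this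
      omega
    have h1 := ha.1.inv hG hT b1 (hreg _ b3) (hQ _ b4) (pre_mono g (Nat.le_succ _)) hp (hg _)
    have h2 : φ b.c.1 b.m <+: φ a'.1.c.1 a'.1.m := by
      rw [← b5]
      exact hE.mono _ _ _ _ (List.prefix_append _ _) (Mle.refl _)
    have h3 : φ a.1.c.1 a.1.m <+: φ b.c.1 b.m :=
      hE.mono _ _ _ _ (hT.px _ _ _ b1.tx) b1.m
    refine ⟨⟨?_, ?_, ?_⟩, h3.trans h2, lt_of_lt_of_le b2 h2.length_le⟩
    · rw [← b5, e1]; exact h1
    · rw [← b5]; exact b3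
    · rw [← b5]; exact b4

/-! ## Conditions of the patterns `J` and `J - s` -/

/-- The pattern without `s`. -/
def rmv (J : ℕ → Bool) (s : ℕ) : ℕ → Bool := fun c => J c && decide (c ≠ s)

section cond

variable {P : Par} {RG : ℕ → List ℕ → Prop} {J : ℕ → Bool} {s : ℕ} {O : ℕ → ℕ → ℕ}

theorem mem_kn_rmv {l : ℕ} : l ∈ kn P (rmv J s) ↔ l ∈ kn P J ∧ l ≠ s := by
  rw [mem_kn, mem_kn]
  simp [rmv, and_assoc]

/-- The condition for `J - s` with the driver `σ`. -/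
def upc (P : Par) (s : ℕ) (σ : List ℕ) (m : List (List ℕ)) : List (List ℕ) :=
  (List.range P.p).map fun l => if l = s then σ else m.getD l []

/-- The condition for `J`. -/
def dnc (P : Par) (J : ℕ → Bool) (μ : List (List ℕ)) : List (List ℕ) := rsI P.p (kn P J) μ

theorem getD_dnc {μ : List (List ℕ)} {l : ℕ} (hl : l < P.p) :
    (dnc P J μ).getD l [] = if l ∈ kn P J then [] else μ.getD l [] := by
  unfold dnc rsI
  rw [getD_map _ hl]

theorem getD_upc {σ : List ℕ} {m : List (List ℕ)} {l : ℕ} (hl : l < P.p) :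
    (upc P s σ m).getD l [] = if l = s then σ else m.getD l [] := by
  unfold upc
  rw [getD_map _ hl]

theorem cn_dnc {μ : List (List ℕ)} (h : Cn P.p RG (kn P (rmv J s)) μ) :
    Cn P.p RG (kn P J) (dnc P J μ) := by
  refine ⟨by simp [dnc, rsI], fun l hl => ⟨fun h1 => ?_, fun h1 => ?_⟩⟩
  · rw [getD_dnc hl, if_pos h1]
  · rw [getD_dnc hl, if_neg h1]
    exact (h.2 l hl).2 fun h2 => h1 (mem_kn_rmv.1 h2).1

theorem cn_upc {σ : List ℕ} {m : List (List ℕ)} (hs : RG s σ)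
    (h : Cn P.p RG (kn P J) m) : Cn P.p RG (kn P (rmv J s)) (upc P s σ m) := by
  refine ⟨by simp [upc], fun l hl => ⟨fun h1 => ?_, fun h1 => ?_⟩⟩
  · rw [mem_kn_rmv] at h1
    rw [getD_upc hl, if_neg h1.2]
    exact (h.2 l hl).1 h1.1
  · rw [getD_upc hl]
    by_cases h2 : l = s
    · rw [if_pos h2, h2]; exact hs
    · rw [if_neg h2]
      exact (h.2 l hl).2 fun h3 => h1 (mem_kn_rmv.2 ⟨h3, h2⟩)

theorem mle_of_lep {m m' : List (List ℕ)} (h1 : m.length = P.p) (h2 : m'.length = P.p)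
    (h : Lep P.p m m') : Mle m m' :=
  (mle_iff m m').2 ⟨h1.trans h2.symm, fun i hi => h i (by
    rw [List.mem_range, h1] at hi; exact hi)⟩

theorem lep_of_mle {m m' : List (List ℕ)} (h : Mle m m') : Lep P.p m m' := by
  intro l _
  obtain ⟨h1, h2⟩ := (mle_iff m m').1 h
  by_cases hl : l < m.length
  · exact h2 l (List.mem_range.2 hl)
  · rw [List.getD_eq_getElem?_getD, List.getElem?_eq_none (not_lt.1 hl)]
    exact List.nil_prefix

theorem lep_dnc {μ μ' : List (List ℕ)} (h : Lep P.p μ μ') : Lep P.p (dnc P J μ) (dnc P J μ') := by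
  intro l hl
  rw [getD_dnc hl, getD_dnc hl]
  split_ifs
  · exact List.prefix_rfl
  · exact h l hl

theorem len_dnc (μ : List (List ℕ)) : (dnc P J μ).length = P.p := by simp [dnc, rsI]

theorem lep_upc {μ : List (List ℕ)} {σ : List ℕ} {m : List (List ℕ)}
    (hμ : Cn P.p RG (kn P (rmv J s)) μ) (h1 : μ.getD s [] <+: σ)
    (h2 : Lep P.p (dnc P J μ) m) : Lep P.p μ (upc P s σ m) := by
  intro l hl
  rw [getD_upc hl]
  by_cases h : l = s
  · rw [if_pos h, h]; exact h1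
  · rw [if_neg h]
    by_cases h3 : l ∈ kn P J
    · rw [(hμ.2 l hl).1 (mem_kn_rmv.2 ⟨h3, h⟩)]
      exact List.nil_prefix
    · have := h2 l hl
      rwa [getD_dnc hl, if_neg h3] at this

theorem dnc_upc {σ : List ℕ} {m : List (List ℕ)} (hs : s ∈ kn P J)
    (h : Cn P.p RG (kn P J) m) : dnc P J (upc P s σ m) = m := by
  apply List.ext_getElem
  · rw [len_dnc, h.1]
  · intro l hl _
    rw [len_dnc] at hl
    have h3 : (dnc P J (upc P s σ m)).getD l [] = m.getD l [] := by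
      rw [getD_dnc hl, getD_upc hl]
      by_cases h4 : l ∈ kn P J
      · rw [if_pos h4]; exact ((h.2 l hl).1 h4).symm
      · rw [if_neg h4, if_neg]
        rintro rfl
        exact h4 hs
    simpa [List.getD_eq_getElem?_getD, len_dnc, hl, h.1] using h3

theorem getD_upc_self {σ : List ℕ} {m : List (List ℕ)} (hs : s < P.p) :
    (upc P s σ m).getD s [] = σ := by
  rw [getD_upc hs, if_pos rfl]

/-- The other columns of a condition below `O`. -/
theorem blc_of_mle {μ : List (List ℕ)} (h : Blw P.p O μ) {m : List (List ℕ)}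
    (hm : Mle m (dnc P J μ)) : Blc P.p (kn P J) O m := by
  have hl : m.length = P.p := (((mle_iff m _).1 hm).1).trans (len_dnc μ)
  have hp := lep_of_mle (P := P) hm
  have key : ∀ l < P.p, l ∈ kn P J → m.getD l [] = [] := by
    intro l hl' h1
    have := hp l hl'
    rw [getD_dnc hl', if_pos h1] at this
    exact List.prefix_nil.1 this
  refine ⟨hl, key, fun l hl' => ?_⟩
  by_cases h1 : l ∈ kn P J
  · exact ⟨0, key l hl' h1⟩
  · have h2 := hp l hl'
    rw [getD_dnc hl', if_neg h1] at h2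
    obtain ⟨k, hk⟩ := h l hl'
    rw [hk] at h2
    refine ⟨(m.getD l []).length, ?_⟩
    have h3 := h2.length_le
    rw [length_pre] at h3
    have h4 := List.prefix_iff_eq_take.1 h2
    rw [pre_take, min_eq_left h3] at h4
    exact h4

theorem lep_dnc_right {m μ : List (List ℕ)} (h : ∀ l < P.p, l ∈ kn P J → m.getD l [] = [])
    (h1 : ∀ l < P.p, l ∉ kn P J → m.getD l [] <+: μ.getD l []) : Lep P.p m (dnc P J μ) := by
  intro l hl
  rw [getD_dnc hl]
  split_ifs with h2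
  · rw [h l hl h2]
  · exact h1 l hl h2

/-- A string below `O s` and a condition below `O`. -/
theorem blc_upc {σ : List ℕ} {m : List (List ℕ)} (h : ∃ k, σ = pre (O s) k)
    (hm : Blc P.p (kn P J) O m) : Blc P.p (kn P (rmv J s)) O (upc P s σ m) := by
  refine ⟨by simp [upc], fun l hl h1 => ?_, fun l hl => ?_⟩
  · rw [mem_kn_rmv] at h1
    rw [getD_upc hl, if_neg h1.2]
    exact hm.2.1 l hl h1.1
  · rw [getD_upc hl]
    by_cases h2 : l = s
    · rw [if_pos h2, h2]; exact h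
    · rw [if_neg h2]; exact hm.2.2 l hl

end cond

/-! ## The theorem -/

section inst

variable {P : Par} {RG : ℕ → List ℕ → Prop} {J : ℕ → Bool} {H : ℕ} {VR O : ℕ → ℕ → ℕ} {s : ℕ}
  {φ₀ : List ℕ → List ℕ}

/-- The value of a text in the column `s`. -/
def vo (P : Par) (J : ℕ → Bool) (H : ℕ) (VR : ℕ → ℕ → ℕ) (s : ℕ) (φ₀ : List ℕ → List ℕ)
    (w : List ℕ) (m : List (List ℕ)) : List ℕ := φ₀ (mo P J H VR w.length m s w)

theorem ev_vo (hp : 0 < P.p) (hφ : ∀ σ τ, σ <+: τ → φ₀ σ <+: φ₀ τ)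
    (hU : ∀ σ τ : List ℕ, U τ → σ <+: τ → U σ) : Ev U (vo P J H VR s φ₀) :=
  ⟨fun _ _ _ _ hw hm => hφ _ _ (mo_mono hp hw.length_le (lep_of_mle hm) s hw), hU⟩

theorem sg_vo {Z : ℕ → ℕ} (hφc : Computable φ₀)
    (hVZ : ∀ c < P.p + P.q, Gr.Tx P J H c = true → c ≠ s → Red (VR c) Z) :
    SgF Z (fun a : List ℕ × List (List ℕ) => vo P J H VR s φ₀ a.1 a.2) :=
  ((sgF_mo hVZ).comp hφc).comp₁ (g := fun a : List ℕ × List (List ℕ) => (a.1, a.2, a.1.length))
    (Computable.fst.pair (Computable.snd.pair (Computable.list_length.comp Computable.fst)))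

/-- The sets which the generic tuple has to decide: start. -/
def DT (V : ℕ → Prop) (u blk : ℕ → ℕ) (TB : ℕ → List ℕ → Prop) (N : ℕ) (T Th : List ℕ → Prop)
    (le : ℕ → List ℕ → List ℕ → Prop) (R : ℕ → List ℕ → ℕ) (lam : ℕ) (cu : Cnd3) (tu : ℕ)
    (Q : List (List ℕ) → Prop) (m0 : List (List ℕ)) (P : Par) (J : ℕ → Bool) (s : ℕ)
    (μ : List (List ℕ)) : Prop :=
  ∃ a : Cf, Gd V u blk TB N T Th le R lam cu tu Q m0 [] a ∧ a.sg <+: μ.getD s [] ∧
    Mle a.m (dnc P J μ)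

/-- The sets which the generic tuple has to decide: steps. -/
def DA (T : List ℕ → Prop) (le : ℕ → List ℕ → List ℕ → Prop) (lam : ℕ) (P : Par)
    (J : ℕ → Bool) (H : ℕ) (VR : ℕ → ℕ → ℕ) (s : ℕ) (φ₀ : List ℕ → List ℕ) (a : Cf)
    (μ : List (List ℕ)) : Prop :=
  ∃ b : Cf, Pre T le lam a b ∧
    (vo P J H VR s φ₀ a.c.1 a.m).length < (vo P J H VR s φ₀ b.c.1 b.m).length ∧
    b.sg <+: μ.getD s [] ∧ Mle b.m (dnc P J μ)

/-- A set which is met above every condition (above a given pair) is met below `O`. -/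
theorem meet (hs : s < P.p) (hJs : J s = true)
    (hO : ∀ l < P.p, ∀ n, ∃ k ≥ n, RG l (pre (O l) k)) {D : Cf → Prop}
    (hd : Dcd P.p RG (kn P (rmv J s)) O (fun μ => ∃ b : Cf, D b ∧ b.sg <+: μ.getD s [] ∧
      Mle b.m (dnc P J μ))) {σ0 : List ℕ} {m1 : List (List ℕ)} (h1 : ∃ k, σ0 = pre (O s) k)
    (h2 : Blc P.p (kn P J) O m1)
    (h : ∀ σ m, RG s σ → σ0 <+: σ → Cn P.p RG (kn P J) m → Mle m1 m → ∃ b : Cf, D b ∧
      σ <+: b.sg ∧ RG s b.sg ∧ Cn P.p RG (kn P J) b.m ∧ Mle m b.m) :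
    ∃ b : Cf, D b ∧ (∃ k, b.sg = pre (O s) k) ∧ Blc P.p (kn P J) O b.m := by
  have hsk : s ∈ kn P J := mem_kn.2 ⟨hs, hJs⟩
  have hsk' : s ∉ kn P (rmv J s) := fun h => (mem_kn_rmv.1 h).2 rfl
  obtain ⟨μ, a1, a2, a3⟩ := hd
  rcases a3 with ⟨b, b1, b2, b3⟩ | a3
  · refine ⟨b, b1, ?_, blc_of_mle a2 b3⟩
    obtain ⟨k, hk⟩ := a2 s hs
    rw [hk] at b2
    refine ⟨b.sg.length, ?_⟩
    have h3 := b2.length_le
    rw [length_pre] at h3
    have h4 := List.prefix_iff_eq_take.1 b2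
    rw [pre_take, min_eq_left h3] at h4
    exact h4
  · exfalso
    obtain ⟨ξ, c1, -, c3, c4⟩ := Blc.long hO (blc_upc (s := s) h1 h2) a1 a2
    have c5 : σ0 <+: ξ.getD s [] := by
      have := c3 s hs
      rwa [getD_upc_self hs] at this
    have c6 : Lep P.p m1 (dnc P J ξ) := by
      refine lep_dnc_right h2.2.1 fun l hl h3 => ?_
      have h4 := c3 l hl
      rw [getD_upc hl, if_neg] at h4
      · exact h4
      · rintro rfl; exact h3 hsk
    have c7 : Mle m1 (dnc P J ξ) := mle_of_lep h2.1 (len_dnc ξ) c6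
    obtain ⟨b, d1, d2, d3, d4, d5⟩ := h _ _ ((c1.2 s hs).2 hsk') c5 (cn_dnc c1) c7
    refine a3 (upc P s b.sg b.m) (cn_upc d3 d4) (c4.trans (lep_upc c1 d2 (lep_of_mle d5)))
      ⟨b, d1, ?_, ?_⟩
    · rw [getD_upc_self hs]
    · rw [dnc_upc hsk d4]; exact Mle.refl _

/-- THEOREM PROC: the known real of the colour `s` is removed with a path `g` of the tree of the
payments. -/
theorem procP (hp : 0 < P.p) (hs : s < P.p) (hJs : J s = true) (hG : Gr V u blk) (hA : AccV V u)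
    (hC : CarryV V) (hRG : ∀ σ, RG s σ ↔ Pc V u blk TB N σ)
    (hO : ∀ l < P.p, ∀ n, ∃ k ≥ n, RG l (pre (O l) k))
    (hφ : ∀ σ τ, σ <+: τ → φ₀ σ <+: φ₀ τ) (hφc : Computable φ₀)
    (hU : ∀ σ τ : List ℕ, U τ → σ <+: τ → U σ)
    (hN : NE V u blk TB N T U le R lam cu tu (Cn P.p RG (kn P J)) (vo P J H VR s φ₀) m0)
    (hT : Tx T Th le R lam) {zu : St} (hB : Base V u blk TB N T cu zu tu)
    (hlam : le lam cu.1 (cu.1 ++ [R lam []])) (hTc : ComputablePred T)
    (hle : ComputablePred fun p : List ℕ × List ℕ => le (lam + 1) p.1 p.2)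
    (hR : Computable (R lam)) (h1 : Cn P.p RG (kn P J) m0) (h2 : Blw P.p O m0)
    (hd0 : Dcd P.p RG (kn P (rmv J s)) O
      (DT V u blk TB N T Th le R lam cu tu (Cn P.p RG (kn P J)) m0 P J s))
    (hd1 : ∀ a, Dcd P.p RG (kn P (rmv J s)) O (DA T le lam P J H VR s φ₀ a))
    {Z : ℕ → ℕ} (hOZ : ∀ l < P.p, l ∉ kn P (rmv J s) → Red (O l) Z)
    (hVZ : ∀ c < P.p + P.q, Gr.Tx P J H c = true → c ≠ s → Red (VR c) Z)
    {g : ℕ → ℕ} (hg : ∀ k, Th (pre g k)) (hgZ : Red g Z) :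
    ∃ f : ℕ → ℕ, Red f Z ∧ ∀ k, U (pre f k) := by
  have hsk' : s ∉ kn P (rmv J s) := fun h => (mem_kn_rmv.1 h).2 rfl
  have hE : Ev U (vo P J H VR s φ₀) := ev_vo hp hφ hU
  have hb0 : Blc P.p (kn P J) O m0 := Blc.of h1 h2
  have hlong : ∀ m, Blc P.p (kn P J) O m → ∃ m', Cn P.p RG (kn P J) m' ∧ Mle m m' := by
    intro m hm
    obtain ⟨m', c1, -, c3, -⟩ := Blc.long hO hm h1 h2
    exact ⟨m', c1, mle_of_lep hm.1 c1.1 c3⟩
  refine proc_abs hG hA hN hE hT hTc hle hR (sg_vo hφc hVZ)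
    (Bd := fun σ => ∃ k, σ = pre (O s) k) (Bm := fun m => Blc P.p (kn P J) O m) ?_
    (sg_blc fun l hl h3 => hOZ l hl fun h4 => h3 (mem_kn_rmv.1 h4).1) ?_ hlong hg hgZ ?_ ?_
  · exact sgEx (P := fun (σ : List ℕ) k => σ = pre (O s) k)
      (SgF.eq (SgF.ofC Computable.fst) ((SgF.pre (hOZ s hs hsk')).comp₁ Computable.snd))
  · rintro σ ⟨k, rfl⟩
    obtain ⟨k', h3, h4⟩ := hO s hs k
    exact hG.reg_pfx ((hRG _).1 h4).1 (pre_mono _ h3)
  · refine meet hs hJs hO hd0 (σ0 := []) ⟨0, rfl⟩ hb0 fun σ m c1 _ c3 c4 => ?_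
    obtain ⟨a, e1, e2, e3, e4⟩ := hB.start hG hA hT hlam (hg 0) ((hRG σ).1 c1) c3 c4
    exact ⟨a, e1, e2, (hRG _).2 e3, by rw [e4]; exact c3, by rw [e4]; exact Mle.refl _⟩
  · intro i a ha hb hm
    obtain ⟨b, ⟨b1, b2⟩, b3, b4⟩ := meet (D := fun b : Cf => Pre T le lam a b ∧
        (vo P J H VR s φ₀ a.c.1 a.m).length < (vo P J H VR s φ₀ b.c.1 b.m).length) hs hJs hO (by
          have h3 : DA T le lam P J H VR s φ₀ a = fun μ => ∃ b : Cf, (Pre T le lam a b ∧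
            (vo P J H VR s φ₀ a.c.1 a.m).length < (vo P J H VR s φ₀ b.c.1 b.m).length) ∧
            b.sg <+: μ.getD s [] ∧ Mle b.m (dnc P J μ) := by
            funext μ
            simp only [DA, and_assoc]
          rw [← h3]; exact hd1 a) hb hm fun σ m c1 c2 c3 c4 => by
        obtain ⟨b, e1, e2, e3, e4, e5, e6⟩ := ha.step hG hC hN hE hT ((hRG σ).1 c1) c2 c3 c4
        exact ⟨b, ⟨e5, e6⟩, e1, (hRG _).2 e2, e3, e4⟩
    exact ⟨b, b1, b2, b3, b4⟩

end inst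

end Pool.Agent.Lib.MP_d48993_lc.Ba.Rem
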