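import Pool.Agent.Lib.MP_d48993_lc.BAE.Rem.Basic
import Pool.Agent.Lib.MP_d48993_lc.BAE.Gr.LimF
import Pool.Agent.Lib.MP_d48993_lc.BAE.Gr.BlkS
import Pool.Agent.Lib.MP_d48993_lc.AE.Node.Accan
import Pool.Agent.Lib.MP_d48993_lc.AE.Node.Own
import Pool.Agent.Lib.MP_d48993_lc.AE.Node.Carry
import Pool.Agent.Lib.MP_d48993_lc.BAE.Rem.FinI

/-!
# Part R: the instance for the graphs of part G (module RINST)

`gr`: the record `Rem.Gr` for a colour of the construction; `carryV`, `accV`; the translations of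
links, regular strings, forcing conditions, conditions, bases and coned extensions.
-/

set_option autoImplicit false

namespace Pool.Agent.Lib.MP_d48993_lc.Ba.Rem.Inst

open Node
open Pool.Agent.Lib.MP_d48993_lc.Ba.Gr (Par Gph VL us LEs Lim4 RL)
open Node.Proc (endd_append endd_snoc ch_end ch_append ch_pfx)

theorem hB : BasicStatement := Node.basic Node.codes
theorem hM : MonoStatement := Node.mono Node.codes hB
theorem hO : OwnStatement := Node.own hB

/-! ### Strings and passed states -/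

theorem ps_iff {σ : List ℕ} {x : St} : Ps σ x ↔ ∃ ν, ν <+: σ ∧ ν ≠ [] ∧ endd o ν = x := by
  constructor
  · rintro ⟨s, hs, rfl⟩
    obtain ⟨α, β, rfl⟩ := List.append_of_mem hs
    exact ⟨α ++ [s], ⟨β, by simp⟩, by simp, endd_snoc _ _ _⟩
  · rintro ⟨ν, hν, hne, rfl⟩
    exact ps_mono hν (endd_mem hne)

theorem ps_of_pfx {σ ν : List ℕ} (h : ν <+: σ) (hr : 0 < (endd o ν).1) : Ps σ (endd o ν) :=
  ps_mono h (ps_endd hr)

theorem at_iff {z : St} {c : Cnd3} : At z c ↔ Gr.At z c :=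
  ⟨fun h => ⟨h.en, h.inj⟩, fun h => ⟨h.en, h.inj⟩⟩

theorem lv_lg {x v : St} : Lv x v ↔ Gr.Lg x v := Iff.rfl

theorem pay_eq {x : St} (hx : 1 ≤ x.2.length) : Gr.pay x = pyd x := by
  unfold Gr.pay pyd
  cases hl : x.2 with
  | nil => rw [hl] at hx; simp at hx
  | cons a l => simp [Gr.str, Denumerable.decode_eq_ofNat]

theorem head_iff {x y : St} (hx : 1 ≤ x.2.length) (hy : 1 ≤ y.2.length) :
    y.2.head? = x.2.head? ↔ y.2.headD 0 = x.2.headD 0 := by
  cases hl : x.2 with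
  | nil => rw [hl] at hx; simp at hx
  | cons a l =>
    cases hm : y.2 with
    | nil => rw [hm] at hy; simp at hy
    | cons b m => simp

section lim

variable {P : Par} {G : Gph} {s : ℕ}

/-! ### Symbols of the limit -/

/-- Finitely many valid symbols are valid at one stage. -/
theorem common (h : Lim4 P G) (hs : s < P.p) (l : List ℕ) (hl : ∀ g ∈ l, VL G s g) :
    ∃ t, ∀ g ∈ l, VS (G.d t s).W g := by
  induction l with
  | nil => exact ⟨0, fun g hg => absurd hg List.not_mem_nil⟩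
  | cons a l ih =>
    obtain ⟨t, ht⟩ := ih fun g hg => hl g (List.mem_cons_of_mem _ hg)
    obtain ⟨t', ht'⟩ := hl a List.mem_cons_self
    refine ⟨max t t', fun g hg => ?_⟩
    rcases List.mem_cons.1 hg with rfl | h1
    · exact Gr.LimF.vs_mono hM h hs (le_max_right _ _) ht'
    · exact Gr.LimF.vs_mono hM h hs (le_max_left _ _) (ht g h1)

theorem lv_iff (h : Lim4 P G) (hs : s < P.p) {σ : List ℕ} : LV (VL G s) σ ↔ LEs G s σ := by
  constructor
  · rintro ⟨h1, h2⟩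
    obtain ⟨t, ht⟩ := common h hs σ h2
    exact ⟨t, h1, ht⟩
  · rintro ⟨t, h1, h2⟩
    exact ⟨h1, fun g hg => ⟨t, h2 g hg⟩⟩

theorem rt_lt (h : Lim4 P G) (hs : s < P.p) {r t : ℕ} (hr : Rt (VL G s) (us G s) r)
    (hu : r < G.u t s) : r < G.nb t s := by
  rcases hr with ⟨t', rfl⟩ | ⟨g, hg, rfl⟩
  · have h0 : t' < t := by
      by_contra h1
      rcases Nat.lt_or_eq_of_le (Nat.le_of_not_lt h1) with h2 | h2
      · have := Gr.LimF.u_mono hM h hs h2
        have h3 : G.u t' s < G.u t s := hu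
        omega
      · subst h2
        exact absurd hu (lt_irrefl _)
    exact Gr.LimF.nb_lt hM h hs h0
  · by_contra h1
    have hN := Gr.LimF.u_lt hM h hs (show t < t + 1 by omega)
    have h2 := Gr.LimF.vs_loc hB hM h hs hg (t := t + 1) (by omega)
    have h3 := (hB _ (Ltree.dfit (G.d (t + 1) s))).1 g h2
    have := h.gap t s hs _ _ h3 (by omega)
    omega

/-- The instance. -/
theorem gr (hP : P.Ok) (h : Lim4 P G) (hs : s < P.p) :
    Gr (VL G s) (us G s) (Gr.blk P.p) where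
  upos t := by
    have h1 := (h.root t s hs).1
    have h2 := (h.root t s hs).2.1
    have h3 := (h.good t s hs).wf.pos
    show 0 < G.u t s
    omega
  umono t := Gr.LimF.u_mono hM h hs (Nat.lt_succ_self t)
  bstep t := (Gr.blkS P.p hP.pos).2.1 t
  bunb n := by
    obtain ⟨-, -, h1, -⟩ := Gr.blkS P.p hP.pos
    refine ⟨Gr.fst P.p (max n 2), ?_⟩
    rw [(h1 (max n 2) (le_max_right _ _)).1]
    exact le_max_left _ _
  big t := (h.root t s hs).2.2.2.2.2
  szm t r hr hu := by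
    have h1 := rt_lt h hs hr hu
    have h2 := h.nbs t s hs
    have h3 : sz r ≤ r := Nat.unpair_left_le r
    show sz r ≤ sz (G.u t s)
    omega
  edge g hg := by
    obtain ⟨t, ht⟩ := hg
    obtain ⟨h1, h2, h3, -⟩ := Ltree.dfit _ _ _ ((hB _ (Ltree.dfit _)).1 g ht)
    exact ⟨h3, h1, h2⟩
  ap g hg α hα := by
    obtain ⟨t, ht⟩ := hg
    refine ⟨fun s' hs' => ⟨t, (hB _ (Ltree.dfit _)).2.1 g ht α hα s' hs'⟩, ?_⟩
    obtain ⟨h1, h2, h3, -⟩ := Basic.inv codes ht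
    by_cases hr : rk (src g) = 0
    · rw [(h2 hr).1] at hα
      exact absurd hα List.not_mem_nil
    · obtain ⟨β, c, -, -, b3, b4, -, b6⟩ := h3 (Nat.pos_of_ne_zero hr)
      rw [b4] at hα
      obtain ⟨i, hi, rfl⟩ := List.mem_map.1 hα
      rw [List.mem_range] at hi
      obtain ⟨c1, c2, c3⟩ := b6 i hi
      by_cases hi2 : i < 2
      · rw [if_pos hi2] at c3 ⊢
        exact ⟨0, i, ch_append.2 ⟨b3, c3, c2⟩⟩
      · rw [if_neg hi2] at c3 ⊢
        exact ⟨i / 2, i, c3, c2⟩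
  ex g hg p hp := by
    obtain ⟨t, ht⟩ := hg
    obtain ⟨-, -, -, -, -, h1, h2⟩ := Basic.inv codes ht
    obtain ⟨j, -, h3⟩ := h2 p hp
    exact ⟨fun s' hs' => ⟨t, h1 p hp s' hs'⟩, j, h3⟩
  can x y t hx hr hu hy hyu hyl := by
    obtain ⟨g, h1, h2, h3, h4⟩ := h.can t s hs x y hx (rt_lt h hs hr hu) hy hyu hyl
    exact ⟨g, ⟨_, h1⟩, h2, h3, h4⟩
  apc g hg α hα s' hs' hlt := by
    obtain ⟨t, ht⟩ := hg
    obtain ⟨-, h2, h3, -⟩ := Basic.inv codes ht
    by_cases hr : rk (src g) = 0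
    · rw [(h2 hr).1] at hα
      exact absurd hα List.not_mem_nil
    · obtain ⟨β, c, b1, -, b3, b4, -, b6⟩ := h3 (Nat.pos_of_ne_zero hr)
      rw [b4] at hα
      obtain ⟨i, hi, rfl⟩ := List.mem_map.1 hα
      rw [List.mem_range] at hi
      obtain ⟨c1, c2, c3⟩ := b6 i hi
      have hci : (tgt (c i)).1 = (tgt g).1 := by rw [c2]; rfl
      by_cases hi2 : i < 2
      · rw [if_pos hi2] at hs' ⊢
        rcases List.mem_append.1 hs' with h4 | h4
        · have h5 : Gr.Lg (ow (src g) 0) (tgt s') :=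
            (h.good t s hs).lg (ow (src g) 0) β b1 s' h4
          cases β with
          | nil => exact absurd h4 List.not_mem_nil
          | cons b β =>
            have h6 : src b = ow (src g) 0 := b3.1
            show Lv (src b) (tgt s')
            rw [h6]
            exact h5
        · rw [List.mem_singleton.1 h4, hci] at hlt
          exact absurd hlt (lt_irrefl _)
      · rw [if_neg hi2] at hs'
        rw [List.mem_singleton.1 hs', hci] at hlt
        exact absurd hlt (lt_irrefl _)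
  ext g hg hr E hE hE2 := by
    obtain ⟨t, ht⟩ := common h hs (g :: E.flatMap Prod.snd) (by
      intro g' hg'
      rcases List.mem_cons.1 hg' with rfl | h1
      · exact hg
      · obtain ⟨p, hp, h2⟩ := List.mem_flatMap.1 h1
        exact (hE2 p hp).2.1 g' h2)
    refine ⟨t, (hB _ (Ltree.dfit _)).2.2.2.2.2.2.2.2.2 g (ht g List.mem_cons_self) hr E hE
      fun p hp => ?_⟩
    obtain ⟨h1, h2, j, hj, h3⟩ := hE2 p hp
    exact ⟨h1, j, hj, h3, fun s' hs' => ht s' (List.mem_cons_of_mem _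
      (List.mem_flatMap.2 ⟨p, hp, hs'⟩))⟩

/-- Module CARRY. -/
theorem carryV (h : Lim4 P G) (hs : s < P.p) : CarryV (VL G s) := by
  intro σ τ L h1 h2 h3 h4
  obtain ⟨f, h5, h6, h7⟩ := Proc.carry_two' (fun t => G.d t s) (us G s)
    (Gr.LimF.limD codes hB hM h hs) σ τ L
    ((lv_iff h hs).1 h1) (fun p hp => (lv_iff h hs).1 (h2 p hp)) h3 h4
  refine ⟨f, fun p hp => ?_, h6, h7⟩
  obtain ⟨a, b, c, d, -⟩ := h5 p hp
  exact ⟨a, (lv_iff h hs).2 b, c, d⟩

/-- Module ACCAN, for public roots. -/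
theorem accV (h : Lim4 P G) (hs : s < P.p) : AccV (VL G s) (us G s) := by
  intro S z t X hz hAC h0 hS hcl hlt hX hinj
  have hN := Gr.LimF.u_lt hM h hs (show t < t + 1 by omega)
  have hz' : z.1 = G.u t s := hz
  refine Node.accan hB hO (G.d (t + 1) s) S z X (h.good _ s hs).wf hAC h0 (fun ν hν => ?_) hcl
    hlt (fun p hp j hj => ?_) (fun p hp => ?_) hinj
  · exact (Gr.LimF.vstr_loc hB hM h hs ν (t + 1) (by have := hlt ν hν; omega)).1
      ((lv_iff h hs).1 (hS ν hν))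
  · have hpub : z.1 ∈ (G.d (t + 1) s).pub := by
      rw [h.pub t s hs, hz']
      simp
    cases hj with
    | cone _ h1 =>
      have h2 : z.1 = (endd o p.1).1 := h1.1
      have := hlt p.1 (hX p hp).1
      omega
    | own _ w h1 hw =>
      have h2 : ∃ q, (G.d (t + 1) s).ownL.find? (fun p => p.1 = z.1) = some q ∧ q.2 = w :=
        Option.map_eq_some_iff.1 h1
      obtain ⟨q, h3, -⟩ := h2
      have h4 : q.1 = z.1 := by simpa using List.find?_some h3
      exact ((h.good (t + 1) s hs).wf.own q (List.mem_of_find?_eq_some h3)).2 (by rw [h4]; exact hpub)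
  · obtain ⟨h1, h2, h3, h4, j, h5⟩ := hX p hp
    refine ⟨h1, Gr.LimF.vs_loc hB hM h hs h2 ?_, h3, h4, j, h5⟩
    rw [h5]
    show z.1 < _
    omega

/-! ### Translations -/

theorem bk_u (h : Lim4 P G) (hs : s < P.p) (t : ℕ) : Gr.bk (G.u t s) = Gr.blk P.p t :=
  (h.root t s hs).2.2.2.1

theorem lk_iff (h : Lim4 P G) (hs : s < P.p) {t : ℕ} {x y : St} (hx : x.1 = G.u t s)
    (hy : y.1 = G.u (t + 1) s) : Lk (Gr.blk P.p) TW t x y ↔ Gr.Link P t x y := by
  have bx : Gr.bk x.1 = Gr.blk P.p t := by rw [hx]; exact bk_u h hs t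
  have bY : Gr.bk y.1 = Gr.blk P.p (t + 1) := by rw [hy]; exact bk_u h hs (t + 1)
  constructor
  · intro k
    refine ⟨k.lx0, k.lx, k.ly0, k.ly, fun e => ?_, fun e => ?_⟩
    · exact ⟨(k.same e).1, (head_iff k.lx0 k.ly0).2 (k.same e).2⟩
    · rcases k.next e with h1 | ⟨h1, h2, h3, h4⟩
      · refine Or.inl ?_
        unfold Gr.Rise
        rw [bx, bY]
        omega
      · refine Or.inr ⟨by rw [bx, bY]; omega, ?_⟩
        rw [pay_eq k.lx0, pay_eq k.ly0]
        exact ⟨h2, h3, h4⟩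
  · intro k
    refine ⟨k.x1, k.xb, k.y1, k.yb, fun e => ?_, fun e => ?_⟩
    · exact ⟨(k.ins e).1, (head_iff k.x1 k.y1).1 (k.ins e).2⟩
    · rcases k.bd e with h1 | ⟨h1, h2⟩
      · unfold Gr.Rise at h1
        rw [bx, bY] at h1
        exact Or.inl (by omega)
      · rw [bx, bY] at h1
        rw [pay_eq k.x1, pay_eq k.y1] at h2
        exact Or.inr ⟨by omega, h2⟩

theorem reg_iff (hP : P.Ok) (h : Lim4 P G) (hs : s < P.p) {σ : List ℕ} :
    Reg (VL G s) (us G s) (Gr.blk P.p) TW 0 σ ↔ RL P G s σ := by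
  have hG := gr hP h hs
  constructor
  · intro r
    refine ⟨(lv_iff h hs).1 r.lv, ?_, ?_, ?_, ?_⟩
    · intro t ht
      obtain ⟨x, hx, hp⟩ := r.pass t (Nat.zero_le _) ht
      obtain ⟨ν, h1, -, rfl⟩ := ps_iff.1 hp
      exact ⟨ν, h1, hx⟩
    · intro t ν hν hr
      exact r.dep t (endd o ν) (Nat.zero_le _) hr (ps_of_pfx hν (by rw [hr]; exact hG.upos t))
    · intro t ν ν' hν hν' h1 h2
      exact (lk_iff h hs h1 h2).1 (r.link t _ _ (Nat.zero_le _) h1 h2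
        (ps_of_pfx hν (by rw [h1]; exact hG.upos t))
        (ps_of_pfx hν' (by rw [h2]; exact hG.upos (t + 1))))
    · intro t ν ν' h1 h2 h3 h4
      have h5 : (endd o ν).1 ≤ (endd o ν').1 := hG.root_pfx (hG.lv_pfx r.lv h2) h1
      have h6 := hG.upos t
      have h7 : 0 < (endd o ν).1 := by rw [h3]; exact h6
      exact r.cln t (endd o ν) (endd o ν') (Nat.zero_le _) h3 (ps_of_pfx (h1.trans h2) h7)
        (ps_of_pfx h2 (by omega)) h5 h4
  · rintro ⟨hle, r⟩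
    have hlv := (lv_iff h hs).2 hle
    refine ⟨hlv, ?_, ?_, ?_, ?_⟩
    · intro t _ ht
      obtain ⟨ν, h1, h2⟩ := r.pass t ht
      exact ⟨endd o ν, h2, ps_of_pfx h1 (by rw [h2]; exact hG.upos t)⟩
    · intro t x _ hx hp
      obtain ⟨ν, h1, -, rfl⟩ := ps_iff.1 hp
      exact r.dep t ν h1 hx
    · intro t x y _ hx hy hpx hpy
      obtain ⟨ν, h1, -, rfl⟩ := ps_iff.1 hpx
      obtain ⟨ν', h1', -, rfl⟩ := ps_iff.1 hpy
      exact (lk_iff h hs hx hy).2 (r.link t ν ν' h1 h1' hx hy)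
    · intro t x v _ hx hpx hpv hle2 hlt
      obtain ⟨ν, h1, -, rfl⟩ := ps_iff.1 hpx
      obtain ⟨ν', h1', -, rfl⟩ := ps_iff.1 hpv
      have h2 : ν <+: ν' := by
        rcases List.prefix_or_prefix_of_prefix h1 h1' with h3 | h3
        · exact h3
        · obtain ⟨τ, hτ⟩ := h3
          have h4 : LV (VL G s) ν := hG.lv_pfx hlv h1
          rw [← hτ] at h4
          have h5 := ch_append.1 h4.1
          by_cases h6 : τ = []
          · rw [h6, List.append_nil] at hτ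
            rw [hτ]
          · have h7 := (ch_root hG.inc h5.2 fun s hs =>
              h4.2 s (List.mem_append.2 (Or.inr hs))).2.1 h6
            rw [hτ] at h7
            omega
      exact r.prv t ν ν' h2 h1' hx hlt

theorem lb_iff (hP : P.Ok) {t : ℕ} : Lb (Gr.blk P.p) t ↔ ∃ n, 2 ≤ n ∧ t = Gr.lst P.p n := by
  obtain ⟨b0, b1, b2, b3, -⟩ := Gr.blkS P.p hP.pos
  constructor
  · intro hL
    have h2 : ∀ t, 2 ≤ Gr.blk P.p t := by
      intro t
      induction t with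
      | zero => rw [b0]
      | succ t ih => rcases b1 t with h | h <;> omega
    refine ⟨Gr.blk P.p t, h2 t, ?_⟩
    have h3 := (b3 t _ (h2 t)).1 rfl
    by_contra h4
    have h5 := (b3 (t + 1) _ (h2 t)).2 ⟨by omega, by omega⟩
    unfold Lb at hL
    omega
  · rintro ⟨n, hn, rfl⟩
    have h1 := b2 n hn
    have h2 := (b2 (n + 1) (by omega)).1
    rw [h1.2.2.2] at h2
    unfold Lb
    rw [h1.2.1, h2]
    omega

theorem pc_iff (hP : P.Ok) (h : Lim4 P G) (hs : s < P.p) {σ : List ℕ} :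
    Pc (VL G s) (us G s) (Gr.blk P.p) TW 0 σ ↔ Gr.Ps P G s σ := by
  constructor
  · rintro ⟨h1, t, -, h2, h3⟩
    obtain ⟨n, hn, rfl⟩ := (lb_iff hP).1 h3
    exact ⟨(reg_iff hP h hs).1 h1, n, hn, h2⟩
  · rintro ⟨h1, n, hn, h2⟩
    exact ⟨(reg_iff hP h hs).2 h1, Gr.lst P.p n, Nat.zero_le _, h2, (lb_iff hP).2 ⟨n, hn, rfl⟩⟩

/-! ### Conditions -/

theorem cvr_iff (hP : P.Ok) (h : Lim4 P G) (hs : s < P.p) {T : List ℕ → Prop} {c : Cnd3} :
    CVr (VL G s) (us G s) (Gr.blk P.p) TW 0 T c ↔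
      (∃ t, CV (G.d t s).W T c) ∧ ∀ e ∈ c.2, Gr.Reg P (us G s) e.2.2 := by
  constructor
  · intro k
    refine ⟨?_, fun e he => ((reg_iff hP h hs).1 (k.reg e he)).2⟩
    obtain ⟨t, ht⟩ := common h hs (c.2.flatMap fun e => e.2.2) (by
      intro g hg
      obtain ⟨e, he, h1⟩ := List.mem_flatMap.1 hg
      exact (k.reg e he).lv.2 g h1)
    have hv : ∀ e ∈ c.2, ∀ g ∈ e.2.2, VS (G.d t s).W g := fun e he g hg =>
      ht g (List.mem_flatMap.2 ⟨e, he, hg⟩)
    exact ⟨t, k.cvs.root, k.cvs.uniq, k.cvs.mem,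
      fun e he => ⟨ch_pfx (k.cvs.stem e he).2 (k.cvs.stem e he).1,
        fun g hg => hv e he g ((k.cvs.stem e he).1.subset hg)⟩,
      fun e he => ⟨(k.cvs.stem e he).1, (k.cvs.stem e he).2, hv e he⟩,
      k.cvs.emb, k.cvs.stemEmb, k.cvs.parent, k.cvs.ac⟩
  · rintro ⟨⟨t, k⟩, hr⟩
    exact ⟨⟨k.root, k.uniq, k.mem, fun e he => ⟨(k.stem e he).1, (k.stem e he).2.1⟩, k.emb,
      k.stemEmb, k.parent, k.ac⟩, fun e he => (reg_iff hP h hs).2 ⟨⟨t, (k.stem e he).2⟩, hr e he⟩⟩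

/-- The stage of a condition. -/
theorem cv_stage (h : Lim4 P G) (hs : s < P.p) {T : List ℕ → Prop} {c : Cnd3}
    {t t' : ℕ} (hc : CV (G.d t s).W T c) (hN : ∀ e ∈ c.2, (endd o e.2.2).1 < (G.d t' s).N) :
    CV (G.d t' s).W T c := by
  have h1 : ∀ e ∈ c.2, VStr (G.d t' s).W o e.2.2 (endd o e.2.2) := fun e he =>
    (Gr.LimF.vstr_loc hB hM h hs e.2.2 t' (hN e he)).1 ⟨t, (hc.stem e he).2⟩
  exact ⟨hc.root, hc.uniq, hc.mem, fun e he => ⟨(hc.img e he).1, fun g hg =>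
    (h1 e he).2 g ((hc.stem e he).1.subset hg)⟩, fun e he => ⟨(hc.stem e he).1, h1 e he⟩, hc.emb,
    hc.stemEmb, hc.parent, hc.ac⟩

/-- Valid conditions of the stage `n` are bases. -/
theorem base_iff (hP : P.Ok) (h : Lim4 P G) (hs : s < P.p) {T : List ℕ → Bool} {n : ℕ}
    (hn : 3 ≤ n) {E : List ℕ} {c : Cnd3} : Gr.CG P G s T n E c ↔ Txt.Leg T c.1 ∧
      ∃ z, Base (VL G s) (us G s) (Gr.blk P.p) TW 0 (TE P.Tr E) c z (Gr.lst P.p (n - 1)) := by
  obtain ⟨b0, b1, b2, b3, -⟩ := Gr.blkS P.p hP.pos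
  have hG := gr hP h hs
  have hf : Gr.fst P.p n = Gr.lst P.p (n - 1) + 1 := by
    have := (b2 (n - 1) (by omega)).2.2.2
    rwa [show n - 1 + 1 = n by omega] at this
  have hb : Gr.blk P.p (Gr.lst P.p (n - 1)) = n - 1 := (b2 (n - 1) (by omega)).2.1
  constructor
  · intro k
    obtain ⟨z, hz, hz1, hza⟩ := k.at'
    have hz' : z.1 = G.u (Gr.lst P.p (n - 1)) s := by rw [hz, hf]; rfl
    have hcv : CVr (VL G s) (us G s) (Gr.blk P.p) TW 0 (TE P.Tr E) c :=
      (cvr_iff hP h hs).2 ⟨⟨_, k.cv⟩, k.reg⟩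
    refine ⟨k.leg, z, hcv, at_iff.2 hza, hz', (lb_iff hP).2 ⟨n - 1, by omega, rfl⟩, hz1, ?_⟩
    obtain ⟨p, hp⟩ := k.cv.root
    obtain ⟨i, -, h1⟩ := hza.en _ hp
    have h2 : Ps p (ow z i) := by
      rw [← h1]
      refine ps_endd ?_
      show 0 < (endd o p).1
      rw [h1]
      show 0 < z.1
      rw [hz']
      exact hG.upos _
    have h3 := ((hcv.reg _ hp).dep (Gr.lst P.p (n - 1)) (ow z i) (Nat.zero_le _) hz' h2).2
    rw [ow_len] at h3
    exact h3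
  · rintro ⟨hl, z, k⟩
    obtain ⟨⟨t, hcv⟩, hr⟩ := (cvr_iff hP h hs).1 k.cv
    have hz' : z.1 = G.u (Gr.lst P.p (n - 1)) s := k.rt
    refine ⟨hl, cv_stage h hs hcv fun e he => ?_, ⟨z, ?_, k.dep0, at_iff.1 k.atz⟩, hr⟩
    · obtain ⟨i, -, h1⟩ := k.atz.en e he
      rw [h1]
      show z.1 < _
      rw [hz', hf]
      exact Gr.LimF.u_lt hM h hs (Nat.lt_succ_self _)
    · rw [hz', hf]
      rfl

/-- New nodes are above stems. -/
theorem up_new {T : List ℕ → Prop} {c c' : Cnd3} (hle : CLe T c c')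
    (hroot : ∃ e ∈ c.2, e.1 = []) (hcv : CVs T c') (m : ℕ) :
    ∀ e' ∈ c'.2, e'.1.length ≤ m → (∀ e₀ ∈ c.2, e₀.1 ≠ e'.1) → ∃ e ∈ c.2, e.2.2 <+: e'.2.1 := by
  induction m with
  | zero =>
    intro e' _ hm hn
    obtain ⟨e, he, h1⟩ := hroot
    exact absurd (h1.trans (List.length_eq_zero_iff.1 (by omega)).symm) (hn e he)
  | succ m ih =>
    intro e' he' hm hn
    have hne : e'.1 ≠ [] := by
      obtain ⟨e, he, h1⟩ := hroot
      exact fun h2 => hn e he (h1.trans h2.symm)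
    obtain ⟨e'', he'', h1⟩ := hcv.parent e' he' hne
    by_cases h2 : ∃ e₁ ∈ c.2, e₁.1 = e'.1.dropLast
    · obtain ⟨e₁, h3, h4⟩ := h2
      exact ⟨e₁, h3, hle.new e' he' hn e₁ h3 h4⟩
    · obtain ⟨e, he, h3⟩ := ih e'' he'' (by
        rw [h1, List.length_dropLast]
        omega) (fun e₀ h4 h5 => h2 ⟨e₀, h4, h5.trans h1⟩)
      refine ⟨e, he, h3.trans ((hcv.emb e'' he'' e' he').2 ?_)⟩
      rw [h1]
      exact List.dropLast_prefix _

theorem up_of {T : List ℕ → Prop} {c c' : Cnd3} (hle : CLe T c c')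
    (hroot : ∃ e ∈ c.2, e.1 = []) (hcv : CVs T c') :
    ∀ e' ∈ c'.2, ∃ e ∈ c.2, e.2.2 <+: e'.2.2 := by
  intro e' he'
  by_cases h1 : ∃ e₀ ∈ c.2, e₀.1 = e'.1
  · obtain ⟨e₀, h2, h3⟩ := h1
    obtain ⟨p', h4, h5⟩ := hle.old e₀ h2
    have h6 := hcv.uniq _ h5 e' he' h3
    exact ⟨e₀, h2, by rw [← h6]; exact h4⟩
  · obtain ⟨e, he, h2⟩ := up_new hle hroot hcv e'.1.length e' he' le_rfl
      (fun e₀ h2 h3 => h1 ⟨e₀, h2, h3⟩)
    exact ⟨e, he, h2.trans (hcv.stem e' he').1⟩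

theorem lst_mono (hP : P.Ok) {n n' : ℕ} (hn : 2 ≤ n) (hnn : n ≤ n') :
    Gr.lst P.p n ≤ Gr.lst P.p n' := by
  obtain ⟨b0, b1, b2, b3, -⟩ := Gr.blkS P.p hP.pos
  induction n', hnn using Nat.le_induction with
  | base => exact le_rfl
  | succ m hm ih =>
    have h1 := b2 m (by omega)
    have h2 := b2 (m + 1) (by omega)
    omega

/-- Coned extensions. -/
theorem con (hP : P.Ok) (h : Lim4 P G) (hs : s < P.p) {T : List ℕ → Prop} {n n' : ℕ}
    (hn : 3 ≤ n) (hnn : n ≤ n') {c c' : Cnd3} (k : Gr.Con P G s T n n' c c')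
    (hroot : ∃ e ∈ c.2, e.1 = []) (hcv : CVs T c') : ∃ Z : ℕ → St,
      Con (us G s) (Gr.blk P.p) TW T Z (Gr.lst P.p (n - 1)) (Gr.lst P.p (n' - 1)) c c' := by
  have hG := gr hP h hs
  obtain ⟨Z, h1, h2, h3, h4, h5⟩ := k.drv
  refine ⟨Z, lst_mono hP (by omega) (by omega), k.le, at_iff.2 h2, at_iff.2 h3,
    up_of k.le hroot hcv, fun t _ _ => h1 t, fun t e1 e2 => ?_, fun e' he' t e1 e2 => ?_⟩
  · exact (lk_iff h hs (h1 t) (h1 (t + 1))).2 (h4 t e1 e2)
  · obtain ⟨ν, i, h6, h7, h8⟩ := h5 e' he' t e1 e2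
    refine ⟨i, h7, ?_⟩
    rw [← h8]
    refine ps_of_pfx h6 ?_
    rw [h8]
    show 0 < (Z t).1
    rw [h1 t]
    exact hG.upos t

end lim

end Pool.Agent.Lib.MP_d48993_lc.Ba.Rem.Inst

namespace Pool.Agent.Lib.MP_d48993_lc.Ba.Rem

/-- Module RINST. -/
theorem inst : InstStatement := fun _ hP _ h _ hs =>
  ⟨Inst.gr hP h hs, Inst.accV h hs, Inst.carryV h hs, fun _ => Inst.reg_iff hP h hs,
    fun _ => (Inst.pc_iff hP h hs).symm, fun _ _ _ hx hy => Inst.lk_iff h hs hx hy⟩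

end Pool.Agent.Lib.MP_d48993_lc.Ba.Rem
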