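import Pool.Agent.Lib.MP_d48993_lc.BAE.Rem.Inv

/-!
# Part R: STEP and START (finding 4183, (R2.3), (R2.4))
-/

set_option autoImplicit false

namespace Pool.Agent.Lib.MP_d48993_lc.Ba.Rem

open Node
open Node.Proc (endd_append endd_snoc ch_end ch_append ch_pfx)

variable {V : ℕ → Prop} {u blk : ℕ → ℕ} {TB : ℕ → List ℕ → Prop} {N : ℕ}
  {T Th U : List ℕ → Prop} {le : ℕ → List ℕ → List ℕ → Prop} {R : ℕ → List ℕ → ℕ} {lam : ℕ}
  {cu : Cnd3} {tu : ℕ} {Q : List (List ℕ) → Prop} {m0 : List (List ℕ)}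
  {φ : List ℕ → List (List ℕ) → List ℕ}

/-- A forcing condition of the driver can be made longer. -/
theorem Gr.pc_longer (hG : Gr V u blk) {σ : List ℕ} (h : Pc V u blk TB N σ) (n : ℕ) :
    ∃ τ t, Pc V u blk TB N (σ ++ τ) ∧ τ ≠ [] ∧ N ≤ t ∧ n ≤ t ∧ (endd o (σ ++ τ)).1 = u t ∧
      (endd o (σ ++ τ)).2 = (endd o σ).2 ∧ Lb blk t := by
  obtain ⟨hr, t0, h1, h2, h3⟩ := h
  obtain ⟨t1, h4, -, h5⟩ := hG.lb (t0 + 1 + n) 0
  have hps : Ps σ (endd o σ) := ps_endd (by rw [h2]; exact hG.upos t0)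
  have hd := hr.dep t0 _ h1 h2 hps
  have hadm := hG.adm_ps hr.lv hps
  have e0 : ((u t0, (endd o σ).2) : St) = endd o σ := Prod.ext h2.symm rfl
  obtain ⟨τ, h6, h7, h8⟩ := hG.drive (Z := fun s => (u s, (endd o σ).2)) (t0 := t0) (t1 := t1)
    hr e0.symm (by omega) (fun t h9 _ => ⟨rfl, hG.keep_adm h2 hadm h9⟩)
    (fun t h9 _ => Lk.keep (x := (u t, (endd o σ).2)) (hG.bstep t) hd.1 (by
      have := hG.ble h9
      show (endd o σ).2.length ≤ _
      omega) (u (t + 1)))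
  have h9 : (endd o (σ ++ τ)).1 = u t1 := by rw [h7]
  exact ⟨τ, t1, ⟨h6, t1, by omega, h9, h5⟩, h8 (by omega), by omega, by omega, h9,
    by rw [h7], h5⟩

/-- STEP. -/
theorem Gd.step {p : List ℕ} {a : Cf} (h : Gd V u blk TB N T Th le R lam cu tu Q m0 p a)
    (hG : Gr V u blk) (hC : CarryV V) (hN : NE V u blk TB N T U le R lam cu tu Q φ m0)
    (hE : Ev U φ) (hT : Tx T Th le R lam) {σ1 : List ℕ} {m1 : List (List ℕ)}
    (h1 : Pc V u blk TB N σ1) (h2 : a.sg <+: σ1) (h3 : Q m1) (h4 : Mle a.m m1) :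
    ∃ b : Cf, σ1 <+: b.sg ∧ Pc V u blk TB N b.sg ∧ Q b.m ∧ Mle m1 b.m ∧ Pre T le lam a b ∧
      (φ a.c.1 a.m).length < (φ b.c.1 b.m).length := by
  -- a longer driver
  obtain ⟨τ1, t0, ⟨hr1, hN'⟩, hne, hNt, -, ht0, -, hlb⟩ := hG.pc_longer h1 0
  obtain ⟨τ0, hτ0⟩ := h2
  set τ := τ0 ++ τ1 with hτ
  have hσ : σ1 ++ τ1 = a.sg ++ τ := by rw [← hτ0, hτ, List.append_assoc]
  rw [hσ] at hr1 ht0
  have hτne : τ ≠ [] := by
    rw [hτ]
    intro h5
    exact hne (List.append_eq_nil_iff.1 h5).2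
  -- carry
  obtain ⟨c1, a1, a2, a3, a4⟩ := h.carry hG hC hr1 h3 h4
  have hps : Ps (a.sg ++ τ) (endd o (a.sg ++ τ)) := ps_endd (by rw [ht0]; exact hG.upos t0)
  obtain ⟨hdep, -⟩ := a3.own t0 _ hNt ht0 hps (by
    show (endd o (a.sg ++ τ)).1 < _
    rw [ht0]; exact hG.umono t0)
  have hdep0 := (hr1.dep t0 _ hNt ht0 hps).1
  have hcon : tu ≤ t0 ∧ ∃ Z, Cng u blk TB Z tu cu (u t0) c1 := by
    obtain ⟨h5, Z, hZ⟩ := a3.con
    have h5' : u (tu + 1) ≤ (endd o (a.sg ++ τ)).1 := h5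
    rw [ht0] at h5'
    have hZ' : Cng u blk TB Z tu cu (endd o (a.sg ++ τ)).1 c1 := hZ
    rw [ht0] at hZ'
    refine ⟨?_, Z, hZ'⟩
    by_contra h6
    have := hG.ulm (show t0 < tu + 1 by omega)
    omega
  have hFm : Fm V u blk TB N T le R lam cu tu (endd o (a.sg ++ τ)) t0 c1 :=
    ⟨⟨a3.cv, a3.atz, ht0, hlb, hdep0, hdep⟩, a3.cle, hcon, a3.tx, by
      obtain ⟨-, w, hw⟩ := a3.lst
      exact ⟨w, p, hw⟩⟩
  -- growth
  obtain ⟨k', Z, t', m', b1, b2, b3, b4, b5, b6, b7⟩ :=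
    hN.D c1 _ t0 hFm m1 h3 (h.m0.trans h4) ((φ a.c.1 a.m).length + 1)
  -- the driver goes along
  obtain ⟨τ', d1, d2, d3⟩ := hG.fanc hr1 hNt b1.symm b2 (fun e he => b3.cv.reg e he)
    (by obtain ⟨q, hq⟩ := b3.cv.cvs.root; exact ⟨_, hq⟩)
  have hZ' : (endd o (a.sg ++ τ ++ τ')).1 = u t' := by rw [d2]; exact b3.rt
  have ht' : N ≤ t' := hNt.trans b2.le
  refine ⟨(a.sg ++ τ ++ τ', m', k'), ?_, ⟨d1, t', ht', hZ', b3.lb⟩, b5, b6, ⟨?_, ?_, ?_, ?_, ?_,
    ?_, ?_, ?_⟩, ?_⟩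
  · show σ1 <+: a.sg ++ τ ++ τ'
    rw [← hσ, List.append_assoc]
    exact List.prefix_append _ _
  · show a.sg <+: a.sg ++ τ ++ τ'
    rw [List.append_assoc]
    exact List.prefix_append _ _
  · show a.sg.length < (a.sg ++ τ ++ τ').length
    have : 0 < τ.length := List.length_pos_of_ne_nil hτne
    simp only [List.length_append]
    omega
  · exact h4.trans b6
  · exact b3.cv.cvs
  · exact cle_trans b3.cv.cvs.uniq a2 b2.cle
  · show At (endd o (a.sg ++ τ ++ τ')) k'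
    rw [d2]; exact b2.atz'
  · intro e' he'
    obtain ⟨e1, he1, h5, h6⟩ := d3 e' he'
    obtain ⟨e, he, h7, h8⟩ := a4 e1 he1
    refine ⟨e, he, h7.trans h5, ?_⟩
    show Cert ((a.sg ++ τ ++ τ').drop a.sg.length) _
    rw [List.append_assoc, List.drop_left]
    obtain ⟨r, hr⟩ := h7
    obtain ⟨r', hr'⟩ := h5
    rw [← hr, List.drop_left] at h8
    rw [← hr', List.drop_left] at h6
    have e1 : e'.2.2.drop e.2.2.length = r ++ r' := by
      rw [← hr', ← hr, List.append_assoc, List.drop_left]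
    rw [e1]
    -- roots
    obtain ⟨i1, -, hi1⟩ := a3.atz.en _ he1
    have hroot1 : (endd o (e.2.2 ++ r)).1 = u t0 := by
      rw [hr, hi1, ow_root]
      exact ht0
    have hlv1 : LV V (e.2.2 ++ r) := by rw [hr]; exact (a3.cv.reg _ he1).lv
    have hlv2 : LV V (e.2.2 ++ r ++ r') := by rw [hr, hr']; exact (b3.cv.reg _ he').lv
    have hτ1 : ∀ g ∈ τ, (tgt g).1 ≤ u t0 := fun g hg => by
      rw [← ht0]
      exact hG.ps_le hr1.lv ⟨g, List.mem_append.2 (Or.inr hg), rfl⟩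
    have hτ2 : ∀ g ∈ τ', u t0 < (tgt g).1 := fun g hg => by
      have h10 := (ch_append.1 d1.lv.1).2
      have hv : ∀ s ∈ τ', V s := fun s hs => d1.lv.2 s (List.mem_append.2 (Or.inr hs))
      have h11 := ((ch_root hG.inc h10 hv).2.2 g hg).2
      have h12 := hG.inc g (hv g hg)
      rw [ht0] at h11
      omega
    intro s hs
    rcases List.mem_append.1 hs with h9 | h9
    · obtain ⟨⟨g, h10, h11⟩, h12⟩ := h8 s h9
      refine ⟨⟨g, List.mem_append.2 (Or.inl h10), h11⟩, fun g' h13 h14 => ?_⟩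
      rcases List.mem_append.1 h13 with h15 | h15
      · exact h12 g' h15 h14
      · have h16 := hG.ps_le hlv1 ⟨s, List.mem_append.2 (Or.inr h9), rfl⟩
        have h17 := hτ2 g' h15
        rw [h14, ow_root, hroot1] at h16
        omega
    · obtain ⟨⟨g, h10, h11⟩, h12⟩ := h6 s h9
      refine ⟨⟨g, List.mem_append.2 (Or.inr h10), h11⟩, fun g' h13 h14 => ?_⟩
      rcases List.mem_append.1 h13 with h15 | h15
      · have h16 := hτ1 g' h15
        have h17 := (ch_append.1 hlv2.1).2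
        have hv : ∀ s ∈ r', V s := fun s hs => hlv2.2 s (List.mem_append.2 (Or.inr hs))
        have h18 := ((ch_root hG.inc h17 hv).2.2 s h9).2
        have h19 := hG.inc s (hv s h9)
        rw [hroot1] at h18
        rw [h14, ow_root] at h19
        omega
      · exact h12 g' h15 h14
  · show le (lam + 1) a.c.1 k'.1
    rw [← a1]; exact b4
  · show (φ a.c.1 a.m).length < (φ k'.1 m').length
    omega

/-- The next block: the string `[0]`. -/
theorem Gr.lk_zero (hG : Gr V u blk) {t : ℕ} {x : St} (hx : 1 ≤ x.2.length)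
    (hx' : x.2.length ≤ blk t) (hb : Lb blk t) (r : ℕ) : Lk blk TB t x (r, [0]) := by
  have h1 : blk (t + 1) = blk t + 1 := by
    rcases hG.bstep t with h | h
    · unfold Lb at hb; omega
    · exact h
  refine ⟨hx, hx', le_rfl, ?_, fun h => by omega, fun _ => Or.inl ?_⟩
  · show 1 ≤ _
    omega
  · show 1 + blk t < _
    omega

/-- START. -/
theorem Base.start {zu : St} (hB : Base V u blk TB N T cu zu tu) (hG : Gr V u blk)
    (hA : AccV V u) (hT : Tx T Th le R lam) (hlam : le lam cu.1 (cu.1 ++ [R lam []]))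
    (hTh : Th []) {σ : List ℕ} {m : List (List ℕ)} (h1 : Pc V u blk TB N σ) (h2 : Q m)
    (h3 : Mle m0 m) : ∃ a : Cf, Gd V u blk TB N T Th le R lam cu tu Q m0 [] a ∧ σ <+: a.sg ∧
      Pc V u blk TB N a.sg ∧ a.m = m := by
  obtain ⟨τ, t2, ⟨hr, -⟩, -, hNt, hut, hend, -, hlb2⟩ := hG.pc_longer h1 (tu + 1)
  obtain ⟨t3, h4, -, hlb3⟩ := hG.lb (t2 + 1) 0
  have hps : Ps (σ ++ τ) (endd o (σ ++ τ)) := ps_endd (by rw [hend]; exact hG.upos t2)
  have hd := hr.dep t2 _ hNt hend hps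
  have hb2 : 2 ≤ blk tu := by
    have := hB.dep0
    have := hB.dep
    omega
  have hb3 : ∀ s, tu ≤ s → 2 ≤ blk s := fun s hs => by
    have := hG.ble hs
    omega
  have h0 : ∀ s, ∀ b ∈ [0], b < sz (u s) := by
    intro s b hb
    rw [List.mem_singleton.1 hb]
    have := hG.big s
    omega
  have hzero : ∀ s, t2 < s → Lk blk TB s (u s, [0]) (u (s + 1), [0]) := fun s hs =>
    Lk.keep (x := (u s, [0])) (hG.bstep s) le_rfl (by
      show 1 ≤ _
      have := hb3 s (by omega)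
      omega) (u (s + 1))
  -- the driver
  obtain ⟨τ', a1, a2, -⟩ := hG.drive (Z := fun s => if s ≤ t2 then (u s, (endd o (σ ++ τ)).2)
      else (u s, [0])) (t0 := t2) (t1 := t3) hr (by
        show _ = if t2 ≤ t2 then _ else _
        rw [if_pos le_rfl]
        exact Prod.ext hend rfl) (by omega) (by
        intro t h5 h6
        show (if t ≤ t2 then _ else _ : St).1 = _ ∧ _
        by_cases h7 : t ≤ t2
        · have h8 : t = t2 := by omega
          subst h8
          rw [if_pos le_rfl]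
          exact ⟨rfl, hG.keep_adm hend (hG.adm_ps hr.lv hps) le_rfl⟩
        · rw [if_neg h7]
          exact ⟨rfl, h0 t⟩) (by
        intro t h5 h6
        show Lk blk TB t (if t ≤ t2 then _ else _) (if t + 1 ≤ t2 then _ else _)
        rw [if_neg (show ¬ t + 1 ≤ t2 by omega)]
        by_cases h7 : t ≤ t2
        · have h8 : t = t2 := by omega
          subst h8
          rw [if_pos le_rfl]
          exact hG.lk_zero (x := (u t, (endd o (σ ++ τ)).2)) hd.1 hd.2 hlb2 (u (t + 1))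
        · rw [if_neg h7]
          exact hzero t (by omega))
  have a2' : endd o (σ ++ τ ++ τ') = (u t3, [0]) := by
    rw [a2]
    show (if t3 ≤ t2 then _ else _ : St) = _
    rw [if_neg (by omega)]
  -- the condition
  have hadm : ∀ s, tu ≤ s → ∀ b ∈ zu.2, b < sz (u s) := by
    intro s hs
    obtain ⟨q, hq⟩ := hB.cv.cvs.root
    obtain ⟨i, -, h5⟩ := hB.atz.en _ hq
    have h6 : Ps q (ow zu i) := by
      rw [← h5]
      refine ps_endd ?_
      rw [h5, ow_root, hB.rt]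
      exact hG.upos tu
    exact hG.keep_adm hB.rt (adm_of_own (hG.adm_ps (hB.cv.reg _ hq).lv h6)).1 hs
  set Z : ℕ → St := fun s => if s ≤ t2 then (u s, zu.2) else (u s, [0]) with hZdef
  have hZle : ∀ s, s ≤ t2 → Z s = (u s, zu.2) := fun s hs => if_pos hs
  have hZgt : ∀ s, t2 < s → Z s = (u s, [0]) := fun s hs => if_neg (by omega)
  have hZrt : ∀ s, (Z s).1 = u s := by
    intro s
    rcases Nat.lt_or_ge t2 s with h7 | h7
    · rw [hZgt s h7]
    · rw [hZle s h7]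
  have hZu : Z tu = zu := by
    rw [hZle tu (by omega)]
    exact Prod.ext hB.rt.symm rfl
  have hZlk : ∀ t, tu ≤ t → t < t3 → Lk blk TB t (Z t) (Z (t + 1)) := by
    intro t h5 h6
    have h9 : zu.2.length ≤ blk t := by
      have := hG.ble h5
      have := hB.dep
      omega
    by_cases h7 : t + 1 ≤ t2
    · rw [hZle (t + 1) h7, hZle t (by omega)]
      exact Lk.keep (x := (u t, zu.2)) (hG.bstep t) hB.dep0 h9 (u (t + 1))
    · rw [hZgt (t + 1) (by omega)]
      by_cases h8 : t ≤ t2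
      · have h10 : t = t2 := by omega
        subst h10
        rw [hZle t le_rfl]
        exact hG.lk_zero (x := (u t, zu.2)) hB.dep0 h9 hlb2 (u (t + 1))
      · rw [hZgt t (by omega)]
        exact hzero t (by omega)
  obtain ⟨c', b1, b2, b3, b4, b5, b6, b7⟩ := hG.move hA (Z := Z) (t0 := tu) (t1 := t3) hB.cv
      hB.atz (by rw [hB.rt]) (by rw [hB.rt]; exact hG.umono tu) (hZrt tu) (by
        intro e he
        obtain ⟨i, -, h5⟩ := hB.atz.en e he
        refine ⟨i, ?_⟩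
        rw [hZu, ← h5]
        refine ps_endd ?_
        rw [h5, ow_root, hB.rt]
        exact hG.upos tu) (by rw [hZu]; exact hB.dep) (by omega) (by
        intro t h5 h6
        refine ⟨hZrt t, ?_⟩
        rw [hZrt t]
        rcases Nat.lt_or_ge t2 t with h7 | h7
        · rw [hZgt t h7]; exact h0 t
        · rw [hZle t h7]; exact hadm t (by omega)) hZlk
  have hcng : Cng u blk TB Z tu cu (u t3) c' := by
    refine ⟨by rw [hZu]; exact hB.atz, b5, fun t _ _ => hZrt t, fun t h5 h6 => hZlk t h5 ?_,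
      fun e' he' t h5 h6 => b7 e' he' t h5 ?_⟩
    · by_contra h7
      have := hG.ulm (show t3 < t + 1 by omega)
      omega
    · by_contra h7
      have := hG.ulm (show t3 < t by omega)
      omega
  have b2' : At (u t3, [0]) c' := by
    rw [← hZgt t3 (by omega)]; exact b2
  have hroot : (endd o (σ ++ τ ++ τ')).1 = u t3 := by rw [a2']
  refine ⟨(σ ++ τ ++ τ', m, (c'.1 ++ [R lam []], c'.2)), ⟨a1, ⟨t3, by omega, by
      show _ ≤ (endd o (σ ++ τ ++ τ')).1
      rw [hroot]⟩, h3, ⟨m, h2, Mle.refl m⟩,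
    ⟨⟨b1.cvs.root, b1.cvs.uniq, b1.cvs.mem, b1.cvs.stem, b1.cvs.emb, b1.cvs.stemEmb,
      b1.cvs.parent, b1.cvs.ac⟩, b1.reg⟩, ?_, cle_snoc b4 (hT.nf []), ⟨?_, Z, ?_⟩, ?_,
    ⟨hTh, c'.1, rfl⟩, ?_⟩, ?_, ⟨a1, t3, by omega, hroot, hlb3⟩, rfl⟩
  · show At (endd o (σ ++ τ ++ τ')) _
    rw [a2']
    exact ⟨b2'.en, b2'.inj⟩
  · show u (tu + 1) ≤ (endd o (σ ++ τ ++ τ')).1
    rw [hroot]; exact hG.ule (by omega)
  · show Cng u blk TB Z tu cu (endd o (σ ++ τ ++ τ')).1 (c'.1 ++ [R lam []], c'.2)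
    rw [hroot]
    exact ⟨hcng.atz, hcng.up, hcng.rt, hcng.lk, hcng.way⟩
  · show le lam cu.1 (c'.1 ++ [R lam []])
    rw [b3]; exact hlam
  · intro t y h5 h6 h7 h8
    have h7' : Ps (σ ++ τ ++ τ') y := h7
    have h8' : u t3 < u (t + 1) := by
      have : (endd o (σ ++ τ ++ τ')).1 < u (t + 1) := h8
      rwa [hroot] at this
    have h9 := hG.ps_le a1.lv h7'
    rw [hroot, h6] at h9
    have h10 : t = t3 := by
      have h11 := hG.ult h8'
      by_contra h12
      have := hG.ulm (show t3 < t by omega)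
      omega
    subst h10
    have hps' : Ps (σ ++ τ ++ τ') (endd o (σ ++ τ ++ τ')) := ps_endd (by
      rw [hroot]; exact hG.upos t)
    have h11 : y = (u t, [0]) := by
      rw [← a2']
      exact hG.ps_uniq a1.lv h7' hps' (by rw [h6, hroot])
    subst h11
    refine ⟨?_, fun e he => ?_⟩
    · show 1 + 1 ≤ _
      exact hb3 t (by omega)
    · obtain ⟨i, -, h12⟩ := b2'.en e he
      refine ⟨i, ?_⟩
      rw [← h12]
      refine ps_endd ?_
      rw [h12]
      exact hG.upos t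
  · show σ <+: σ ++ τ ++ τ'
    rw [List.append_assoc]
    exact List.prefix_append _ _

end Pool.Agent.Lib.MP_d48993_lc.Ba.Rem
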